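import Mathlib

/-!
# Windows with many disjoint subsets

`fam S j v W`: the `j`-element subsets of `S` whose sum is in `[v, v + W)`.
-/

set_option autoImplicit false

open Finset

namespace Pool.Agent.U204.PT

/-- the `j`-element subsets of `S` whose sum is in `[v, v + W)` -/
def fam (S : Finset ℕ) (j v W : ℕ) : Finset (Finset ℕ) :=
  (powersetCard j S).filter fun Q => v ≤ ∑ a ∈ Q, a ∧ ∑ a ∈ Q, a < v + W

theorem mem_fam {S : Finset ℕ} {j v W : ℕ} {Q : Finset ℕ} :
    Q ∈ fam S j v W ↔ (Q ⊆ S ∧ Q.card = j) ∧ v ≤ ∑ a ∈ Q, a ∧ ∑ a ∈ Q, a < v + W := by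
  unfold fam
  rw [mem_filter, mem_powersetCard]

/-- greedy matching -/
theorem matching (j D : ℕ) (hj : 1 ≤ j) (hD : 1 ≤ D) : ∀ (s : ℕ) (F : Finset (Finset ℕ)),
    (∀ Q ∈ F, Q.card = j) → (∀ x, (F.filter fun Q => x ∈ Q).card ≤ D) → s * (j * D) ≤ F.card →
    ∃ P ⊆ F, P.card = s ∧ ∀ Q ∈ P, ∀ Q' ∈ P, Q ≠ Q' → Disjoint Q Q' := by
  intro s
  induction s with
  | zero =>
    intro F _ _ _
    exact ⟨∅, empty_subset _, rfl, by simp⟩
  | succ s ih =>
    intro F hF hx hcard
    have hpos : 0 < F.card := by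
      have : 1 ≤ j * D := Nat.one_le_iff_ne_zero.2 (by positivity)
      nlinarith
    obtain ⟨Q, hQ⟩ := card_pos.1 hpos
    set F' := F.filter fun Q' => Disjoint Q Q' with hF'
    have hrem : (F.filter fun Q' => ¬ Disjoint Q Q').card ≤ j * D := by
      have hsub : (F.filter fun Q' => ¬ Disjoint Q Q') ⊆
          Q.biUnion fun x => F.filter fun Q' => x ∈ Q' := by
        intro Q' hQ'
        rw [mem_filter, not_disjoint_iff] at hQ'
        obtain ⟨h1, x, h2, h3⟩ := hQ'
        rw [mem_biUnion]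
        exact ⟨x, h2, mem_filter.2 ⟨h1, h3⟩⟩
      refine (card_le_card hsub).trans (card_biUnion_le.trans ?_)
      calc ∑ x ∈ Q, (F.filter fun Q' => x ∈ Q').card ≤ ∑ x ∈ Q, D := sum_le_sum fun x _ => hx x
        _ = j * D := by rw [sum_const, hF Q hQ, smul_eq_mul]
    have hsplit := card_filter_add_card_filter_not (s := F) (fun Q' => Disjoint Q Q')
    have hF'card : s * (j * D) ≤ F'.card := by
      rw [Nat.succ_mul] at hcard
      rw [hF']
      omega
    obtain ⟨P, hP1, hP2, hP3⟩ := ih F' (fun Q' h => hF Q' (mem_filter.1 h).1)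
      (fun x => (card_le_card (filter_subset_filter _ (filter_subset _ _))).trans (hx x)) hF'card
    have hQP : Q ∉ P := by
      intro h
      have := (mem_filter.1 (hP1 h)).2
      rw [disjoint_self_iff_empty] at this
      have h2 := hF Q hQ
      rw [this, card_empty] at h2
      omega
    refine ⟨insert Q P, ?_, ?_, ?_⟩
    · rw [insert_subset_iff]
      exact ⟨hQ, hP1.trans (filter_subset _ _)⟩
    · rw [card_insert_of_notMem hQP, hP2]
    · intro Q₁ h₁ Q₂ h₂ hne
      rw [mem_insert] at h₁ h₂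
      rcases h₁ with rfl | h₁ <;> rcases h₂ with rfl | h₂
      · exact absurd rfl hne
      · exact (mem_filter.1 (hP1 h₂)).2
      · exact (mem_filter.1 (hP1 h₁)).2.symm
      · exact hP3 Q₁ h₁ Q₂ h₂ hne

/-- the thresholds -/
def thr (k : ℕ) : ℕ → ℕ
  | 0 => 1
  | 1 => 8 * k + 1
  | (j + 2) => 2 * k * ((j + 2) * thr k (j + 1))

theorem thr_pos (k : ℕ) (hk : 1 ≤ k) : ∀ j, 1 ≤ thr k j
  | 0 => le_rfl
  | 1 => by simp [thr]
  | (j + 2) => by
    have := thr_pos k hk (j + 1)
    simp only [thr]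
    exact Nat.one_le_iff_ne_zero.2 (by positivity)

/-- Two or more elements: `2 k` pairwise disjoint `j`-subsets with sums in a window of length `2 W`. -/
theorem exists_disjoint (k : ℕ) (hk : 1 ≤ k) (S : Finset ℕ) (h W : ℕ) (hh : 2 ≤ h)
    (hex : ∃ v, thr k h ≤ (fam S h v W).card) :
    ∃ j v, ∃ P : Finset (Finset ℕ), 2 ≤ j ∧ j ≤ h ∧ P.card = 2 * k ∧
      (∀ Q ∈ P, Q ⊆ S ∧ Q.card = j ∧ v ≤ ∑ a ∈ Q, a ∧ ∑ a ∈ Q, a ≤ v + 2 * W) ∧
      ∀ Q ∈ P, ∀ Q' ∈ P, Q ≠ Q' → Disjoint Q Q' := by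
  classical
  have hex' : ∃ j, 1 ≤ j ∧ ∃ v, thr k j ≤ (fam S j v W).card := ⟨h, by omega, hex⟩
  set j := Nat.find hex' with hj
  obtain ⟨hj1, v, hv⟩ := Nat.find_spec hex'
  have hjh : j ≤ h := Nat.find_min' hex' ⟨by omega, hex⟩
  have hmin : ∀ i, 1 ≤ i → i < j → ∀ u, (fam S i u W).card < thr k i := by
    intro i hi hij u
    by_contra hc
    exact Nat.find_min hex' hij ⟨hi, u, by omega⟩
  rw [← hj] at hj1 hv
  rcases Nat.lt_or_ge j 2 with hlt | hge
  · -- a cluster
    have hj' : j = 1 := by omega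
    rw [hj'] at hv
    set X := S.filter fun a => v ≤ a ∧ a < v + W with hX
    have hXcard : 8 * k + 1 ≤ X.card := by
      have : (fam S 1 v W).card ≤ X.card := by
        refine card_le_card_of_injOn (fun Q => ∑ a ∈ Q, a) ?_ ?_
        · intro Q hQ
          obtain ⟨⟨h1, h2⟩, h3, h4⟩ := mem_fam.1 (mem_coe.1 hQ)
          obtain ⟨a, rfl⟩ := card_eq_one.1 h2
          simp only [sum_singleton] at h3 h4 ⊢
          rw [mem_coe, hX, mem_filter]
          exact ⟨h1 (mem_singleton_self a), h3, h4⟩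
        · intro Q hQ Q' hQ' hQQ
          obtain ⟨⟨_, h2⟩, _⟩ := mem_fam.1 (mem_coe.1 hQ)
          obtain ⟨⟨_, h2'⟩, _⟩ := mem_fam.1 (mem_coe.1 hQ')
          obtain ⟨a, rfl⟩ := card_eq_one.1 h2
          obtain ⟨b, rfl⟩ := card_eq_one.1 h2'
          simp only [sum_singleton] at hQQ
          rw [hQQ]
      have h2 : thr k 1 = 8 * k + 1 := rfl
      omega
    have hm := matching 2 X.card (by norm_num) (by omega) (2 * k) (powersetCard 2 X)
      (fun Q hQ => (mem_powersetCard.1 hQ).2) (by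
        intro x
        have : ((powersetCard 2 X).filter fun Q => x ∈ Q).card ≤ X.card := by
          refine card_le_card_of_injOn (fun Q => ∑ a ∈ Q.erase x, a) ?_ ?_
          · intro Q hQ
            rw [mem_coe, mem_filter, mem_powersetCard] at hQ
            obtain ⟨⟨h1, h2⟩, h3⟩ := hQ
            have h4 : (Q.erase x).card = 1 := by rw [card_erase_of_mem h3, h2]
            obtain ⟨b, hb⟩ := card_eq_one.1 h4
            simp only [hb, sum_singleton]
            rw [mem_coe]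
            exact h1 (erase_subset _ _ (hb ▸ mem_singleton_self b))
          · intro Q hQ Q' hQ' hQQ
            rw [mem_coe, mem_filter, mem_powersetCard] at hQ hQ'
            obtain ⟨⟨h1, h2⟩, h3⟩ := hQ
            obtain ⟨⟨h1', h2'⟩, h3'⟩ := hQ'
            have h4 : (Q.erase x).card = 1 := by rw [card_erase_of_mem h3, h2]
            have h4' : (Q'.erase x).card = 1 := by rw [card_erase_of_mem h3', h2']
            obtain ⟨b, hb⟩ := card_eq_one.1 h4
            obtain ⟨b', hb'⟩ := card_eq_one.1 h4'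
            simp only [hb, hb', sum_singleton] at hQQ
            rw [← insert_erase h3, ← insert_erase h3', hb, hb', hQQ]
        exact this) (by
        rw [card_powersetCard, Nat.choose_two_right]
        rw [Nat.le_div_iff_mul_le (by norm_num)]
        have e : 8 * k ≤ X.card - 1 := by omega
        calc 2 * k * (2 * X.card) * 2 = X.card * (8 * k) := by ring
          _ ≤ X.card * (X.card - 1) := Nat.mul_le_mul_left _ e)
    obtain ⟨P, hP1, hP2, hP3⟩ := hm
    refine ⟨2, 2 * v, P, le_rfl, hh, hP2, ?_, hP3⟩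
    intro Q hQ
    obtain ⟨h1, h2⟩ := mem_powersetCard.1 (hP1 hQ)
    have hb : ∀ a ∈ Q, v ≤ a ∧ a ≤ v + W := fun a ha => by
      have := (mem_filter.1 (h1 ha)).2
      exact ⟨this.1, this.2.le⟩
    refine ⟨h1.trans (filter_subset _ _), h2, ?_, ?_⟩
    · calc 2 * v = ∑ a ∈ Q, v := by rw [sum_const, h2, smul_eq_mul]
        _ ≤ ∑ a ∈ Q, a := sum_le_sum fun a ha => (hb a ha).1
    · calc ∑ a ∈ Q, a ≤ ∑ a ∈ Q, (v + W) := sum_le_sum fun a ha => (hb a ha).2
        _ = 2 * (v + W) := by rw [sum_const, h2, smul_eq_mul]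
        _ = 2 * v + 2 * W := by ring
  · -- a matching
    obtain ⟨i, hi⟩ : ∃ i, j = i + 2 := ⟨j - 2, by omega⟩
    have hthr : thr k j = 2 * k * (j * thr k (j - 1)) := by
      rw [hi]
      rfl
    have hdeg : ∀ x, ((fam S j v W).filter fun Q => x ∈ Q).card ≤ thr k (j - 1) := by
      intro x
      have h1 : ((fam S j v W).filter fun Q => x ∈ Q).card ≤ (fam S (j - 1) (v - x) W).card := by
        refine card_le_card_of_injOn (fun Q => Q.erase x) ?_ ?_
        · intro Q hQ
          rw [mem_coe, mem_filter] at hQ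
          obtain ⟨hQ, hx⟩ := hQ
          obtain ⟨⟨h1, h2⟩, h3, h4⟩ := mem_fam.1 hQ
          have h5 : x + ∑ a ∈ Q.erase x, a = ∑ a ∈ Q, a := add_sum_erase Q (fun a => a) hx
          rw [mem_coe, mem_fam]
          refine ⟨⟨(erase_subset _ _).trans h1, by rw [card_erase_of_mem hx, h2]⟩, ?_, ?_⟩
          · show v - x ≤ ∑ a ∈ Q.erase x, a
            omega
          · show ∑ a ∈ Q.erase x, a < v - x + W
            omega
        · intro Q hQ Q' hQ' hQQ
          rw [mem_coe, mem_filter] at hQ hQ'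
          simp only at hQQ
          rw [← insert_erase hQ.2, ← insert_erase hQ'.2, hQQ]
      exact h1.trans (hmin (j - 1) (by omega) (by omega) _).le
    obtain ⟨P, hP1, hP2, hP3⟩ := matching j (thr k (j - 1)) hj1 (thr_pos k hk _) (2 * k)
      (fam S j v W) (fun Q hQ => (mem_fam.1 hQ).1.2) hdeg (by rw [← hthr]; exact hv)
    refine ⟨j, v, P, hge, hjh, hP2, ?_, hP3⟩
    intro Q hQ
    obtain ⟨⟨h1, h2⟩, h3, h4⟩ := mem_fam.1 (hP1 hQ)
    exact ⟨h1, h2, h3, by omega⟩

/-- pigeonhole -/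
theorem exists_window (S : Finset ℕ) (h N W R : ℕ) (hW : 1 ≤ W) (hSN : ∀ a ∈ S, a ≤ N)
    (hR : h.factorial * R * (h * N / W + 1) ≤ (S.card + 1 - h) ^ h) :
    ∃ v, R ≤ (fam S h v W).card := by
  classical
  have h1 : (S.card + 1 - h) ^ h ≤ h.factorial * S.card.choose h := by
    rw [← Nat.descFactorial_eq_factorial_mul_choose]
    exact Nat.pow_sub_le_descFactorial S.card h
  have h2 : R * (h * N / W + 1) ≤ S.card.choose h := by
    have h3 : h.factorial * (R * (h * N / W + 1)) ≤ h.factorial * S.card.choose h := by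
      rw [← mul_assoc]
      exact hR.trans h1
    exact Nat.le_of_mul_le_mul_left h3 (Nat.factorial_pos h)
  have hmaps : ∀ Q ∈ powersetCard h S, (∑ a ∈ Q, a) / W ∈ range (h * N / W + 1) := by
    intro Q hQ
    obtain ⟨h3, h4⟩ := mem_powersetCard.1 hQ
    rw [mem_range, Nat.lt_succ_iff]
    refine Nat.div_le_div_right ?_
    calc ∑ a ∈ Q, a ≤ ∑ a ∈ Q, N := sum_le_sum fun a ha => hSN a (h3 ha)
      _ = h * N := by rw [sum_const, h4, smul_eq_mul]
  obtain ⟨y, _, hy⟩ := exists_le_card_fiber_of_mul_le_card_of_maps_to (n := R) hmaps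
    ⟨0, mem_range.2 (Nat.succ_pos _)⟩ (by
      rw [card_range, card_powersetCard, mul_comm]
      exact h2)
  refine ⟨y * W, hy.trans (card_le_card ?_)⟩
  intro Q hQ
  rw [mem_filter] at hQ
  obtain ⟨h3, h4⟩ := hQ
  rw [mem_fam]
  refine ⟨mem_powersetCard.1 h3, ?_, ?_⟩
  · rw [← h4]
    exact Nat.div_mul_le_self _ _
  · have := Nat.lt_div_mul_add (a := ∑ a ∈ Q, a) (b := W) (by omega)
    rw [h4] at this
    exact this

end Pool.Agent.U204.PT
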