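import Pool.Agent.U204.PT.Pattern

/-!
# The greedy choice of the elements in a block
-/

set_option autoImplicit false

open Finset

namespace Pool.Agent.U204.PT

open Pool.Agent.U204.RF (R Mu mem_Mu)

/-- the sums of at most `j` elements of `F` -/
def ss (F : Finset ℕ) : ℕ → Finset ℕ
  | 0 => {0}
  | j + 1 => (insert 0 F ×ˢ ss F j).image fun p => p.1 + p.2

theorem card_ss (F : Finset ℕ) : ∀ j, (ss F j).card ≤ (F.card + 1) ^ j
  | 0 => by simp [ss]
  | j + 1 => by
    have h1 : (ss F (j + 1)).card ≤ (insert 0 F ×ˢ ss F j).card := card_image_le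
    rw [card_product] at h1
    calc (ss F (j + 1)).card ≤ (insert 0 F).card * (ss F j).card := h1
      _ ≤ (F.card + 1) * (F.card + 1) ^ j := Nat.mul_le_mul (card_insert_le _ _) (card_ss F j)
      _ = (F.card + 1) ^ (j + 1) := by ring

theorem add_mem_ss {F : Finset ℕ} {j a σ : ℕ} (ha : a ∈ F) (hσ : σ ∈ ss F j) :
    a + σ ∈ ss F (j + 1) :=
  mem_image.2 ⟨(a, σ), mem_product.2 ⟨mem_insert_of_mem ha, hσ⟩, rfl⟩

theorem ss_succ {F : Finset ℕ} {j σ : ℕ} (hσ : σ ∈ ss F j) : σ ∈ ss F (j + 1) :=
  mem_image.2 ⟨(0, σ), mem_product.2 ⟨mem_insert_self _ _, hσ⟩, zero_add _⟩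

theorem ss_mono {F : Finset ℕ} {i j σ : ℕ} (hij : i ≤ j) (hσ : σ ∈ ss F i) : σ ∈ ss F j := by
  induction hij with
  | refl => exact hσ
  | step _ ih => exact ss_succ ih

theorem ss_le {F : Finset ℕ} {B : ℕ} (hB : ∀ a ∈ F, a ≤ B) : ∀ (j σ : ℕ), σ ∈ ss F j → σ ≤ j * B
  | 0, σ, hσ => by
    simp only [ss, mem_singleton] at hσ
    omega
  | j + 1, σ, hσ => by
    obtain ⟨⟨a, τ⟩, h1, rfl⟩ := mem_image.1 hσ
    obtain ⟨h2, h3⟩ := mem_product.1 h1
    have h4 := ss_le hB j τ h3
    have h5 : a ≤ B := by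
      rcases mem_insert.1 h2 with h | h
      · show a ≤ B
        have : a = 0 := h
        omega
      · exact hB a h
    have : (j + 1) * B = B + j * B := by ring
    show a + τ ≤ (j + 1) * B
    omega

/-- `b` participates for `n` -/
def part (g W : ℕ) (F : Finset ℕ) (b n : ℕ) : Prop :=
  ∃ i ≤ g, ∃ σ ∈ ss F g, (i + 1) * b + σ ≤ n ∧ n ≤ (i + 1) * b + σ + W

open Classical in
theorem card_part (g W : ℕ) (F D : Finset ℕ) (n : ℕ) :
    (D.filter fun b => part g W F b n).card ≤ (g + 1) * (F.card + 1) ^ g * (W + 1) := by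
  have hsub : (D.filter fun b => part g W F b n) ⊆
      ((range (g + 1) ×ˢ ss F g) ×ˢ range (W + 1)).image
        fun p => (n - p.1.2 - p.2) / (p.1.1 + 1) := by
    intro b hb
    obtain ⟨_, i, hi, σ, hσ, h1, h2⟩ := mem_filter.1 hb
    refine mem_image.2 ⟨((i, σ), n - ((i + 1) * b + σ)), ?_, ?_⟩
    · rw [mem_product, mem_product, mem_range, mem_range]
      exact ⟨⟨by show i < g + 1; omega, hσ⟩, by show n - ((i + 1) * b + σ) < W + 1; omega⟩
    · show (n - σ - (n - ((i + 1) * b + σ))) / (i + 1) = b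
      have h3 : n - σ - (n - ((i + 1) * b + σ)) = (i + 1) * b := by omega
      rw [h3]
      exact Nat.mul_div_cancel_left b (Nat.succ_pos i)
  calc _ ≤ _ := card_le_card hsub
    _ ≤ _ := card_image_le
    _ = (g + 1) * (ss F g).card * (W + 1) := by
      rw [card_product, card_product, card_range, card_range]
    _ ≤ (g + 1) * (F.card + 1) ^ g * (W + 1) := by
      gcongr
      exact card_ss F g

open Classical in
/-- the number of the elements of the list which participate for `n` -/
noncomputable def un (g W : ℕ) (F : Finset ℕ) (n : ℕ) : List ℕ → ℕ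
  | [] => 0
  | b :: L => un g W F n L + if part g W (F ∪ L.toFinset) b n then 1 else 0

theorem un_eq_zero (g W : ℕ) (F : Finset ℕ) (n lo hi : ℕ) (hF : ∀ a ∈ F, a ≤ hi)
    (hn : n < lo ∨ (2 * g + 1) * hi + W < n) : ∀ L : List ℕ, (∀ b ∈ L, lo ≤ b ∧ b ≤ hi) →
    un g W F n L = 0
  | [], _ => rfl
  | b :: L, hL => by
    have h1 := un_eq_zero g W F n lo hi hF hn L fun b hb => hL b (List.mem_cons_of_mem _ hb)
    have h2 : ¬ part g W (F ∪ L.toFinset) b n := by
      rintro ⟨i, hi', σ, hσ, h3, h4⟩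
      obtain ⟨h5, h6⟩ := hL b List.mem_cons_self
      rcases hn with hn | hn
      · have : b ≤ (i + 1) * b := Nat.le_mul_of_pos_left b (Nat.succ_pos i)
        omega
      · have h7 : σ ≤ g * hi := ss_le (F := F ∪ L.toFinset) (B := hi) (by
          intro a ha
          rcases mem_union.1 ha with ha | ha
          · exact hF a ha
          · exact (hL a (List.mem_cons_of_mem _ (List.mem_toFinset.1 ha))).2) g σ hσ
        have h8 : (i + 1) * b ≤ (g + 1) * hi := Nat.mul_le_mul (by omega) h6
        have h9 : (2 * g + 1) * hi = (g + 1) * hi + g * hi := by ring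
        omega
    simp only [un, h1, if_neg h2]

/-- the greedy choice -/
theorem greedy (g W : ℕ) (F D : Finset ℕ) (X M Q : ℕ) (lam : ℝ) (hlam : 1 ≤ lam)
    (hQ : (g + 1) * (F.card + M) ^ g * (W + 1) ≤ Q) (hD : 2 * lam * Q * M ≤ D.card) :
    ∀ i ≤ M, ∃ L : List ℕ, L.length = i ∧ L.Nodup ∧ (∀ b ∈ L, b ∈ D) ∧
      ∑ n ∈ range X, lam ^ un g W F n L ≤ X * (1 + 1 / (M : ℝ)) ^ i := by
  classical
  intro i
  induction i with
  | zero =>
    intro _
    refine ⟨[], rfl, List.nodup_nil, by simp, ?_⟩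
    simp [un]
  | succ i ih =>
    intro hi
    obtain ⟨L, h1, h2, h3, h4⟩ := ih (by omega)
    have hM : (1 : ℝ) ≤ M := by exact_mod_cast (by omega : 1 ≤ M)
    have hQ1 : (1 : ℝ) ≤ Q := by
      have : 1 ≤ (g + 1) * (F.card + M) ^ g * (W + 1) := by
        have : 0 < F.card + M := by omega
        exact Nat.one_le_iff_ne_zero.2 (by positivity)
      exact_mod_cast this.trans hQ
    set D' := D \ L.toFinset with hD'
    have hLD : L.toFinset ⊆ D := fun b hb => h3 b (List.mem_toFinset.1 hb)
    have hLc : L.toFinset.card = i := by rw [List.toFinset_card_of_nodup h2, h1]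
    have hD'c : (D'.card : ℝ) = D.card - i := by
      rw [hD', card_sdiff_of_subset hLD, hLc, Nat.cast_sub]
      rw [← hLc]
      exact card_le_card hLD
    have hlQ : 1 ≤ lam * Q := by nlinarith
    have hDM : 2 * (M : ℝ) ≤ D.card := by
      calc 2 * (M : ℝ) ≤ 2 * (M : ℝ) * (lam * Q) := by
            nlinarith
        _ = 2 * lam * Q * M := by ring
        _ ≤ _ := hD
    have hi' : (i : ℝ) + 1 ≤ M := by exact_mod_cast hi
    have hD'half : (D.card : ℝ) ≤ 2 * D'.card := by
      rw [hD'c]
      linarith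
    have hD'pos : (0 : ℝ) < D'.card := by linarith
    have hD'ne : D'.Nonempty := by
      rw [← card_pos]
      exact_mod_cast hD'pos
    set Φ := ∑ n ∈ range X, lam ^ un g W F n L with hΦ
    have hΦ0 : 0 ≤ Φ := sum_nonneg fun n _ => by positivity
    have hsum : ∑ b ∈ D', ∑ n ∈ range X, lam ^ un g W F n (b :: L) ≤
        ∑ b ∈ D', Φ * (1 + 1 / (M : ℝ)) := by
      have e1 : ∀ b n, lam ^ un g W F n (b :: L) ≤ lam ^ un g W F n L +
          lam * lam ^ un g W F n L * (if part g W (F ∪ L.toFinset) b n then 1 else 0) := by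
        intro b n
        simp only [un]
        split_ifs with hp
        · rw [pow_succ]
          have : 0 ≤ lam ^ un g W F n L := by positivity
          nlinarith
        · simp
      have e2 : ∑ b ∈ D', ∑ n ∈ range X, lam ^ un g W F n (b :: L) ≤
          D'.card * Φ + lam * (Q * Φ) := by
        calc ∑ b ∈ D', ∑ n ∈ range X, lam ^ un g W F n (b :: L)
            ≤ ∑ b ∈ D', ∑ n ∈ range X, (lam ^ un g W F n L +
              lam * lam ^ un g W F n L * (if part g W (F ∪ L.toFinset) b n then 1 else 0)) :=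
            sum_le_sum fun b _ => sum_le_sum fun n _ => e1 b n
          _ = D'.card * Φ + ∑ b ∈ D', ∑ n ∈ range X,
              lam * lam ^ un g W F n L * (if part g W (F ∪ L.toFinset) b n then 1 else 0) := by
            simp only [sum_add_distrib]
            rw [sum_const, nsmul_eq_mul]
          _ = D'.card * Φ + ∑ n ∈ range X, lam * lam ^ un g W F n L *
              ((D'.filter fun b => part g W (F ∪ L.toFinset) b n).card : ℝ) := by
            rw [sum_comm]
            congr 1
            refine sum_congr rfl fun n _ => ?_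
            rw [← mul_sum, card_filter]
            push_cast
            rfl
          _ ≤ D'.card * Φ + ∑ n ∈ range X, lam * lam ^ un g W F n L * Q := by
            gcongr with n _
            refine (card_part g W (F ∪ L.toFinset) D' n).trans (le_trans ?_ hQ)
            refine Nat.mul_le_mul_right _ (Nat.mul_le_mul_left _ (Nat.pow_le_pow_left ?_ _))
            have := card_union_le F L.toFinset
            omega
          _ = D'.card * Φ + lam * (Q * Φ) := by
            congr 1
            rw [hΦ, mul_sum, mul_sum]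
            exact sum_congr rfl fun n _ => by ring
      refine e2.trans ?_
      rw [sum_const, nsmul_eq_mul]
      have e3 : lam * Q * M ≤ D'.card := by
        have : 2 * (lam * Q * M) ≤ 2 * D'.card := by
          calc 2 * (lam * Q * M) = 2 * lam * Q * M := by ring
            _ ≤ D.card := hD
            _ ≤ _ := hD'half
        linarith
      have e4 : lam * Q ≤ D'.card / M := by
        rw [le_div_iff₀ (by linarith)]
        exact e3
      calc D'.card * Φ + lam * (Q * Φ) = D'.card * Φ + (lam * Q) * Φ := by ring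
        _ ≤ D'.card * Φ + (D'.card / M) * Φ := by gcongr
        _ = D'.card * (Φ * (1 + 1 / M)) := by ring
    obtain ⟨b, hb, hb'⟩ := exists_le_of_sum_le hD'ne hsum
    obtain ⟨hb1, hb2⟩ := mem_sdiff.1 hb
    refine ⟨b :: L, by simp [h1], List.nodup_cons.2 ⟨fun h => hb2 (List.mem_toFinset.2 h), h2⟩,
      ?_, ?_⟩
    · intro a ha
      rcases List.mem_cons.1 ha with rfl | ha
      · exact hb1
      · exact h3 a ha
    · calc ∑ n ∈ range X, lam ^ un g W F n (b :: L) ≤ Φ * (1 + 1 / (M : ℝ)) := hb'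
        _ ≤ X * (1 + 1 / (M : ℝ)) ^ i * (1 + 1 / (M : ℝ)) := by gcongr
        _ = X * (1 + 1 / (M : ℝ)) ^ (i + 1) := by rw [pow_succ]; ring

theorem greedy' (g W : ℕ) (F D : Finset ℕ) (X M Q : ℕ) (lam : ℝ) (hlam : 1 ≤ lam)
    (hQ : (g + 1) * (F.card + M) ^ g * (W + 1) ≤ Q) (hD : 2 * lam * Q * M ≤ D.card) :
    ∃ L : List ℕ, L.length = M ∧ L.Nodup ∧ (∀ b ∈ L, b ∈ D) ∧
      ∀ n < X, lam ^ un g W F n L ≤ 3 * X := by
  obtain ⟨L, h1, h2, h3, h4⟩ := greedy g W F D X M Q lam hlam hQ hD M le_rfl
  refine ⟨L, h1, h2, h3, fun n hn => ?_⟩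
  have h5 : (1 + 1 / (M : ℝ)) ^ M ≤ 3 := by
    rcases Nat.eq_zero_or_pos M with h0 | h0
    · subst h0; norm_num
    · have hM : (0 : ℝ) < M := by exact_mod_cast h0
      calc (1 + 1 / (M : ℝ)) ^ M ≤ (Real.exp (1 / (M : ℝ))) ^ M := by
            gcongr
            have := Real.add_one_le_exp (1 / (M : ℝ))
            linarith
        _ = Real.exp 1 := by
            rw [← Real.exp_nat_mul]
            congr 1
            field_simp
        _ ≤ 3 := by
            have := Real.exp_one_lt_d9
            linarith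
  calc lam ^ un g W F n L ≤ ∑ n ∈ range X, lam ^ un g W F n L :=
        single_le_sum (f := fun n => lam ^ un g W F n L) (fun n _ => by positivity)
          (mem_range.2 hn)
    _ ≤ X * (1 + 1 / (M : ℝ)) ^ M := h4
    _ ≤ X * 3 := by gcongr
    _ = 3 * X := by ring

/-! ### The number of representations -/

theorem approx (F : Finset ℕ) (b V : ℕ) (z : ℕ → ℕ) (hz : ∀ a ∈ insert b F, z a ≤ V)
    (s : Multiset ℕ) : (∀ x ∈ s, x ∈ moved (↑(insert b F) : Set ℕ) z) →
    ∃ i ≤ Multiset.card s, ∃ σ ∈ ss F (Multiset.card s), i * b + σ ≤ s.sum ∧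
      s.sum ≤ i * b + σ + Multiset.card s * V := by
  induction s using Multiset.induction_on with
  | empty =>
    intro _
    exact ⟨0, le_rfl, 0, by simp [ss], by simp, by simp⟩
  | cons x s ih =>
    intro hs
    obtain ⟨i, hi, σ, hσ, h1, h2⟩ := ih fun y hy => hs y (Multiset.mem_cons_of_mem hy)
    obtain ⟨a, ha, hxa⟩ := hs x (Multiset.mem_cons_self x s)
    have ha' : a ∈ insert b F := mem_coe.1 ha
    have hza := hz a ha'
    have hV : (Multiset.card s + 1) * V = Multiset.card s * V + V := by ring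
    simp only [Multiset.card_cons, Multiset.sum_cons, hV]
    rcases mem_insert.1 ha' with hab | haF
    · refine ⟨i + 1, by omega, σ, ss_succ hσ, ?_, ?_⟩
      · have : (i + 1) * b = i * b + b := by ring
        omega
      · have : (i + 1) * b = i * b + b := by ring
        omega
    · refine ⟨i, by omega, a + σ, add_mem_ss haF hσ, ?_, ?_⟩ <;> omega

theorem R_insert (g W V : ℕ) (F : Finset ℕ) (b : ℕ) (z : ℕ → ℕ) (hz : ∀ a ∈ insert b F, z a ≤ V)
    (hW : (g + 1) * V ≤ W) (j : ℕ) (hj : j ≤ g) (K : ℕ)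
    (hK : ∀ n, R (moved (↑(insert b F) : Set ℕ) z) j n ≤ K) (n : ℕ) :
    R (moved (↑(insert b F) : Set ℕ) z) (j + 1) n ≤ R (moved (↑F : Set ℕ) z) (j + 1) n +
      K * (by classical exact if part g W F b n then 1 else 0) := by
  classical
  set A := moved (↑(insert b F) : Set ℕ) z with hA
  set x := b + z b with hx
  have hsplit : Mu A (j + 1) n ⊆ Mu (moved (↑F : Set ℕ) z) (j + 1) n ∪
      (Mu A (j + 1) n).filter fun s => x ∈ s := by
    intro s hs
    by_cases hxs : x ∈ s
    · exact mem_union_right _ (mem_filter.2 ⟨hs, hxs⟩)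
    · refine mem_union_left _ ?_
      rw [mem_Mu] at hs ⊢
      refine ⟨hs.1, fun y hy => ?_, hs.2.2⟩
      obtain ⟨a, ha, hya⟩ := hs.2.1 y hy
      rcases mem_insert.1 (mem_coe.1 ha) with hab | haF
      · exfalso
        rw [hab] at hya
        rw [hya] at hy
        exact hxs hy
      · exact ⟨a, haF, hya⟩
  have hcard : ((Mu A (j + 1) n).filter fun s => x ∈ s).card ≤
      K * (if part g W F b n then 1 else 0) := by
    by_cases hp : part g W F b n
    · rw [if_pos hp, mul_one]
      refine le_trans ?_ (hK (n - x))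
      refine card_le_card_of_injOn (fun s => s.erase x) ?_ ?_
      · intro s hs
        obtain ⟨h1, h2⟩ := mem_filter.1 (mem_coe.1 hs)
        rw [mem_Mu] at h1
        refine mem_coe.2 (mem_Mu.2 ⟨?_, fun y hy => h1.2.1 y (Multiset.mem_of_mem_erase hy), ?_⟩)
        · rw [Multiset.card_erase_of_mem h2, h1.1]
          rfl
        · have h3 := Multiset.sum_erase h2
          rw [h1.2.2] at h3
          show (s.erase x).sum = n - x
          omega
      · intro s hs t ht hst
        obtain ⟨_, h2⟩ := mem_filter.1 (mem_coe.1 hs)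
        obtain ⟨_, h2'⟩ := mem_filter.1 (mem_coe.1 ht)
        simp only at hst
        rw [← Multiset.cons_erase h2, ← Multiset.cons_erase h2', hst]
    · rw [if_neg hp, mul_zero, Nat.le_zero, card_eq_zero, filter_eq_empty_iff]
      intro s hs hxs
      refine hp ?_
      rw [mem_Mu] at hs
      obtain ⟨t, ht⟩ := Multiset.exists_cons_of_mem hxs
      have ht1 : Multiset.card t = j := by
        have := hs.1
        rw [ht, Multiset.card_cons] at this
        omega
      obtain ⟨i, hi, σ, hσ, h1, h2⟩ := approx F b V z hz t fun y hy => hs.2.1 y (by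
        rw [ht]; exact Multiset.mem_cons_of_mem hy)
      have hsum : x + t.sum = n := by
        have := hs.2.2
        rw [ht, Multiset.sum_cons] at this
        exact this
      rw [ht1] at hi hσ h2
      have hzb := hz b (mem_insert_self b F)
      have h3 : (j + 1) * V ≤ (g + 1) * V := Nat.mul_le_mul_right _ (by omega)
      have h4 : (j + 1) * V = j * V + V := by ring
      have h5 : (i + 1) * b = i * b + b := by ring
      exact ⟨i, by omega, σ, ss_mono hj hσ, by omega, by omega⟩
  calc R A (j + 1) n = (Mu A (j + 1) n).card := rfl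
    _ ≤ _ := card_le_card hsplit
    _ ≤ _ := card_union_le _ _
    _ ≤ _ := add_le_add (le_of_eq rfl) hcard

theorem moved_mono {A B : Set ℕ} (h : A ⊆ B) (z : ℕ → ℕ) : moved A z ⊆ moved B z := by
  rintro x ⟨a, ha, hx⟩
  exact ⟨a, h ha, hx⟩

theorem R_mono {A B : Set ℕ} (h : A ⊆ B) (j n : ℕ) : R A j n ≤ R B j n := by
  refine card_le_card fun s hs => ?_
  rw [mem_Mu] at hs ⊢
  exact ⟨hs.1, fun a ha => h (hs.2.1 a ha), hs.2.2⟩

theorem R_list (g W V : ℕ) (F : Finset ℕ) (z : ℕ → ℕ) (hW : (g + 1) * V ≤ W) (j : ℕ) (hj : j ≤ g)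
    (K : ℕ) (n : ℕ) : ∀ L : List ℕ, (∀ a ∈ F ∪ L.toFinset, z a ≤ V) →
    (∀ n, R (moved (↑(F ∪ L.toFinset) : Set ℕ) z) j n ≤ K) →
    R (moved (↑(F ∪ L.toFinset) : Set ℕ) z) (j + 1) n ≤ R (moved (↑F : Set ℕ) z) (j + 1) n +
      K * un g W F n L
  | [], _, _ => by simp [un]
  | b :: L, hz, hK => by
    classical
    have e : F ∪ (b :: L).toFinset = insert b (F ∪ L.toFinset) := by
      rw [List.toFinset_cons, union_insert]
    rw [e] at hz hK ⊢
    have hsub : (↑(F ∪ L.toFinset) : Set ℕ) ⊆ (↑(insert b (F ∪ L.toFinset)) : Set ℕ) :=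
      coe_subset.2 (subset_insert _ _)
    have h1 := R_list g W V F z hW j hj K n L (fun a ha => hz a (mem_insert_of_mem ha))
      fun m => (R_mono (moved_mono hsub z) j m).trans (hK m)
    have h2 := R_insert g W V (F ∪ L.toFinset) b z hz hW j hj K hK n
    have h3 : K * un g W F n (b :: L) = K * un g W F n L +
        K * (if part g W (F ∪ L.toFinset) b n then 1 else 0) := by
      simp only [un]
      ring
    omega

end Pool.Agent.U204.PT
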