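import Pool.Agent.U204.PT.Sharp

/-!
# The greedy choice for two orders at the same time
-/

set_option autoImplicit false

open Finset

namespace Pool.Agent.U204.PT

open Pool.Agent.U204.RF (R Mu mem_Mu)

open Classical in
/-- the number of the elements of the list with the property `P` -/
noncomputable def unP (P : Finset ℕ → ℕ → Prop) (F : Finset ℕ) : List ℕ → ℕ
  | [] => 0
  | b :: L => unP P F L + if P (F ∪ L.toFinset) b then 1 else 0

theorem un_eq_unP (g W : ℕ) (F : Finset ℕ) (n : ℕ) : ∀ L : List ℕ,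
    un g W F n L = unP (fun G b => part g W G b n) F L
  | [] => rfl
  | b :: L => by
    simp only [un, unP, un_eq_unP g W F n L]

open Classical in
theorem greedyG {ι : Type} (I : Finset ι) (P : ι → Finset ℕ → ℕ → Prop) (F D : Finset ℕ) (M : ℕ)
    (Q lam : ι → ℝ) (hlam : ∀ i, 1 ≤ lam i)
    (hQ : ∀ i ∈ I, ∀ G : Finset ℕ, G.card + 1 ≤ F.card + M → ∀ D' ⊆ D,
      ((D'.filter fun b => P i G b).card : ℝ) ≤ Q i)
    (hD : ∀ i ∈ I, 2 * lam i * Q i * M ≤ D.card) (hDM : 2 * M ≤ D.card) :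
    ∀ j ≤ M, ∃ L : List ℕ, L.length = j ∧ L.Nodup ∧ (∀ b ∈ L, b ∈ D) ∧
      ∑ i ∈ I, lam i ^ unP (P i) F L ≤ I.card * (1 + 1 / (M : ℝ)) ^ j := by
  intro j
  induction j with
  | zero =>
    intro _
    refine ⟨[], rfl, List.nodup_nil, by simp, ?_⟩
    simp [unP]
  | succ j ih =>
    intro hj
    obtain ⟨L, h1, h2, h3, h4⟩ := ih (by omega)
    have hM : (1 : ℝ) ≤ M := by exact_mod_cast (by omega : 1 ≤ M)
    set D' := D \ L.toFinset with hD'
    have hLD : L.toFinset ⊆ D := fun b hb => h3 b (List.mem_toFinset.1 hb)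
    have hLc : L.toFinset.card = j := by rw [List.toFinset_card_of_nodup h2, h1]
    have hD'c : D'.card = D.card - j := by
      rw [hD', card_sdiff_of_subset hLD, hLc]
    have hD'half : D.card ≤ 2 * D'.card := by omega
    have hD'pos : 0 < D'.card := by omega
    have hD'half' : (D.card : ℝ) ≤ 2 * D'.card := by exact_mod_cast hD'half
    have hD'ne : D'.Nonempty := card_pos.1 hD'pos
    set Φ := ∑ i ∈ I, lam i ^ unP (P i) F L with hΦ
    have hsum : ∑ b ∈ D', ∑ i ∈ I, lam i ^ unP (P i) F (b :: L) ≤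
        ∑ b ∈ D', Φ * (1 + 1 / (M : ℝ)) := by
      have e1 : ∀ b i, lam i ^ unP (P i) F (b :: L) ≤ lam i ^ unP (P i) F L +
          lam i * lam i ^ unP (P i) F L * (if P i (F ∪ L.toFinset) b then 1 else 0) := by
        intro b i
        have hl := hlam i
        have h0 : 0 ≤ lam i ^ unP (P i) F L := by positivity
        simp only [unP]
        split_ifs with hp
        · rw [pow_succ]
          nlinarith
        · simp
      have e3 : ∀ i ∈ I, lam i * lam i ^ unP (P i) F L *
          ((D'.filter fun b => P i (F ∪ L.toFinset) b).card : ℝ) ≤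
          D'.card / M * lam i ^ unP (P i) F L := by
        intro i hi
        have hl := hlam i
        have h0 : 0 ≤ lam i ^ unP (P i) F L := by positivity
        have h5 : ((D'.filter fun b => P i (F ∪ L.toFinset) b).card : ℝ) ≤ Q i := by
          refine hQ i hi (F ∪ L.toFinset) ?_ D' sdiff_subset
          have := card_union_le F L.toFinset
          omega
        have h6 : lam i * Q i ≤ D'.card / M := by
          rw [le_div_iff₀ (by linarith)]
          have := hD i hi
          have h7 : 2 * (lam i * Q i * M) ≤ 2 * D'.card := by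
            calc 2 * (lam i * Q i * M) = 2 * lam i * Q i * M := by ring
              _ ≤ D.card := this
              _ ≤ _ := hD'half'
          linarith
        calc lam i * lam i ^ unP (P i) F L *
            ((D'.filter fun b => P i (F ∪ L.toFinset) b).card : ℝ)
            ≤ lam i * lam i ^ unP (P i) F L * Q i := by gcongr
          _ = (lam i * Q i) * lam i ^ unP (P i) F L := by ring
          _ ≤ _ := by gcongr
      calc ∑ b ∈ D', ∑ i ∈ I, lam i ^ unP (P i) F (b :: L)
          ≤ ∑ b ∈ D', ∑ i ∈ I, (lam i ^ unP (P i) F L +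
            lam i * lam i ^ unP (P i) F L * (if P i (F ∪ L.toFinset) b then 1 else 0)) :=
          sum_le_sum fun b _ => sum_le_sum fun i _ => e1 b i
        _ = D'.card * Φ + ∑ b ∈ D', ∑ i ∈ I,
            lam i * lam i ^ unP (P i) F L * (if P i (F ∪ L.toFinset) b then 1 else 0) := by
          simp only [sum_add_distrib]
          rw [sum_const, nsmul_eq_mul]
        _ = D'.card * Φ + ∑ i ∈ I, lam i * lam i ^ unP (P i) F L *
            ((D'.filter fun b => P i (F ∪ L.toFinset) b).card : ℝ) := by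
          rw [sum_comm]
          congr 1
          refine sum_congr rfl fun i _ => ?_
          rw [← mul_sum, card_filter]
          push_cast
          rfl
        _ ≤ D'.card * Φ + ∑ i ∈ I, D'.card / M * lam i ^ unP (P i) F L := by
          exact add_le_add le_rfl (sum_le_sum fun i hi => e3 i hi)
        _ = ∑ b ∈ D', Φ * (1 + 1 / (M : ℝ)) := by
          rw [← mul_sum, ← hΦ, sum_const, nsmul_eq_mul]
          ring
    obtain ⟨b, hb, hb'⟩ := exists_le_of_sum_le hD'ne hsum
    obtain ⟨hb1, hb2⟩ := mem_sdiff.1 hb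
    refine ⟨b :: L, by simp [h1], List.nodup_cons.2 ⟨fun h => hb2 (List.mem_toFinset.2 h), h2⟩,
      ?_, ?_⟩
    · intro a ha
      rcases List.mem_cons.1 ha with rfl | ha
      · exact hb1
      · exact h3 a ha
    · calc ∑ i ∈ I, lam i ^ unP (P i) F (b :: L) ≤ Φ * (1 + 1 / (M : ℝ)) := hb'
        _ ≤ I.card * (1 + 1 / (M : ℝ)) ^ j * (1 + 1 / (M : ℝ)) := by gcongr
        _ = I.card * (1 + 1 / (M : ℝ)) ^ (j + 1) := by rw [pow_succ]; ring

theorem pow_le_three (M : ℕ) : (1 + 1 / (M : ℝ)) ^ M ≤ 3 := by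
  rcases Nat.eq_zero_or_pos M with h0 | h0
  · subst h0; norm_num
  · have hM : (0 : ℝ) < M := by exact_mod_cast h0
    calc (1 + 1 / (M : ℝ)) ^ M ≤ (Real.exp (1 / (M : ℝ))) ^ M := by
          gcongr
          have := Real.add_one_le_exp (1 / (M : ℝ))
          linarith
      _ = Real.exp 1 := by
          rw [← Real.exp_nat_mul]
          congr 1
          field_simp
      _ ≤ 3 := by
          have := Real.exp_one_lt_d9
          linarith

/-- two orders at the same time -/
theorem greedy2 (p W : ℕ) (F D : Finset ℕ) (X M : ℕ) (lam₀ lam₁ : ℝ) (hlam₀ : 1 ≤ lam₀)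
    (hlam₁ : 1 ≤ lam₁)
    (hD₀ : 2 * lam₀ * ((p + 1) * (F.card + M) ^ p * (W + 1) : ℕ) * M ≤ D.card)
    (hD₁ : 2 * lam₁ * ((p + 2) * (F.card + M) ^ (p + 1) * (W + 1) : ℕ) * M ≤ D.card) :
    ∃ L : List ℕ, L.length = M ∧ L.Nodup ∧ (∀ b ∈ L, b ∈ D) ∧
      ∀ n < X, lam₀ ^ un p W F n L ≤ 6 * X ∧ lam₁ ^ un (p + 1) W F n L ≤ 6 * X := by
  classical
  rcases Nat.eq_zero_or_pos M with hM0 | hM0
  · refine ⟨[], hM0.symm, List.nodup_nil, by simp, fun n hn => ?_⟩
    have h1 : (1 : ℝ) ≤ X := by exact_mod_cast (by omega : 1 ≤ X)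
    simp only [un, pow_zero]
    constructor <;> linarith
  have hM1 : (1 : ℝ) ≤ M := by exact_mod_cast hM0
  have hDM : 2 * M ≤ D.card := by
    have h1 : (1 : ℝ) ≤ ((p + 1) * (F.card + M) ^ p * (W + 1) : ℕ) := by
      have : 1 ≤ (p + 1) * (F.card + M) ^ p * (W + 1) := by
        have : 0 < F.card + M := by omega
        exact Nat.one_le_iff_ne_zero.2 (by positivity)
      exact_mod_cast this
    have h2 : (2 * M : ℝ) ≤ D.card := by
      refine le_trans ?_ hD₀
      have h3 : (1 : ℝ) ≤ lam₀ * ((p + 1) * (F.card + M) ^ p * (W + 1) : ℕ) := by nlinarith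
      calc (2 * M : ℝ) = 2 * 1 * M := by ring
        _ ≤ 2 * (lam₀ * ((p + 1) * (F.card + M) ^ p * (W + 1) : ℕ)) * M := by gcongr
        _ = _ := by ring
    exact_mod_cast h2
  set P : (ℕ ⊕ ℕ) → Finset ℕ → ℕ → Prop := fun i G b =>
    match i with
    | Sum.inl n => part p W G b n
    | Sum.inr n => part (p + 1) W G b n with hP
  set Q : (ℕ ⊕ ℕ) → ℝ := fun i =>
    match i with
    | Sum.inl _ => ((p + 1) * (F.card + M) ^ p * (W + 1) : ℕ)
    | Sum.inr _ => ((p + 2) * (F.card + M) ^ (p + 1) * (W + 1) : ℕ) with hQ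
  set lam : (ℕ ⊕ ℕ) → ℝ := fun i =>
    match i with
    | Sum.inl _ => lam₀
    | Sum.inr _ => lam₁ with hlam
  have hlam1 : ∀ i, 1 ≤ lam i := by
    rintro (n | n)
    · exact hlam₀
    · exact hlam₁
  set I : Finset (ℕ ⊕ ℕ) := (range X).disjSum (range X) with hI
  obtain ⟨L, h1, h2, h3, h4⟩ := greedyG I P F D M Q lam hlam1 (by
      rintro (n | n) _ G hG D' _
      · have h5 : (D'.filter fun b => part p W G b n).card ≤
            (p + 1) * (F.card + M) ^ p * (W + 1) :=
          (card_part p W G D' n).trans (Nat.mul_le_mul_right _ (Nat.mul_le_mul_left _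
            (Nat.pow_le_pow_left hG _)))
        exact (Nat.cast_le (α := ℝ)).2 h5
      · have h5 : (D'.filter fun b => part (p + 1) W G b n).card ≤
            (p + 2) * (F.card + M) ^ (p + 1) * (W + 1) :=
          (card_part (p + 1) W G D' n).trans (Nat.mul_le_mul_right _ (Nat.mul_le_mul_left _
            (Nat.pow_le_pow_left hG _)))
        exact (Nat.cast_le (α := ℝ)).2 h5) (by
      rintro (n | n) _
      · exact hD₀
      · exact hD₁) hDM M le_rfl
  have hIc : (I.card : ℝ) = 2 * X := by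
    rw [hI, card_disjSum, card_range]
    push_cast
    ring
  have h5 : ∀ i ∈ I, lam i ^ unP (P i) F L ≤ 6 * X := by
    intro i hi
    calc lam i ^ unP (P i) F L ≤ ∑ i ∈ I, lam i ^ unP (P i) F L :=
          single_le_sum (f := fun i => lam i ^ unP (P i) F L)
            (fun i _ => by have := hlam1 i; positivity) hi
      _ ≤ I.card * (1 + 1 / (M : ℝ)) ^ M := h4
      _ ≤ 2 * X * 3 := by
        rw [hIc]
        exact mul_le_mul_of_nonneg_left (pow_le_three M) (by positivity)
      _ = 6 * X := by ring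
  refine ⟨L, h1, h2, h3, fun n hn => ⟨?_, ?_⟩⟩
  · rw [un_eq_unP]
    exact h5 (Sum.inl n) (inl_mem_disjSum.2 (mem_range.2 hn))
  · rw [un_eq_unP]
    exact h5 (Sum.inr n) (inr_mem_disjSum.2 (mem_range.2 hn))

theorem assemble2 (p U : ℕ) (U' V W M : ℕ → ℕ) (hVW : ∀ l, (p + 2) * V l ≤ W l)
    (hW : ∀ l, M l = 0 ∨ W l ≤ 2 ^ l)
    (hex : ∀ (l : ℕ) (F : Finset ℕ), F.card ≤ ∑ i ∈ range l, M i → ∃ L : List ℕ,
      L.length = M l ∧ L.Nodup ∧ (∀ b ∈ L, 2 ^ l ≤ b ∧ b < 2 ^ (l + 1)) ∧
      ∀ n < 8 * (p + 2) * 2 ^ l, un p (W l) F n L ≤ U ∧ un (p + 1) (W l) F n L ≤ U' l) :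
    ∃ A : Set ℕ, (∀ (l N : ℕ), 2 ^ (l + 1) ≤ N → M l ≤ num A N) ∧
      ∀ z : ℕ → ℕ, (∀ a ∈ A, ∀ l, a < 2 ^ (l + 1) → z a ≤ V l) → ∀ n,
        R (moved A z) (p + 2) n ≤ (8 * (p + 2) * U) ^ (p + 1) *
          ∑ l ∈ Icc (Nat.log 2 n + 1 - 8 * (p + 2)) (Nat.log 2 n), U' l := by
  classical
  have key : ∀ (l : ℕ) (F : Finset ℕ), ∃ L : List ℕ, F.card ≤ ∑ i ∈ range l, M i →
      L.length = M l ∧ L.Nodup ∧ (∀ b ∈ L, 2 ^ l ≤ b ∧ b < 2 ^ (l + 1)) ∧
      ∀ n < 8 * (p + 2) * 2 ^ l, un p (W l) F n L ≤ U ∧ un (p + 1) (W l) F n L ≤ U' l := by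
    intro l F
    by_cases h : F.card ≤ ∑ i ∈ range l, M i
    · obtain ⟨L, hL⟩ := hex l F h
      exact ⟨L, fun _ => hL⟩
    · exact ⟨[], fun hc => absurd hc h⟩
  choose Lf hLf using key
  set Fs : ℕ → Finset ℕ := fun l => Nat.rec ∅ (fun l F => F ∪ (Lf l F).toFinset) l with hFs
  have hF0 : Fs 0 = ∅ := rfl
  have hFsucc : ∀ l, Fs (l + 1) = Fs l ∪ (Lf l (Fs l)).toFinset := fun l => rfl
  have hcard : ∀ l, (Fs l).card ≤ ∑ i ∈ range l, M i := by
    intro l
    induction l with
    | zero => rw [hF0]; simp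
    | succ l ih =>
      rw [hFsucc, sum_range_succ]
      refine (card_union_le _ _).trans (Nat.add_le_add ih ?_)
      rw [← (hLf l (Fs l) ih).1]
      exact List.toFinset_card_le _
  have hP := fun l => hLf l (Fs l) (hcard l)
  have hmono : Monotone Fs := monotone_nat_of_le_succ fun l => by
    rw [hFsucc]; exact subset_union_left
  have hlt : ∀ l, ∀ a ∈ Fs l, a < 2 ^ l := by
    intro l
    induction l with
    | zero => intro a ha; rw [hF0] at ha; simp at ha
    | succ l ih =>
      intro a ha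
      rw [hFsucc] at ha
      rcases mem_union.1 ha with ha | ha
      · have := ih a ha
        have h2 : 2 ^ (l + 1) = 2 ^ l + 2 ^ l := by ring
        omega
      · exact ((hP l).2.2.1 a (List.mem_toFinset.1 ha)).2
  set A : Set ℕ := {a | ∃ l, a ∈ Lf l (Fs l)} with hA
  have hAF : ∀ l, ∀ a ∈ A, a < 2 ^ l → a ∈ Fs l := by
    rintro l a ⟨i, hi⟩ hal
    have h1 := ((hP i).2.2.1 a hi).1
    have h2 : i < l := by
      by_contra hc
      have : 2 ^ l ≤ 2 ^ i := Nat.pow_le_pow_right (by norm_num) (by omega)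
      omega
    refine hmono (Nat.succ_le_of_lt h2) ?_
    rw [Nat.succ_eq_add_one, hFsucc]
    exact mem_union_right _ (List.mem_toFinset.2 hi)
  have hFA : ∀ l, ∀ a ∈ Fs l, a ∈ A := by
    intro l
    induction l with
    | zero => intro a ha; rw [hF0] at ha; simp at ha
    | succ l ih =>
      intro a ha
      rw [hFsucc] at ha
      rcases mem_union.1 ha with ha | ha
      · exact ih a ha
      · exact ⟨l, List.mem_toFinset.1 ha⟩
  refine ⟨A, ?_, ?_⟩
  · intro l N hN
    have h1 : (Lf l (Fs l)).toFinset.card = M l := by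
      rw [List.toFinset_card_of_nodup (hP l).2.1, (hP l).1]
    rw [← h1]
    refine card_le_card fun a ha => ?_
    have ha' := List.mem_toFinset.1 ha
    have h2 := (hP l).2.2.1 a ha'
    have h3 : 1 ≤ 2 ^ l := Nat.one_le_two_pow
    rw [mem_filter, mem_Icc]
    exact ⟨⟨by omega, by omega⟩, l, ha'⟩
  · intro z hz
    set K := 8 * (p + 2) * U with hK
    -- the relevant blocks
    have hloc : ∀ (g : ℕ), g ≤ p + 1 → ∀ i n, un g (W i) (Fs i) n (Lf i (Fs i)) ≠ 0 →
        n < 8 * (p + 2) * 2 ^ i ∧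
        i ∈ Icc (Nat.log 2 n + 1 - 8 * (p + 2)) (Nat.log 2 n) := by
      intro g hg i n h0
      have hM : M i ≠ 0 := by
        intro hM
        have : Lf i (Fs i) = [] := List.length_eq_zero_iff.1 ((hP i).1.trans hM)
        rw [this] at h0
        exact h0 rfl
      have hWi := (hW i).resolve_left hM
      have h1 : ¬ (n < 2 ^ i ∨ (2 * g + 1) * 2 ^ (i + 1) + W i < n) := by
        intro hc
        refine h0 (un_eq_zero g (W i) (Fs i) n (2 ^ i) (2 ^ (i + 1)) ?_ hc _ ?_)
        · intro a ha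
          have h2 : 2 ^ (i + 1) = 2 ^ i + 2 ^ i := by ring
          have := hlt i a ha
          omega
        · intro b hb
          have := (hP i).2.2.1 b hb
          exact ⟨this.1, this.2.le⟩
      rw [not_or, not_lt, not_lt] at h1
      obtain ⟨h1, h2⟩ := h1
      have h3 : n < 8 * (p + 2) * 2 ^ i := by
        have h4 : (2 * g + 1) * 2 ^ (i + 1) + 2 ^ i = (4 * g + 3) * 2 ^ i := by ring
        have h5 : (4 * g + 3) * 2 ^ i < 8 * (p + 2) * 2 ^ i :=
          Nat.mul_lt_mul_of_pos_right (by omega) (by positivity)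
        omega
      have h4 : n < 2 ^ (8 * (p + 2) + i) := by
        rw [pow_add]
        refine h3.trans_le (Nat.mul_le_mul_right _ ?_)
        exact Nat.lt_two_pow_self.le
      have h5 : Nat.log 2 n < 8 * (p + 2) + i := Nat.log_lt_of_lt_pow (by
        have : 1 ≤ 2 ^ i := Nat.one_le_two_pow
        omega) h4
      have h6 : i ≤ Nat.log 2 n := Nat.le_log_of_pow_le (by norm_num) h1
      exact ⟨h3, mem_Icc.2 ⟨by omega, h6⟩⟩
    have hsumG : ∀ (g : ℕ) (u : ℕ → ℕ), g ≤ p + 1 →
        (∀ i, ∀ n < 8 * (p + 2) * 2 ^ i, un g (W i) (Fs i) n (Lf i (Fs i)) ≤ u i) → ∀ l n,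
        ∑ i ∈ range l, un g (W i) (Fs i) n (Lf i (Fs i)) ≤
          ∑ i ∈ Icc (Nat.log 2 n + 1 - 8 * (p + 2)) (Nat.log 2 n), u i := by
      intro g u hg hu l n
      calc ∑ i ∈ range l, un g (W i) (Fs i) n (Lf i (Fs i))
          ≤ ∑ i ∈ range l, if i ∈ Icc (Nat.log 2 n + 1 - 8 * (p + 2)) (Nat.log 2 n) then u i
              else 0 := by
            refine sum_le_sum fun i _ => ?_
            by_cases h0 : un g (W i) (Fs i) n (Lf i (Fs i)) = 0
            · rw [h0]; exact Nat.zero_le _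
            · obtain ⟨h1, h2⟩ := hloc g hg i n h0
              rw [if_pos h2]
              exact hu i n h1
        _ = ∑ i ∈ (range l).filter fun i =>
              i ∈ Icc (Nat.log 2 n + 1 - 8 * (p + 2)) (Nat.log 2 n), u i := by rw [sum_filter]
        _ ≤ ∑ i ∈ Icc (Nat.log 2 n + 1 - 8 * (p + 2)) (Nat.log 2 n), u i :=
            sum_le_sum_of_subset fun i hi => (mem_filter.1 hi).2
    have hstepG : ∀ (g j : ℕ), g ≤ p + 1 → j ≤ g → ∀ (Kj : ℕ),
        (∀ l n, R (moved (↑(Fs l) : Set ℕ) z) j n ≤ Kj) → ∀ l n,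
        R (moved (↑(Fs l) : Set ℕ) z) (j + 1) n ≤
          Kj * ∑ i ∈ range l, un g (W i) (Fs i) n (Lf i (Fs i)) := by
      intro g j hg hj Kj hKj l n
      induction l with
      | zero =>
        rw [hF0, R_empty]
        exact Nat.zero_le _
      | succ l ihl =>
        have h1 := R_list g (W l) (V l) (Fs l) z
          ((Nat.mul_le_mul_right _ (by omega)).trans (hVW l)) j hj Kj n (Lf l (Fs l))
          (by
            intro a ha
            rw [← hFsucc] at ha
            exact hz a (hFA (l + 1) a ha) l (hlt (l + 1) a ha))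
          (by
            intro m
            rw [← hFsucc]
            exact hKj (l + 1) m)
        rw [← hFsucc] at h1
        rw [sum_range_succ, mul_add]
        omega
    have hfin : ∀ j ≤ p + 1, ∀ l n, R (moved (↑(Fs l) : Set ℕ) z) j n ≤ K ^ j := by
      intro j
      induction j with
      | zero => intro _ l n; rw [pow_zero]; exact R_zero_le _ _
      | succ j ih =>
        intro hj l n
        have h1 := hstepG p j (by omega) (by omega) (K ^ j) (ih (by omega)) l n
        have h2 := hsumG p (fun _ => U) (by omega) (fun i n hn => ((hP i).2.2.2 n hn).1) l n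
        rw [sum_const, smul_eq_mul, Nat.card_Icc] at h2
        have h3 : (Nat.log 2 n + 1 - (Nat.log 2 n + 1 - 8 * (p + 2))) * U ≤ K :=
          Nat.mul_le_mul_right _ (by omega)
        calc R (moved (↑(Fs l) : Set ℕ) z) (j + 1) n ≤ K ^ j * _ := h1
          _ ≤ K ^ j * K := Nat.mul_le_mul_left _ (h2.trans h3)
          _ = K ^ (j + 1) := (pow_succ K j).symm
    intro n
    have hlast : ∀ l, R (moved (↑(Fs l) : Set ℕ) z) (p + 2) n ≤ K ^ (p + 1) *
        ∑ l ∈ Icc (Nat.log 2 n + 1 - 8 * (p + 2)) (Nat.log 2 n), U' l := by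
      intro l
      exact (hstepG (p + 1) (p + 1) le_rfl le_rfl (K ^ (p + 1)) (hfin (p + 1) le_rfl) l n).trans
        (Nat.mul_le_mul_left _
          (hsumG (p + 1) U' le_rfl (fun i n hn => ((hP i).2.2.2 n hn).2) l n))
    refine le_trans ?_ (hlast (n + 1))
    refine card_le_card fun s hs => ?_
    rw [mem_Mu] at hs ⊢
    refine ⟨hs.1, fun x hx => ?_, hs.2.2⟩
    obtain ⟨a, ha, hxa⟩ := hs.2.1 x hx
    refine ⟨a, ?_, hxa⟩
    have h1 : x ≤ s.sum := Multiset.le_sum_of_mem hx
    have h2 : n + 1 < 2 ^ (n + 1) := Nat.lt_two_pow_self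
    exact mem_coe.2 (hAF (n + 1) a ha (by have := hs.2.2; omega))

end Pool.Agent.U204.PT
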