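import Pool.Agent.U204.PT.Prob

/-!
# Random perturbations of sets with `|A ∩ [1, N]| ≫ N ^ (1 / h)`
-/

set_option autoImplicit false

open Finset Filter MeasureTheory ProbabilityTheory

namespace Pool.Agent.U204.PT

open Pool.Agent.U204.RF (R Mu mem_Mu)

theorem thr_le (k : ℕ) (hk : 1 ≤ k) : ∀ j, thr k (j + 1) ≤ 9 * (j + 1).factorial * 2 ^ (j + 1) * k ^ (j + 1)
  | 0 => by
    show 8 * k + 1 ≤ 9 * 1 * 2 ^ 1 * k ^ 1
    rw [pow_one, pow_one]
    omega
  | j + 1 => by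
    have ih := thr_le k hk j
    calc thr k (j + 1 + 1) = 2 * k * ((j + 2) * thr k (j + 1)) := rfl
      _ ≤ 2 * k * ((j + 2) * (9 * (j + 1).factorial * 2 ^ (j + 1) * k ^ (j + 1))) := by gcongr
      _ = 9 * ((j + 2) * (j + 1).factorial) * 2 ^ (j + 1 + 1) * k ^ (j + 1 + 1) := by ring
      _ = 9 * (j + 1 + 1).factorial * 2 ^ (j + 1 + 1) * k ^ (j + 1 + 1) := by
        rw [Nat.factorial_succ (j + 1)]

/-- the constant in `cst k h ≤ C₀ k ^ h` -/
def C₀ (h : ℕ) : ℕ := 4 * (h.factorial * (9 * h.factorial * 2 ^ h)) * h * 8 ^ h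

theorem cst_le (k h : ℕ) (hk : 1 ≤ k) (hh : 1 ≤ h) : cst k h ≤ C₀ h * k ^ h := by
  obtain ⟨j, rfl⟩ : ∃ j, h = j + 1 := ⟨h - 1, by omega⟩
  have h1 := thr_le k hk j
  unfold cst C₀
  calc 2 * (2 * ((j + 1).factorial * thr k (j + 1)) * (j + 1) * 8 ^ (j + 1))
      ≤ 2 * (2 * ((j + 1).factorial * (9 * (j + 1).factorial * 2 ^ (j + 1) * k ^ (j + 1))) *
        (j + 1) * 8 ^ (j + 1)) := by gcongr
    _ = _ := by ring

theorem low_le (k h : ℕ) (hk : 1 ≤ k) (hh : 1 ≤ h) : low k h ≤ (16 * C₀ h + 32 * h) * k ^ h := by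
  have h1 := cst_le k h hk hh
  have h2 : h.factorial * thr k h ≤ cst k h := by
    unfold cst
    calc h.factorial * thr k h = 1 * (1 * (h.factorial * thr k h) * 1 * 1) := by ring
      _ ≤ 2 * (2 * (h.factorial * thr k h) * h * 8 ^ h) := by
        gcongr <;> first | omega | exact Nat.one_le_pow _ _ (by norm_num)
  have h3 : k ≤ k ^ h := Nat.le_self_pow (by omega) k
  have h4 : 1 ≤ k ^ h := hk.trans h3
  unfold low len
  calc 16 * (h.factorial * thr k h) + 8 * h + 8 * (2 * k * h + h)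
      ≤ 16 * (C₀ h * k ^ h) + 8 * (h * 1) + 8 * (2 * k * h + h * 1) := by
        have := h2.trans h1
        omega
    _ ≤ 16 * (C₀ h * k ^ h) + 8 * (h * k ^ h) + 8 * (2 * k ^ h * h + h * k ^ h) := by gcongr
    _ = (16 * C₀ h + 32 * h) * k ^ h := by ring

theorem len_le (k h : ℕ) (hk : 1 ≤ k) : len k h ≤ 3 * k * h := by
  unfold len
  nlinarith

theorem laws (h : ℕ) (hh : 2 ≤ h) (c : ℝ) (hc : 0 < c) : ∃ C : ℕ, 1 ≤ C ∧ ∀ k : ℕ, 1 ≤ k →
    ∀ A : Set ℕ, (∃ᶠ N : ℕ in atTop, c * (N : ℝ) ^ (1 / (h : ℝ)) ≤ num A N) →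
    ∀ {Ω : Type} [MeasurableSpace Ω] (μ : Measure Ω) [IsProbabilityMeasure μ] (Z : ℕ → Ω → ℕ),
    (∀ i, Measurable (Z i)) → iIndepFun Z μ →
    (∀ z ≤ C * k ^ h, ∀ᶠ a : ℕ in atTop, a ∈ A →
      (a : ℝ) ^ (-(1 / (C * k)) : ℝ) ≤ μ.real {ω | Z a ω = z}) →
    ∀ᵐ ω ∂μ, ∀ n₀ : ℕ, ∃ n ≥ n₀, k ≤ R (moved A fun a => Z a ω) h n := by
  have hh0 : (0 : ℝ) < h := by
    have : 0 < h := by omega
    exact_mod_cast this
  set D := ⌈1 / c ^ h⌉₊ + 1 with hD
  set C := C₀ h * D + 6 * h ^ 2 with hC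
  have hC1 : 1 ≤ C := by
    have : 1 ≤ h ^ 2 := Nat.one_le_pow _ _ (by omega)
    omega
  refine ⟨C, hC1, ?_⟩
  intro k hk A hA Ω _ μ _ Z hZ hind hlaw
  have hk0 : (0 : ℝ) < k := by exact_mod_cast hk
  have hC0 : (0 : ℝ) < C := by exact_mod_cast hC1
  have key := ae_of_scales h hh A (fun _ => (k : ℝ)) μ Z hZ hind ?_
  · filter_upwards [key] with ω hω n₀
    obtain ⟨n, hn, hn'⟩ := hω n₀
    exact ⟨n, hn, by exact_mod_cast hn'⟩
  intro B m₁
  have hall : ∀ᶠ a : ℕ in atTop, ∀ z ∈ range (C * k ^ h + 1), a ∈ A →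
      (a : ℝ) ^ (-(1 / (C * k)) : ℝ) ≤ μ.real {ω | Z a ω = z} :=
    (Finset.eventually_all _).2 fun z hz => hlaw z (by
      have := mem_range.1 hz
      omega)
  obtain ⟨a₀, ha₀⟩ := eventually_atTop.1 hall
  set m₂ := max (max (low k h) m₁) (2 * a₀ + 2) with hm₂
  have ht1 : Tendsto (fun N : ℕ => c * (N : ℝ) ^ (1 / (h : ℝ))) atTop atTop :=
    ((tendsto_rpow_atTop (by positivity)).comp tendsto_natCast_atTop_atTop).const_mul_atTop hc
  have ht2 : Tendsto (fun N : ℕ => c * (N : ℝ) ^ (1 / (2 * (h : ℝ)))) atTop atTop :=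
    ((tendsto_rpow_atTop (by positivity)).comp tendsto_natCast_atTop_atTop).const_mul_atTop hc
  obtain ⟨N, hN1, hN2, hN3, hN4⟩ := (hA.and_eventually ((ht1.eventually_ge_atTop (m₂ : ℝ)).and
    ((ht2.eventually_ge_atTop (B * len k h)).and (eventually_ge_atTop 1)))).exists
  have hNpos : (0 : ℝ) < N := by exact_mod_cast hN4
  have hN1' : (1 : ℝ) ≤ N := by exact_mod_cast hN4
  set m := num A N with hm
  have hm2 : m₂ ≤ m := by exact_mod_cast hN2.trans hN1
  have hdiv : N / m ^ h + 1 ≤ D := by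
    have h1 : ((N / m ^ h : ℕ) : ℝ) ≤ 1 / c ^ h := by
      have h2 : (0 : ℝ) < (m : ℝ) ^ h := by
        have : 0 < m := by omega
        positivity
      have h3 : c ^ h * N ≤ (m : ℝ) ^ h := by
        calc c ^ h * N = (c * (N : ℝ) ^ (1 / (h : ℝ))) ^ h := by
              rw [mul_pow, ← Real.rpow_natCast ((N : ℝ) ^ (1 / (h : ℝ))), ← Real.rpow_mul hNpos.le,
                one_div_mul_cancel hh0.ne', Real.rpow_one]
          _ ≤ (m : ℝ) ^ h := by gcongr
      calc ((N / m ^ h : ℕ) : ℝ) ≤ (N : ℝ) / ((m ^ h : ℕ) : ℝ) := Nat.cast_div_le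
        _ = (N : ℝ) / (m : ℝ) ^ h := by push_cast; rfl
        _ ≤ 1 / c ^ h := by
          rw [div_le_div_iff₀ h2 (by positivity)]
          linarith
    have h4 : N / m ^ h ≤ ⌈1 / c ^ h⌉₊ := by
      exact_mod_cast h1.trans (Nat.le_ceil _)
    omega
  have hcst : cst k h * (N / m ^ h + 1) ≤ C * k ^ h := by
    calc cst k h * (N / m ^ h + 1) ≤ C₀ h * k ^ h * D :=
          Nat.mul_le_mul (cst_le k h hk (by omega)) hdiv
      _ = C₀ h * D * k ^ h := by ring
      _ ≤ C * k ^ h := Nat.mul_le_mul_right _ (by omega)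
  refine ⟨k, N, m, (N : ℝ) ^ (-(1 / (C * k)) : ℝ), hk, ?_, ?_, le_rfl, by positivity, ?_, ?_, ?_, ?_⟩
  · exact ((le_max_left _ _).trans (le_max_left _ _)).trans hm2
  · exact ((le_max_right _ _).trans (le_max_left _ _)).trans hm2
  · exact Real.rpow_le_one_of_one_le_of_nonpos hN1' (by
      rw [Left.neg_nonpos_iff]; positivity)
  · have h1 : (N : ℝ) ^ (-(1 / (2 * (h : ℝ)))) ≤ ((N : ℝ) ^ (-(1 / (C * k)) : ℝ)) ^ len k h := by
      rw [← Real.rpow_natCast, ← Real.rpow_mul hNpos.le]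
      refine Real.rpow_le_rpow_of_exponent_le hN1' ?_
      rw [neg_mul, neg_le_neg_iff, one_div_mul_eq_div, div_le_div_iff₀ (by positivity)
        (by positivity)]
      have h2 : len k h * (2 * h) ≤ C * k := by
        calc len k h * (2 * h) ≤ 3 * k * h * (2 * h) := Nat.mul_le_mul_right _ (len_le k h hk)
          _ = 6 * h ^ 2 * k := by ring
          _ ≤ C * k := Nat.mul_le_mul_right _ (by omega)
      have h3 : (len k h : ℝ) * (2 * h) ≤ C * k := by exact_mod_cast h2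
      linarith
    calc B * len k h ≤ c * (N : ℝ) ^ (1 / (2 * (h : ℝ))) := hN3
      _ = (N : ℝ) ^ (-(1 / (2 * (h : ℝ)))) * (c * (N : ℝ) ^ (1 / (h : ℝ))) := by
        rw [mul_left_comm, ← Real.rpow_add hNpos]
        congr 2
        field_simp
        ring
      _ ≤ _ := by gcongr
  · intro n _ _
    exact le_rfl
  · intro a haA ha1 ha2 z hz
    have h1 : a₀ ≤ a := by
      have := (le_max_right (max (low k h) m₁) (2 * a₀ + 2)).trans hm2
      omega
    refine le_trans ?_ (ha₀ a h1 z (mem_range.2 (by omega)) haA)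
    have h2 : (0 : ℝ) < a := by
      have : 0 < a := by omega
      exact_mod_cast this
    refine Real.rpow_le_rpow_of_nonpos h2 (by exact_mod_cast ha2) (by
      rw [Left.neg_nonpos_iff]; positivity)

/-- asymptotic bases are dense -/
theorem basis_dense (h : ℕ) (hh : 1 ≤ h) (A : Set ℕ)
    (hA : ∃ n₀ : ℕ, ∀ n ≥ n₀, 1 ≤ R A h n) :
    ∃ c : ℝ, 0 < c ∧ ∀ᶠ N : ℕ in atTop, c * (N : ℝ) ^ (1 / (h : ℝ)) ≤ num A N := by
  classical
  obtain ⟨n₀, hn₀⟩ := hA
  have hh0 : (0 : ℝ) < h := by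
    have : 0 < h := by omega
    exact_mod_cast this
  refine ⟨1 / 4, by norm_num, ?_⟩
  filter_upwards [eventually_ge_atTop (2 * n₀ + 4 ^ h + 2)] with N hN
  have h40 : 1 ≤ 4 ^ h := Nat.one_le_pow _ _ (by norm_num)
  -- every `n` in `[n₀, N]` is a sum of `h` elements of `A ∩ [0, N]`
  set S := (range (N + 1)).filter fun a => a ∈ A with hS
  have h1 : N + 1 - n₀ ≤ S.card ^ h := by
    have h2 : Ico n₀ (N + 1) ⊆ (Fintype.piFinset fun _ : Fin h => S).image fun f => ∑ i, f i := by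
      intro n hn
      obtain ⟨hn1, hn2⟩ := mem_Ico.1 hn
      obtain ⟨s, hs⟩ := card_pos.1 (hn₀ n hn1)
      rw [mem_Mu] at hs
      obtain ⟨h3, h4, h5⟩ := hs
      have h6 : s.toList.length = h := by rw [Multiset.length_toList, h3]
      refine mem_image.2 ⟨fun i => s.toList.get (Fin.cast h6.symm i), ?_, ?_⟩
      · rw [Fintype.mem_piFinset]
        intro i
        have h7 : s.toList.get (Fin.cast h6.symm i) ∈ s :=
          Multiset.mem_toList.1 (List.get_mem _ _)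
        have h8 := Multiset.le_sum_of_mem h7
        rw [hS, mem_filter, mem_range]
        exact ⟨by omega, h4 _ h7⟩
      · have h9 : ∑ i : Fin h, s.toList.get (Fin.cast h6.symm i) =
            ∑ i : Fin s.toList.length, s.toList.get i :=
          Fintype.sum_equiv (finCongr h6.symm) _ _ fun i => rfl
        show ∑ i : Fin h, s.toList.get (Fin.cast h6.symm i) = n
        rw [h9, ← List.sum_ofFn, List.ofFn_get, Multiset.sum_toList, h5]
    calc N + 1 - n₀ = (Ico n₀ (N + 1)).card := by rw [Nat.card_Ico]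
      _ ≤ _ := card_le_card h2
      _ ≤ _ := card_image_le
      _ = S.card ^ h := by rw [Fintype.card_piFinset_const]
  have h2 : S.card ≤ num A N + 1 := by
    have h3 : S ⊆ insert 0 ((Icc 1 N).filter fun a => a ∈ A) := by
      intro a ha
      rw [hS, mem_filter, mem_range] at ha
      rw [mem_insert, mem_filter, mem_Icc]
      rcases Nat.eq_zero_or_pos a with h0 | h0
      · exact Or.inl h0
      · exact Or.inr ⟨⟨h0, by omega⟩, ha.2⟩
    have h4 : num A N = ((Icc 1 N).filter fun a => a ∈ A).card := by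
      unfold num
      congr
    rw [h4]
    exact (card_le_card h3).trans (card_insert_le _ _)
  have h3 : (N : ℝ) ≤ (2 * ((num A N : ℝ) + 1)) ^ h := by
    have h4 : N ≤ 2 * S.card ^ h := by omega
    have h5 : 2 * S.card ^ h ≤ (2 * (num A N + 1)) ^ h := by
      rw [mul_pow]
      exact Nat.mul_le_mul (Nat.le_self_pow (by omega) 2) (Nat.pow_le_pow_left h2 h)
    exact_mod_cast h4.trans h5
  have hNpos : (0 : ℝ) < N := by
    have : 0 < N := by omega
    exact_mod_cast this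
  have h4 : (N : ℝ) ^ (1 / (h : ℝ)) ≤ 2 * ((num A N : ℝ) + 1) := by
    calc (N : ℝ) ^ (1 / (h : ℝ)) ≤ ((2 * ((num A N : ℝ) + 1)) ^ h) ^ (1 / (h : ℝ)) := by gcongr
      _ = 2 * ((num A N : ℝ) + 1) := by
        rw [← Real.rpow_natCast, ← Real.rpow_mul (by positivity), mul_one_div_cancel hh0.ne',
          Real.rpow_one]
  have h5 : (4 : ℝ) ≤ (N : ℝ) ^ (1 / (h : ℝ)) := by
    have h6 : ((4 : ℝ) ^ h) ≤ N := by
      have : 4 ^ h ≤ N := by omega
      exact_mod_cast this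
    calc (4 : ℝ) = ((4 : ℝ) ^ h) ^ (1 / (h : ℝ)) := by
          rw [← Real.rpow_natCast, ← Real.rpow_mul (by norm_num), mul_one_div_cancel hh0.ne',
            Real.rpow_one]
      _ ≤ _ := by gcongr
  linarith

end Pool.Agent.U204.PT
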