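import Pool.Agent.U204.PT.Laws

/-!
# Random perturbations: representation functions of size `≫ log n / L(n)`
-/

set_option autoImplicit false

open Finset Filter MeasureTheory ProbabilityTheory Topology

namespace Pool.Agent.U204.PT

open Pool.Agent.U204.RF (R Mu mem_Mu)

theorem iter_sq (L : ℕ → ℝ) (B : ℝ) (hB : 1 ≤ B) (hsq : ∀ᶠ n : ℕ in atTop, L (n ^ 2) ≤ B * L n) :
    ∀ᶠ n : ℕ in atTop, ∀ s : ℕ, L (n ^ 2 ^ s) ≤ B ^ s * L n := by
  obtain ⟨n₁, hn₁⟩ := eventually_atTop.1 hsq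
  filter_upwards [eventually_ge_atTop (max n₁ 1)] with n hn s
  induction s with
  | zero => simp
  | succ s ih =>
    have h1 : n ≤ n ^ 2 ^ s := Nat.le_self_pow (by positivity) n
    have h2 := hn₁ (n ^ 2 ^ s) (((le_max_left _ _).trans hn).trans h1)
    have h3 : n ^ 2 ^ (s + 1) = (n ^ 2 ^ s) ^ 2 := by rw [← pow_mul, ← pow_succ]
    rw [h3, pow_succ]
    calc L ((n ^ 2 ^ s) ^ 2) ≤ B * L (n ^ 2 ^ s) := h2
      _ ≤ B * (B ^ s * L n) := by gcongr
      _ = B ^ s * B * L n := by ring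

theorem lower (h : ℕ) (hh : 2 ≤ h) (L : ℕ → ℝ) (B κ : ℝ) (hB : 1 ≤ B) (hκ : 0 < κ)
    (hmono : Monotone L) (hsq : ∀ᶠ n : ℕ in atTop, L (n ^ 2) ≤ B * L n)
    (hll : ∀ᶠ n : ℕ in atTop, κ * Real.log (Real.log n) ≤ L n)
    (hlit : ∀ ε : ℝ, 0 < ε → ∀ᶠ n : ℕ in atTop, L n ≤ ε * Real.log n) :
    ∃ C₁ : ℝ, 0 < C₁ ∧ ∀ C₂ : ℝ, 1 ≤ C₂ → ∃ c : ℝ, 0 < c ∧
      ∀ A : Set ℕ,
      (∃ᶠ N : ℕ in atTop, (N : ℝ) ^ (1 / (h : ℝ)) * Real.exp (-L N) ≤ num A N) →
      ∀ {Ω : Type} [MeasurableSpace Ω] (μ : Measure Ω) [IsProbabilityMeasure μ] (Z : ℕ → Ω → ℕ),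
      (∀ i, Measurable (Z i)) → iIndepFun Z μ →
      (∀ᶠ a : ℕ in atTop, a ∈ A → ∀ z : ℕ, (z : ℝ) ≤ Real.exp (C₁ * L a) →
        Real.exp (-(C₂ * L a)) ≤ μ.real {ω | Z a ω = z}) →
      ∀ᵐ ω ∂μ, ∀ n₀ : ℕ, ∃ n ≥ n₀,
        c * (Real.log n / L n) ≤ R (moved A fun a => Z a ω) h n := by
  have hh1 : (1 : ℝ) ≤ h := by exact_mod_cast (by omega : 1 ≤ h)
  have hh0 : (0 : ℝ) < h := by linarith
  set B' : ℝ := B ^ (2 * h) with hB'
  have hB'1 : 1 ≤ B' := one_le_pow₀ hB
  set C₁ : ℝ := (h / κ + h + 1) * B' with hC₁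
  refine ⟨C₁, by positivity, ?_⟩
  intro C₂ hC₂
  set c' : ℝ := 1 / (12 * (h : ℝ) ^ 2 * C₂) with hc'
  have hc'0 : 0 < c' := by positivity
  have hc'1 : c' ≤ 1 := by
    rw [hc', div_le_one (by positivity)]
    have : (1 : ℝ) ≤ (h : ℝ) ^ 2 := one_le_pow₀ hh1
    nlinarith
  refine ⟨c' / (4 * B'), by positivity, ?_⟩
  intro A hA Ω _ μ _ Z hZ hind hlaw
  refine ae_of_scales h hh A (fun n => c' / (4 * B') * (Real.log n / L n)) μ Z hZ hind ?_
  intro B₀ m₁
  obtain ⟨n₁, hn₁⟩ := eventually_atTop.1 (iter_sq L B hB hsq)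
  obtain ⟨a₀, ha₀⟩ := eventually_atTop.1 hlaw
  -- comparison of scales
  have hcmp : ∀ N n : ℕ, n₁ ≤ n → (N : ℝ) ≤ (n : ℝ) ^ (2 * h) → L N ≤ B' * L n := by
    intro N n hn hN
    have h1 : N ≤ n ^ (2 * h) := by exact_mod_cast hN
    have h2 : n ^ (2 * h) ≤ n ^ 2 ^ (2 * h) := by
      rcases Nat.eq_zero_or_pos n with h0 | h0
      · rw [h0, zero_pow (by omega), zero_pow (by positivity)]
      · exact Nat.pow_le_pow_right h0 Nat.lt_two_pow_self.le
    exact (hmono (h1.trans h2)).trans (hn₁ n hn (2 * h))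
  -- everything in terms of `log N`
  have hlogt : Tendsto (fun N : ℕ => Real.log N) atTop atTop :=
    Real.tendsto_log_atTop.comp tendsto_natCast_atTop_atTop
  have hLinf : Tendsto L atTop atTop :=
    tendsto_atTop_mono' atTop hll ((Real.tendsto_log_atTop.comp hlogt).const_mul_atTop hκ)
  have hexp : ∀ b : ℝ, 0 < b → Tendsto (fun N : ℕ => Real.exp (b * Real.log N)) atTop atTop :=
    fun b hb => Real.tendsto_exp_atTop.comp (hlogt.const_mul_atTop hb)
  have hpe : ∀ (b : ℝ), 0 < b → ∀ (K : ℝ), 0 < K → ∀ (j : ℕ), ∀ᶠ N : ℕ in atTop,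
      K * Real.log N ^ j ≤ Real.exp (b * Real.log N) := by
    intro b hb K hK j
    have h1 := (isLittleO_pow_exp_pos_mul_atTop (k := j) hb).bound (c := 1 / K) (by positivity)
    filter_upwards [hlogt.eventually h1, hlogt.eventually_ge_atTop 0] with N hN hN0
    rw [Real.norm_of_nonneg (by positivity), Real.norm_of_nonneg (Real.exp_pos _).le,
      one_div, ← div_eq_inv_mul, le_div_iff₀ hK] at hN
    linarith
  have c0 : (0 : ℝ) ≤ C₀ h := Nat.cast_nonneg _
  have E1 := hLinf.eventually_ge_atTop 1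
  have E2 := hlit (1 / (4 * h)) (by positivity)
  have E3 := hlit (c' / 2) (by positivity)
  have E4 : ∀ᶠ N : ℕ in atTop, 2 * (C₀ h : ℝ) ≤ Real.exp (L N) :=
    (Real.tendsto_exp_atTop.comp hLinf).eventually_ge_atTop _
  have E5 := hpe (1 / (2 * h)) (by positivity) (16 * C₀ h + 32 * h + m₁) (by positivity) h
  have E6 := hpe (1 / (2 * h)) (by positivity) (|B₀| * (3 * h) + 1) (by positivity) 1
  have E7 := hpe 1 (by norm_num) (4 * C₀ h + 1) (by positivity) h
  have E8 : ∀ᶠ N : ℕ in atTop, 4 * (h : ℝ) ≤ Real.exp (1 * Real.log N) :=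
    (hexp 1 (by norm_num)).eventually_ge_atTop _
  have E9 : ∀ᶠ N : ℕ in atTop, (3 : ℝ) ≤ Real.exp (1 / (4 * h) * Real.log N) :=
    (hexp _ (by positivity)).eventually_ge_atTop _
  have E10 : ∀ᶠ N : ℕ in atTop, ((n₁ + a₀ : ℕ) : ℝ) ≤ Real.exp (1 / (2 * h) * Real.log N) :=
    (hexp _ (by positivity)).eventually_ge_atTop _
  have E11 := hlogt.eventually_ge_atTop 1
  obtain ⟨N, hN, f1, f2, f3, f4, f5, f6, f7, f8, f9, f10, f11, f12, hN1⟩ := (hA.and_eventually
    (E1.and (E2.and (E3.and (E4.and (E5.and (E6.and (E7.and (E8.and (E9.and (E10.and (E11.and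
      (hll.and (eventually_ge_atTop 1)))))))))))))).exists
  set ℓ := Real.log N with hℓ
  set lam := L N with hlam
  have hNpos : (0 : ℝ) < N := by exact_mod_cast hN1
  have hNexp : (N : ℝ) = Real.exp ℓ := (Real.exp_log hNpos).symm
  set m := num A N with hm
  have hℓ0 : 0 < ℓ := by linarith
  have hm1 : Real.exp (ℓ / h - lam) ≤ m := by
    refine le_trans (le_of_eq ?_) hN
    rw [hNexp, ← Real.exp_mul, ← Real.exp_add]
    congr 1
    ring
  have hm2 : Real.exp (3 * ℓ / (4 * h)) ≤ m := by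
    refine le_trans (Real.exp_le_exp.2 ?_) hm1
    have : 3 * ℓ / (4 * h) = ℓ / h - 1 / (4 * h) * ℓ := by
      field_simp
      ring
    rw [this]
    linarith
  have hm3 : 3 * Real.exp (1 / (2 * h) * ℓ) ≤ m := by
    refine le_trans ?_ hm2
    have : Real.exp (3 * ℓ / (4 * h)) =
        Real.exp (1 / (4 * h) * ℓ) * Real.exp (1 / (2 * h) * ℓ) := by
      rw [← Real.exp_add]
      congr 1
      field_simp
      norm_num
    rw [this]
    gcongr
  have he0 : 1 ≤ Real.exp (1 / (2 * h) * ℓ) := Real.one_le_exp (by positivity)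
  have hmpos : (0 : ℝ) < m := by linarith
  have hNpow : (N : ℝ) = Real.exp (1 / (2 * h) * ℓ) ^ (2 * h) := by
    rw [← Real.exp_nat_mul, hNexp]
    congr 1
    push_cast
    field_simp
  have hcmp' : ∀ n : ℕ, Real.exp (1 / (2 * h) * ℓ) ≤ n → lam ≤ B' * L n ∧ a₀ ≤ n := by
    intro n hn
    have h1 : ((n₁ + a₀ : ℕ) : ℝ) ≤ n := f10.trans hn
    have h2 : n₁ + a₀ ≤ n := by exact_mod_cast h1
    refine ⟨hcmp N n (by omega) ?_, by omega⟩
    calc (N : ℝ) = Real.exp (1 / (2 * h) * ℓ) ^ (2 * h) := hNpow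
      _ ≤ (n : ℝ) ^ (2 * h) := by gcongr
  -- the number of representations
  set k := ⌊c' * (ℓ / lam)⌋₊ with hk
  have hlampos : 0 < lam := by linarith
  have hkx : 2 ≤ c' * (ℓ / lam) := by
    rw [← mul_div_assoc, le_div_iff₀ hlampos]
    linarith
  have hk1 : 1 ≤ k := by
    rw [hk, Nat.one_le_floor_iff]
    linarith
  have hkle : (k : ℝ) ≤ c' * (ℓ / lam) := Nat.floor_le (by positivity)
  have hkge : c' * (ℓ / lam) / 2 ≤ k := by
    have := Nat.lt_floor_add_one (c' * (ℓ / lam))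
    linarith
  have hkℓ : (k : ℝ) ≤ ℓ := by
    refine hkle.trans ?_
    calc c' * (ℓ / lam) ≤ 1 * (ℓ / 1) := by gcongr
      _ = ℓ := by ring
  -- the window
  have hdiv : ((N / m ^ h : ℕ) : ℝ) ≤ Real.exp (h * lam) := by
    calc ((N / m ^ h : ℕ) : ℝ) ≤ (N : ℝ) / ((m ^ h : ℕ) : ℝ) := Nat.cast_div_le
      _ = (N : ℝ) / (m : ℝ) ^ h := by push_cast; rfl
      _ ≤ Real.exp (h * lam) := by
        rw [div_le_iff₀ (by positivity)]
        calc (N : ℝ) = Real.exp (h * lam) * Real.exp (ℓ / h - lam) ^ h := by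
              rw [← Real.exp_nat_mul, ← Real.exp_add, hNexp]
              congr 1
              field_simp
              ring
          _ ≤ Real.exp (h * lam) * (m : ℝ) ^ h := by gcongr
  have hcstk : (cst k h : ℝ) ≤ C₀ h * ℓ ^ h := by
    have h1 : (cst k h : ℝ) ≤ ((C₀ h * k ^ h : ℕ) : ℝ) := by
      exact_mod_cast cst_le k h hk1 (by omega)
    refine h1.trans ?_
    push_cast
    gcongr
  have hwin : ((cst k h * (N / m ^ h + 1) : ℕ) : ℝ) ≤ C₀ h * ℓ ^ h * (2 * Real.exp (h * lam)) := by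
    have h1 : 1 ≤ Real.exp (h * lam) := Real.one_le_exp (by positivity)
    calc ((cst k h * (N / m ^ h + 1) : ℕ) : ℝ) = cst k h * (((N / m ^ h : ℕ) : ℝ) + 1) := by
          push_cast; rfl
      _ ≤ C₀ h * ℓ ^ h * (2 * Real.exp (h * lam)) := by
        gcongr
        linarith
  have hℓexp : ℓ ≤ Real.exp (lam / κ) := by
    calc ℓ = Real.exp (Real.log ℓ) := (Real.exp_log hℓ0).symm
      _ ≤ Real.exp (lam / κ) := by
        refine Real.exp_le_exp.2 ?_
        rw [le_div_iff₀ hκ]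
        linarith
  have hwin2 : ((cst k h * (N / m ^ h + 1) : ℕ) : ℝ) ≤ Real.exp ((h / κ + h + 1) * lam) := by
    refine hwin.trans ?_
    calc C₀ h * ℓ ^ h * (2 * Real.exp (h * lam))
        = (2 * C₀ h) * (ℓ ^ h * Real.exp (h * lam)) := by ring
      _ ≤ Real.exp lam * ((Real.exp (lam / κ)) ^ h * Real.exp (h * lam)) := by gcongr
      _ = Real.exp ((h / κ + h + 1) * lam) := by
        rw [← Real.exp_nat_mul, ← Real.exp_add, ← Real.exp_add]
        congr 1
        field_simp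
        ring
  have hlow : ((low k h + m₁ : ℕ) : ℝ) ≤ m := by
    have h1 : (low k h : ℝ) ≤ (((16 * C₀ h + 32 * h) * k ^ h : ℕ) : ℝ) := by
      exact_mod_cast low_le k h hk1 (by omega)
    have h2 : (1 : ℝ) ≤ ℓ ^ h := one_le_pow₀ f11
    have h3 : (0 : ℝ) ≤ m₁ := Nat.cast_nonneg _
    calc ((low k h + m₁ : ℕ) : ℝ) = (low k h : ℝ) + m₁ := by push_cast; rfl
      _ ≤ (16 * C₀ h + 32 * h) * ℓ ^ h + m₁ * ℓ ^ h := by
        refine add_le_add (h1.trans ?_) (by nlinarith)
        push_cast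
        gcongr
      _ = (16 * C₀ h + 32 * h + m₁) * ℓ ^ h := by ring
      _ ≤ Real.exp (1 / (2 * h) * ℓ) := f5
      _ ≤ m := by linarith
  have hlow' : low k h + m₁ ≤ m := by exact_mod_cast hlow
  refine ⟨k, N, m, Real.exp (-(C₂ * lam)), hk1, by omega, by omega, le_rfl, (Real.exp_pos _).le,
    ?_, ?_, ?_, ?_⟩
  · rw [Real.exp_le_one_iff, Left.neg_nonpos_iff]
    positivity
  · -- the expected number of patterns
    have hlen : (len k h : ℝ) ≤ 3 * k * h := by exact_mod_cast len_le k h hk1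
    have h1 : B₀ * len k h ≤ Real.exp (1 / (2 * h) * ℓ) := by
      have h2 : B₀ * len k h ≤ |B₀| * (3 * ℓ * h) := by
        calc B₀ * len k h ≤ |B₀| * len k h := by
              gcongr
              exact le_abs_self _
          _ ≤ |B₀| * (3 * k * h) := by gcongr
          _ ≤ |B₀| * (3 * ℓ * h) := by gcongr
      refine h2.trans (le_trans ?_ f6)
      rw [pow_one]
      have : |B₀| * (3 * ℓ * h) = |B₀| * (3 * h) * ℓ := by ring
      rw [this]
      have h3 : 0 ≤ |B₀| * (3 * h) := by positivity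
      nlinarith
    have h2 : Real.exp (-(1 / (4 * h) * ℓ)) ≤ Real.exp (-(C₂ * lam)) ^ len k h := by
      rw [← Real.exp_nat_mul]
      refine Real.exp_le_exp.2 ?_
      rw [mul_neg, neg_le_neg_iff]
      calc (len k h : ℝ) * (C₂ * lam) ≤ (3 * k * h) * (C₂ * lam) := by gcongr
        _ ≤ (3 * (c' * (ℓ / lam)) * h) * (C₂ * lam) := by gcongr
        _ = 1 / (4 * h) * ℓ := by
          rw [hc']
          field_simp
          norm_num
    calc B₀ * len k h ≤ Real.exp (1 / (2 * h) * ℓ) := h1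
      _ = Real.exp (-(1 / (4 * h) * ℓ)) * Real.exp (3 * ℓ / (4 * h)) := by
        rw [← Real.exp_add]
        congr 1
        field_simp
        norm_num
      _ ≤ _ := by gcongr
  · -- the size of `n`
    intro n hn1 hn2
    have h1 : (m : ℝ) ≤ 2 * n + 1 := by
      have : m ≤ 2 * n + 1 := by omega
      exact_mod_cast this
    have h2 : Real.exp (1 / (2 * h) * ℓ) ≤ n := by linarith
    have h3 := (hcmp' n h2).1
    have hLn : 0 < L n := by
      by_contra hc
      have : B' * L n ≤ 0 := mul_nonpos_of_nonneg_of_nonpos (by linarith) (not_lt.1 hc)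
      linarith
    have h4 : Real.log n ≤ 2 * ℓ := by
      have h5 : (n : ℝ) ≤ Real.exp (2 * ℓ) := by
        have h6 : (n : ℝ) ≤ ((2 * h * N + cst k h * (N / m ^ h + 1) : ℕ) : ℝ) := by
          exact_mod_cast hn2
        have h7 : ((2 * h * N + cst k h * (N / m ^ h + 1) : ℕ) : ℝ) =
            2 * h * N + ((cst k h * (N / m ^ h + 1) : ℕ) : ℝ) := by
          push_cast; rfl
        rw [h7] at h6
        refine h6.trans ?_
        have h8 : Real.exp (h * lam) ≤ Real.exp (1 * ℓ) := by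
          refine Real.exp_le_exp.2 ?_
          have h9 : (h : ℝ) * lam ≤ h * (1 / (4 * h) * ℓ) := by gcongr
          have h10 : (h : ℝ) * (1 / (4 * h) * ℓ) = ℓ / 4 := by field_simp
          linarith
        have h9 : Real.exp (2 * ℓ) = Real.exp (1 * ℓ) * Real.exp (1 * ℓ) := by
          rw [← Real.exp_add]
          congr 1
          ring
        have h10 : (N : ℝ) = Real.exp (1 * ℓ) := by rw [one_mul]; exact hNexp
        have h11 : 0 < Real.exp (1 * ℓ) := Real.exp_pos _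
        have h12 : (0 : ℝ) ≤ ℓ ^ h := by positivity
        calc 2 * h * N + ((cst k h * (N / m ^ h + 1) : ℕ) : ℝ)
            ≤ 2 * h * Real.exp (1 * ℓ) + C₀ h * ℓ ^ h * (2 * Real.exp (1 * ℓ)) := by
              rw [h10]
              gcongr
              refine hwin.trans ?_
              gcongr
          _ = 1 / 2 * (4 * h) * Real.exp (1 * ℓ) +
              1 / 2 * (4 * C₀ h * ℓ ^ h) * Real.exp (1 * ℓ) := by ring
          _ ≤ 1 / 2 * Real.exp (1 * ℓ) * Real.exp (1 * ℓ) +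
              1 / 2 * Real.exp (1 * ℓ) * Real.exp (1 * ℓ) := by
              gcongr
              nlinarith
          _ = Real.exp (2 * ℓ) := by rw [h9]; ring
      have h6 : (0 : ℝ) < n := by linarith
      calc Real.log n ≤ Real.log (Real.exp (2 * ℓ)) := Real.log_le_log h6 h5
        _ = 2 * ℓ := Real.log_exp _
    show c' / (4 * B') * (Real.log n / L n) ≤ k
    refine le_trans ?_ hkge
    have h5 : 1 / L n ≤ B' / lam := by
      rw [div_le_div_iff₀ hLn hlampos]
      linarith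
    calc c' / (4 * B') * (Real.log n / L n) = c' / (4 * B') * (Real.log n * (1 / L n)) := by
          rw [mul_one_div]
      _ ≤ c' / (4 * B') * (2 * ℓ * (B' / lam)) := by gcongr
      _ = c' * (ℓ / lam) / 2 := by
        field_simp
        norm_num
  · -- the law
    intro a haA ha1 ha2 z hz
    have h1 : (m : ℝ) ≤ 2 * a := by
      have : m ≤ 2 * a := by omega
      exact_mod_cast this
    have h2 : Real.exp (1 / (2 * h) * ℓ) ≤ a := by linarith
    obtain ⟨h3, h4⟩ := hcmp' a h2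
    have h5 := ha₀ a h4 haA z (by
      have h6 : (z : ℝ) ≤ ((cst k h * (N / m ^ h + 1) : ℕ) : ℝ) := by exact_mod_cast hz
      refine h6.trans (hwin2.trans (Real.exp_le_exp.2 ?_))
      calc (h / κ + h + 1) * lam ≤ (h / κ + h + 1) * (B' * L a) := by gcongr
        _ = C₁ * L a := by rw [hC₁]; ring)
    refine le_trans (Real.exp_le_exp.2 ?_) h5
    have h6 : L a ≤ lam := hmono ha2
    have : C₂ * L a ≤ C₂ * lam := by gcongr
    linarith

end Pool.Agent.U204.PT
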