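import Pool.Agent.U204.PT.Upper
import Pool.Agent.U204.PT.Lower

/-!
# The exact order of growth
-/

set_option autoImplicit false

open Finset Filter MeasureTheory ProbabilityTheory Topology

namespace Pool.Agent.U204.PT

open Pool.Agent.U204.RF (R Mu mem_Mu r L mem_L)

theorem r_eq_ncard (A : Set ℕ) (h n : ℕ) :
    {p : Fin h → ℕ | (∀ i, p i ∈ A) ∧ ∑ i, p i = n}.ncard = r A h n := by
  rw [Pool.Agent.U204.RF.r, ← Set.ncard_coe_finset,
    ← Set.ncard_image_of_injective _ (List.ofFn_injective (α := ℕ) (n := h))]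
  congr 1
  ext l
  rw [Set.mem_image, mem_coe, mem_L]
  constructor
  · rintro ⟨p, ⟨h1, h2⟩, rfl⟩
    refine ⟨List.length_ofFn, ?_, ?_⟩
    · intro a ha
      obtain ⟨i, rfl⟩ := (List.mem_ofFn' p a).1 ha
      exact h1 i
    · rw [List.sum_ofFn]
      exact h2
  · rintro ⟨h1, h2, h3⟩
    subst h1
    refine ⟨fun i => l.get i, ⟨fun i => h2 _ (List.get_mem _ _), ?_⟩, List.ofFn_get l⟩
    rw [← List.sum_ofFn, List.ofFn_get]
    exact h3

/-- the hypotheses about the function `L` -/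
structure Reg (L : ℕ → ℝ) : Prop where
  mono : Monotone L
  sq : ∃ B : ℝ, ∀ᶠ n : ℕ in atTop, L (n ^ 2) ≤ B * L n
  loglog : ∃ κ : ℝ, 0 < κ ∧ ∀ᶠ n : ℕ in atTop, κ * Real.log (Real.log n) ≤ L n
  little : ∀ ε : ℝ, 0 < ε → ∀ᶠ n : ℕ in atTop, L n ≤ ε * Real.log n

theorem Reg.tendsto {L : ℕ → ℝ} (hL : Reg L) : Tendsto L atTop atTop := by
  obtain ⟨κ, hκ, h⟩ := hL.loglog
  have hlogt : Tendsto (fun N : ℕ => Real.log N) atTop atTop :=
    Real.tendsto_log_atTop.comp tendsto_natCast_atTop_atTop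
  exact tendsto_atTop_mono' atTop h ((Real.tendsto_log_atTop.comp hlogt).const_mul_atTop hκ)

theorem order_lower (h : ℕ) (hh : 2 ≤ h) (L : ℕ → ℝ) (hL : Reg L) (K : ℝ) :
    ∃ C₁ : ℝ, ∀ C₂ : ℝ, ∃ c : ℝ, 0 < c ∧
      ∀ A : Set ℕ,
      (∃ᶠ N : ℕ in atTop, (N : ℝ) ^ (1 / (h : ℝ)) * Real.exp (-(K * L N)) ≤ num A N) →
      ∀ {Ω : Type} [MeasurableSpace Ω] (μ : Measure Ω) [IsProbabilityMeasure μ] (Z : ℕ → Ω → ℕ),
      (∀ i, Measurable (Z i)) → iIndepFun Z μ →
      (∀ᶠ a : ℕ in atTop, a ∈ A → ∀ z : ℕ, (z : ℝ) ≤ Real.exp (C₁ * L a) →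
        Real.exp (-(C₂ * L a)) ≤ μ.real {ω | Z a ω = z}) →
      ∀ᵐ ω ∂μ, ∀ n₀ : ℕ, ∃ n ≥ n₀,
        c * (Real.log n / L n) ≤ R (moved A fun a => Z a ω) h n := by
  obtain ⟨B, hB⟩ := hL.sq
  obtain ⟨κ, hκ, hκ'⟩ := hL.loglog
  have hLinf := hL.tendsto
  have hL1 := hLinf.eventually_ge_atTop 1
  set K' := max K 1 with hK'
  have hK1 : 1 ≤ K' := le_max_right _ _
  have hK0 : 0 < K' := by linarith
  set B' := max B 1 with hB'
  obtain ⟨C₁, hC₁, hmain⟩ := lower h hh (fun n => K' * L n) B' κ (le_max_right _ _) hκ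
    (fun a b hab => mul_le_mul_of_nonneg_left (hL.mono hab) hK0.le)
    (by
      filter_upwards [hB, hL1] with n h1 h2
      have h3 : B * L n ≤ B' * L n := mul_le_mul_of_nonneg_right (le_max_left _ _) (by linarith)
      calc K' * L (n ^ 2) ≤ K' * (B' * L n) := mul_le_mul_of_nonneg_left (h1.trans h3) hK0.le
        _ = B' * (K' * L n) := by ring)
    (by
      filter_upwards [hκ', hL1] with n h1 h2
      nlinarith)
    (by
      intro ε hε
      filter_upwards [hL.little (ε / K') (by positivity)] with n h1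
      calc K' * L n ≤ K' * (ε / K' * Real.log n) := mul_le_mul_of_nonneg_left h1 hK0.le
        _ = ε * Real.log n := by field_simp)
  refine ⟨C₁ * K', fun C₂ => ?_⟩
  obtain ⟨c, hc, hres⟩ := hmain (max C₂ 1) (le_max_right _ _)
  refine ⟨c / K', by positivity, ?_⟩
  intro A hA Ω _ μ _ Z hZ hind hlaw
  have h1 := hres A (by
      refine (hA.and_eventually (hL1.and (eventually_ge_atTop 1))).mono ?_
      rintro N ⟨h2, h3, h4⟩
      refine le_trans ?_ h2
      refine mul_le_mul_of_nonneg_left (Real.exp_le_exp.2 (neg_le_neg ?_)) (by positivity)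
      exact mul_le_mul_of_nonneg_right (le_max_left _ _) (by linarith)) μ Z hZ hind (by
      filter_upwards [hlaw, hL1] with a h2 h3 haA z hz
      refine le_trans (Real.exp_le_exp.2 (neg_le_neg ?_)) (h2 haA z ?_)
      · have h4 : C₂ * L a ≤ max C₂ 1 * L a :=
          mul_le_mul_of_nonneg_right (le_max_left _ _) (by linarith)
        have h5 : (0 : ℝ) ≤ max C₂ 1 * L a := by
          have : (1 : ℝ) ≤ max C₂ 1 := le_max_right _ _
          nlinarith
        calc C₂ * L a ≤ max C₂ 1 * L a := h4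
          _ ≤ K' * (max C₂ 1 * L a) := by nlinarith
          _ = max C₂ 1 * (K' * L a) := by ring
      · refine hz.trans (le_of_eq ?_)
        rw [mul_assoc])
  filter_upwards [h1] with ω hω n₀
  obtain ⟨n, hn, hn'⟩ := hω n₀
  refine ⟨n, hn, le_trans (le_of_eq ?_) hn'⟩
  rw [div_mul_eq_mul_div, mul_div_assoc, div_div, mul_comm (L n) K']

theorem order_upper (h : ℕ) (hh : 2 ≤ h) (L : ℕ → ℝ) (hL : Reg L) (D : ℝ) :
    ∃ (K C : ℝ) (A : Set ℕ) (n₀ : ℕ), 
      (∀ᶠ N : ℕ in atTop, (N : ℝ) ^ (1 / (h : ℝ)) * Real.exp (-(K * L N)) ≤ num A N) ∧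
      ∀ z : ℕ → ℕ, (∀ a ∈ A, (z a : ℝ) ≤ Real.exp (D * L a)) → ∀ n ≥ n₀,
        (R (moved A z) h n : ℝ) ≤ C * (Real.log n / L n) := by
  obtain ⟨p, rfl⟩ : ∃ p, h = p + 2 := ⟨h - 2, by omega⟩
  obtain ⟨B, hB⟩ := hL.sq
  have hLinf := hL.tendsto
  have hL1 := hLinf.eventually_ge_atTop 1
  set B' := max B 2 with hB'
  have hB2 : 2 ≤ B' := le_max_right _ _
  set K := max (D * (2 * B' * (1 + B'))) 1 with hK
  have hK1 : 1 ≤ K := le_max_right _ _
  have hK0 : 0 < K := by linarith
  obtain ⟨l₁, hl₁⟩ := eventually_atTop.1 hL1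
  obtain ⟨C, hC, A, n₀, hA, hmain⟩ := upper p (fun n => K * L n) B' hB2
    (fun a b hab => mul_le_mul_of_nonneg_left (hL.mono hab) hK0.le)
    (by
      filter_upwards [hB, hL1] with n h1 h2
      have h3 : B * L n ≤ B' * L n := mul_le_mul_of_nonneg_right (le_max_left _ _) (by linarith)
      calc K * L (n ^ 2) ≤ K * (B' * L n) := mul_le_mul_of_nonneg_left (h1.trans h3) hK0.le
        _ = B' * (K * L n) := by ring)
    (hLinf.const_mul_atTop hK0)
    (by
      filter_upwards [hL.little (1 / (2 * ((p : ℝ) + 2)) / K) (by positivity)] with n h1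
      calc K * L n ≤ K * (1 / (2 * ((p : ℝ) + 2)) / K * Real.log n) :=
            mul_le_mul_of_nonneg_left h1 hK0.le
        _ = Real.log n / (2 * ((p : ℝ) + 2)) := by field_simp)
  -- remove the small elements of `A`
  refine ⟨K + 1, C / K, A \ Set.Iio l₁, n₀, ?_, ?_⟩
  · have hpos : Tendsto (fun N : ℕ => Real.exp (L N)) atTop atTop :=
      Real.tendsto_exp_atTop.comp hLinf
    have hlogt : Tendsto (fun N : ℕ => Real.log N) atTop atTop :=
      Real.tendsto_log_atTop.comp tendsto_natCast_atTop_atTop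
    have hp0 : (0 : ℝ) < (p : ℝ) + 2 := by positivity
    have hbig : Tendsto (fun N : ℕ => Real.exp (1 / (2 * ((p : ℝ) + 2)) * Real.log N)) atTop atTop :=
      Real.tendsto_exp_atTop.comp (hlogt.const_mul_atTop (by positivity))
    filter_upwards [hA, hpos.eventually_ge_atTop 2, hbig.eventually_ge_atTop (2 * (l₁ : ℝ)),
      hL.little (1 / (2 * ((p : ℝ) + 2)) / K) (by positivity), eventually_ge_atTop 1]
      with N h1 h2 h3 h4 h5
    have hN0 : (0 : ℝ) < N := by exact_mod_cast h5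
    have h6 : (num A N : ℝ) ≤ num (A \ Set.Iio l₁) N + l₁ := by
      classical
      have e1 : num A N = ((Icc 1 N).filter fun a => a ∈ A).card := by unfold num; congr
      have e2 : num (A \ Set.Iio l₁) N = ((Icc 1 N).filter fun a => a ∈ A \ Set.Iio l₁).card := by
        unfold num; congr
      rw [e1, e2]
      have e3 : ((Icc 1 N).filter fun a => a ∈ A) ⊆
          ((Icc 1 N).filter fun a => a ∈ A \ Set.Iio l₁) ∪ range l₁ := by
        intro a ha
        rw [mem_filter] at ha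
        rw [mem_union, mem_filter, mem_range, Set.mem_sdiff, Set.mem_Iio]
        by_cases h : a < l₁
        · exact Or.inr h
        · exact Or.inl ⟨ha.1, ha.2, h⟩
      have e4 : ((Icc 1 N).filter fun a => a ∈ A).card ≤
          ((Icc 1 N).filter fun a => a ∈ A \ Set.Iio l₁).card + l₁ := by
        calc _ ≤ _ := card_le_card e3
          _ ≤ _ := card_union_le _ _
          _ = _ := by rw [card_range]
      exact_mod_cast e4
    set X := (N : ℝ) ^ (1 / ((p : ℝ) + 2)) * Real.exp (-(K * L N)) with hX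
    have h7 : 2 * (l₁ : ℝ) ≤ X := by
      refine h3.trans ?_
      have h8 : (N : ℝ) ^ (1 / ((p : ℝ) + 2)) =
          Real.exp (Real.log N * (1 / ((p : ℝ) + 2))) := Real.rpow_def_of_pos hN0 _
      rw [hX, h8, ← Real.exp_add]
      refine Real.exp_le_exp.2 ?_
      have h9 : K * L N ≤ 1 / (2 * ((p : ℝ) + 2)) * Real.log N := by
        calc K * L N ≤ K * (1 / (2 * ((p : ℝ) + 2)) / K * Real.log N) :=
              mul_le_mul_of_nonneg_left h4 hK0.le
          _ = _ := by field_simp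
      have h10 : Real.log N * (1 / ((p : ℝ) + 2)) = 2 * (1 / (2 * ((p : ℝ) + 2)) * Real.log N) := by
        field_simp
      rw [h10]
      linarith
    have h8 : (N : ℝ) ^ (1 / ((p + 2 : ℕ) : ℝ)) * Real.exp (-((K + 1) * L N)) =
        X * Real.exp (-(L N)) := by
      rw [hX, mul_assoc, ← Real.exp_add]
      push_cast
      congr 2
      ring
    have h9 : Real.exp (-(L N)) ≤ 1 / 2 := by
      rw [Real.exp_neg, one_div]
      exact inv_anti₀ (by norm_num) h2
    have h10 : 0 < X := by rw [hX]; positivity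
    rw [h8]
    calc X * Real.exp (-(L N)) ≤ X * (1 / 2) := by gcongr
      _ ≤ num (A \ Set.Iio l₁) N := by linarith
  · intro z hz n hn
    set z' : ℕ → ℕ := fun a => if a < l₁ then 0 else z a with hz'
    have h1 : moved (A \ Set.Iio l₁) z ⊆ moved A z' := by
      rintro y ⟨a, ⟨haA, ha⟩, rfl⟩
      refine ⟨a, haA, ?_⟩
      simp only [hz', if_neg (show ¬ a < l₁ from ha)]
    have h2 := hmain z' (by
      intro a haA
      by_cases ha : a < l₁
      · simp only [hz', if_pos ha, Nat.cast_zero]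
        positivity
      · simp only [hz', if_neg ha]
        refine (hz a ⟨haA, ha⟩).trans (Real.exp_le_exp.2 ?_)
        have h3 := hl₁ a (by omega)
        have h4 : D * (2 * B' * (1 + B')) ≤ K := le_max_left _ _
        have h5 : 0 < 2 * B' * (1 + B') := by positivity
        calc D * L a ≤ (K / (2 * B' * (1 + B'))) * L a := by
              refine mul_le_mul_of_nonneg_right ?_ (by linarith)
              rw [le_div_iff₀ h5]
              exact h4
          _ = 1 / (2 * B' * (1 + B')) * (K * L a) := by ring) n hn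
    have h3 : (R (moved (A \ Set.Iio l₁) z) (p + 2) n : ℝ) ≤ R (moved A z') (p + 2) n := by
      exact_mod_cast R_mono h1 (p + 2) n
    refine h3.trans (h2.trans (le_of_eq ?_))
    rw [div_mul_eq_mul_div, mul_div_assoc, div_div, mul_comm (L n) K]

end Pool.Agent.U204.PT
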