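import Pool.Agent.U204.PT.Sharp

/-!
# Below the threshold: the choice of the parameters
-/

set_option autoImplicit false

open Finset Filter Topology

namespace Pool.Agent.U204.PT

open Pool.Agent.U204.RF (R Mu mem_Mu)

/-- the main inequality for the parameters -/
theorem ev_params (g : ℕ) (κ : ℝ) (hκ : 0 < κ) :
    ∀ᶠ l : ℕ in atTop, 8 * ((g : ℝ) + 1) ^ 2 * ((l : ℝ) + 1) ^ g * (2 : ℝ) ^ (-(l * κ) : ℝ) ≤ 1 := by
  have hr : (2 : ℝ) ^ (-κ) < 1 := Real.rpow_lt_one_of_one_lt_of_neg (by norm_num) (by linarith)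
  have hr0 : (0 : ℝ) < (2 : ℝ) ^ (-κ) := by positivity
  have h1 := (tendsto_pow_const_mul_const_pow_of_lt_one g hr0.le hr).comp (tendsto_add_atTop_nat 1)
  have h2 := h1.const_mul (8 * ((g : ℝ) + 1) ^ 2 / (2 : ℝ) ^ (-κ))
  rw [mul_zero] at h2
  filter_upwards [h2.eventually_le_const (show (0 : ℝ) < 1 by norm_num)] with l hl
  refine le_trans (le_of_eq ?_) hl
  have h3 : (2 : ℝ) ^ (-(l * κ) : ℝ) = ((2 : ℝ) ^ (-κ)) ^ l := by
    rw [← Real.rpow_natCast, ← Real.rpow_mul (by norm_num)]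
    congr 1
    ring
  rw [h3]
  simp only [Function.comp_apply]
  push_cast
  rw [pow_succ ((2 : ℝ) ^ (-κ)) l]
  field_simp

theorem sharp' (g : ℕ) (ε : ℝ) (hε : 0 < ε) (hε1 : ε * (g + 1) < 1) :
    ∃ δ : ℝ, 0 < δ ∧ ∃ (A : Set ℕ) (K : ℕ),
      (∀ᶠ N : ℕ in atTop, (N : ℝ) ^ (1 / ((g : ℝ) + 1) - ε) ≤ num A N) ∧
      ∀ z : ℕ → ℕ, (∀ a ∈ A, (z a : ℝ) ≤ (a : ℝ) ^ δ) → ∀ j ≤ g + 1, ∀ n,
        R (moved A z) j n ≤ K := by
  set h : ℝ := (g : ℝ) + 1 with hh
  have hh1 : 1 ≤ h := by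
    have : (0 : ℝ) ≤ g := Nat.cast_nonneg g
    linarith
  set α : ℝ := 1 / h - ε / 2 with hα
  set κ : ℝ := h * ε / 4 with hκ
  have hκ0 : 0 < κ := by positivity
  set δ : ℝ := h * ε / 8 with hδ
  have hδ0 : 0 < δ := by positivity
  have hδ1 : δ ≤ 1 / 8 := by rw [hδ]; linarith
  have hα0 : 0 < α := by
    rw [hα, sub_pos, lt_div_iff₀ (by linarith)]
    nlinarith
  have hα1 : α ≤ 1 := by
    have : 1 / h ≤ 1 := by
      rw [div_le_one (by linarith)]
      exact hh1
    linarith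
  have hαh : α * h = 1 - 2 * κ := by
    rw [hα, hκ]
    field_simp
    ring
  set x : ℕ → ℝ := fun l => (2 : ℝ) ^ (l * α : ℝ) with hx
  have hx1 : ∀ l, 1 ≤ x l := fun l => Real.one_le_rpow (by norm_num) (by positivity)
  have hxmono : ∀ i l, i ≤ l → x i ≤ x l := by
    intro i l hil
    refine Real.rpow_le_rpow_of_exponent_le (by norm_num) ?_
    have : (i : ℝ) ≤ l := by exact_mod_cast hil
    exact mul_le_mul_of_nonneg_right this hα0.le
  obtain ⟨l₁, hl₁⟩ := eventually_atTop.1 (ev_params g κ hκ0)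
  set l₀ := max l₁ (24 * (g + 1)) with hl₀
  set M : ℕ → ℕ := fun l => if l₀ ≤ l then ⌊x l⌋₊ else 0 with hM
  have hMx : ∀ l, (M l : ℝ) ≤ x l := by
    intro l
    simp only [hM]
    split_ifs
    · exact Nat.floor_le (by have := hx1 l; linarith)
    · have := hx1 l
      simp only [Nat.cast_zero]
      linarith
  set V : ℕ → ℕ := fun l => ⌊(2 : ℝ) ^ ((l + 1) * δ : ℝ)⌋₊ with hV
  set W : ℕ → ℕ := fun l => (g + 1) * V l with hW
  have hW1 : ∀ l : ℕ, (W l : ℝ) + 1 ≤ 4 * h * (2 : ℝ) ^ (l * δ : ℝ) := by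
    intro l
    have h1 : (V l : ℝ) ≤ (2 : ℝ) ^ ((l + 1) * δ : ℝ) := Nat.floor_le (by positivity)
    have h2 : (2 : ℝ) ^ ((l + 1) * δ : ℝ) ≤ 2 * (2 : ℝ) ^ (l * δ : ℝ) := by
      rw [add_mul, one_mul, Real.rpow_add (by norm_num), mul_comm]
      refine mul_le_mul_of_nonneg_right ?_ (by positivity)
      calc (2 : ℝ) ^ δ ≤ (2 : ℝ) ^ (1 : ℝ) :=
            Real.rpow_le_rpow_of_exponent_le (by norm_num) (by linarith)
        _ = 2 := Real.rpow_one 2
    have h3 : (1 : ℝ) ≤ (2 : ℝ) ^ (l * δ : ℝ) := Real.one_le_rpow (by norm_num) (by positivity)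
    have h4 : (W l : ℝ) = h * V l := by
      simp only [hW]
      push_cast
      rfl
    rw [h4]
    nlinarith
  set lam : ℕ → ℝ := fun l => (2 : ℝ) ^ (l * δ : ℝ) with hlam
  have hlam1 : ∀ l, 1 ≤ lam l := fun l => Real.one_le_rpow (by norm_num) (by positivity)
  -- the main inequality
  have hmain : ∀ (l : ℕ) (F : Finset ℕ), F.card ≤ ∑ i ∈ range l, M i → l₀ ≤ l →
      2 * lam l * ((g + 1) * (F.card + M l) ^ g * (W l + 1) : ℕ) * M l ≤ (2 : ℝ) ^ l := by
    intro l F hF hl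
    have h1 : ((F.card + M l : ℕ) : ℝ) ≤ (l + 1) * x l := by
      push_cast
      have h2 : (F.card : ℝ) ≤ ∑ i ∈ range l, (M i : ℝ) := by exact_mod_cast hF
      have h3 : ∑ i ∈ range l, (M i : ℝ) ≤ ∑ i ∈ range l, x l :=
        sum_le_sum fun i hi => (hMx i).trans (hxmono i l (mem_range.1 hi).le)
      rw [sum_const, card_range, nsmul_eq_mul] at h3
      have h4 := hMx l
      linarith
    have h5 : 2 * lam l * ((g + 1) * (F.card + M l) ^ g * (W l + 1) : ℕ) * M l ≤
        2 * lam l * (h * ((l + 1) * x l) ^ g * (4 * h * lam l)) * x l := by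
      have h6 : (((g + 1) * (F.card + M l) ^ g * (W l + 1) : ℕ) : ℝ) =
          h * ((F.card + M l : ℕ) : ℝ) ^ g * ((W l : ℝ) + 1) := by
        push_cast
        rfl
      rw [h6]
      have h7 := hW1 l
      have h8 := hMx l
      have h9 := hlam1 l
      have h10 := hx1 l
      gcongr
    refine h5.trans ?_
    have h11 := hl₁ l ((le_max_left _ _).trans hl)
    have h12 : x l ^ g * x l = (2 : ℝ) ^ (l * (1 - 2 * κ) : ℝ) := by
      rw [← pow_succ, hx]
      simp only
      rw [← Real.rpow_natCast, ← Real.rpow_mul (by norm_num)]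
      congr 1
      push_cast
      rw [← hh, ← hαh]
      ring
    have h13 : lam l * lam l = (2 : ℝ) ^ (l * κ : ℝ) := by
      simp only [hlam]
      rw [← Real.rpow_add (by norm_num)]
      congr 1
      rw [hδ, hκ]
      ring
    have h14 : (2 : ℝ) ^ (l * (1 - 2 * κ) : ℝ) * (2 : ℝ) ^ (l * κ : ℝ) =
        (2 : ℝ) ^ l * (2 : ℝ) ^ (-(l * κ) : ℝ) := by
      rw [← Real.rpow_add (by norm_num), ← Real.rpow_natCast, ← Real.rpow_add (by norm_num)]
      congr 1
      ring
    calc 2 * lam l * (h * ((l + 1) * x l) ^ g * (4 * h * lam l)) * x l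
        = 8 * h ^ 2 * ((l : ℝ) + 1) ^ g * ((x l ^ g * x l) * (lam l * lam l)) := by
          rw [mul_pow]
          ring
      _ = (8 * h ^ 2 * ((l : ℝ) + 1) ^ g * (2 : ℝ) ^ (-(l * κ) : ℝ)) * (2 : ℝ) ^ l := by
          rw [h12, h13, h14]
          ring
      _ ≤ 1 * (2 : ℝ) ^ l := by gcongr
      _ = (2 : ℝ) ^ l := one_mul _
  set U := ⌊2 / δ⌋₊ with hU
  obtain ⟨A, hA1, hA2⟩ := assemble g U V W M (fun l => le_rfl)
    (by
      intro l
      by_cases hl : l₀ ≤ l
      · by_cases hM0 : M l = 0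
        · exact Or.inl hM0
        · right
          have h1 := hmain l ∅ (by simp) hl
          have h2 : (W l : ℝ) ≤ (2 : ℝ) ^ l := by
            refine le_trans ?_ h1
            have h3 : (1 : ℝ) ≤ M l := by exact_mod_cast Nat.one_le_iff_ne_zero.2 hM0
            have h4 := hlam1 l
            have h5 : (W l : ℝ) ≤ ((g + 1) * ((∅ : Finset ℕ).card + M l) ^ g * (W l + 1) : ℕ) := by
              have : W l ≤ (g + 1) * ((∅ : Finset ℕ).card + M l) ^ g * (W l + 1) := by
                have h6 : 1 ≤ (g + 1) * ((∅ : Finset ℕ).card + M l) ^ g := by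
                  have : 0 < (∅ : Finset ℕ).card + M l := by omega
                  exact Nat.one_le_iff_ne_zero.2 (by positivity)
                calc W l ≤ 1 * (W l + 1) := by omega
                  _ ≤ _ := Nat.mul_le_mul_right _ h6
              exact_mod_cast this
            have h7 : (0 : ℝ) ≤ W l := Nat.cast_nonneg _
            calc (W l : ℝ) ≤ 1 * W l * 1 := by linarith
              _ ≤ (2 * lam l) * ((g + 1) * ((∅ : Finset ℕ).card + M l) ^ g * (W l + 1) : ℕ) *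
                  M l := by
                gcongr
                linarith
          exact_mod_cast h2
      · left
        simp only [hM, if_neg hl])
    (by
      intro l F hF
      by_cases hl : l₀ ≤ l
      · obtain ⟨L, h1, h2, h3, h4⟩ := greedy' g (W l) F (Ico (2 ^ l) (2 ^ (l + 1)))
          (8 * (g + 1) * 2 ^ l) (M l) _ (lam l) (hlam1 l) le_rfl (by
            refine (hmain l F hF hl).trans (le_of_eq ?_)
            rw [Nat.card_Ico]
            have : 2 ^ (l + 1) - 2 ^ l = 2 ^ l := Nat.sub_eq_of_eq_add (by ring)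
            rw [this]
            push_cast
            rfl)
        refine ⟨L, h1, h2, fun b hb => mem_Ico.1 (h3 b hb), fun n hn => ?_⟩
        have h5 := h4 n hn
        have hl24 : 24 * (g + 1) ≤ l := (le_max_right _ _).trans hl
        have h6 : (3 : ℝ) * ((8 * (g + 1) * 2 ^ l : ℕ) : ℝ) ≤ (2 : ℝ) ^ (2 * l) := by
          have h7 : 3 * (8 * (g + 1) * 2 ^ l) ≤ 2 ^ (2 * l) := by
            have h8 : 24 * (g + 1) ≤ 2 ^ l := hl24.trans Nat.lt_two_pow_self.le
            calc 3 * (8 * (g + 1) * 2 ^ l) = 24 * (g + 1) * 2 ^ l := by ring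
              _ ≤ 2 ^ l * 2 ^ l := Nat.mul_le_mul_right _ h8
              _ = 2 ^ (2 * l) := by rw [← pow_add]; congr 1; ring
          exact_mod_cast h7
        have h9 : (2 : ℝ) ^ ((l : ℝ) * δ * (un g (W l) F n L)) ≤ (2 : ℝ) ^ (2 * l : ℝ) := by
          calc (2 : ℝ) ^ ((l : ℝ) * δ * (un g (W l) F n L)) = lam l ^ un g (W l) F n L := by
                simp only [hlam]
                rw [← Real.rpow_natCast, ← Real.rpow_mul (by norm_num)]
            _ ≤ 3 * ((8 * (g + 1) * 2 ^ l : ℕ) : ℝ) := h5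
            _ ≤ (2 : ℝ) ^ (2 * l) := h6
            _ = (2 : ℝ) ^ (2 * l : ℝ) := by
                rw [← Real.rpow_natCast]
                push_cast
                rfl
        have h10 : (l : ℝ) * δ * (un g (W l) F n L) ≤ 2 * l :=
          (Real.rpow_le_rpow_left_iff (by norm_num)).1 h9
        have hl0 : (0 : ℝ) < l := by
          have : 0 < l := by omega
          exact_mod_cast this
        rw [hU]
        refine Nat.le_floor ?_
        rw [le_div_iff₀ hδ0]
        have h11 : (l : ℝ) * ((un g (W l) F n L) * δ) ≤ l * 2 := by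
          calc (l : ℝ) * ((un g (W l) F n L) * δ) = (l : ℝ) * δ * (un g (W l) F n L) := by ring
            _ ≤ 2 * l := h10
            _ = l * 2 := by ring
        exact le_of_mul_le_mul_left h11 hl0
      · refine ⟨[], ?_, List.nodup_nil, by simp, ?_⟩
        · simp only [hM, if_neg hl, List.length_nil]
        · intro n _
          simp [un])
  refine ⟨δ, hδ0, A, (8 * (g + 1) * U + 1) ^ (g + 1), ?_, ?_⟩
  · -- the counting function
    have hpow : Tendsto (fun N : ℕ => (N : ℝ) ^ (ε / 2)) atTop atTop :=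
      (tendsto_rpow_atTop (by linarith)).comp tendsto_natCast_atTop_atTop
    filter_upwards [hpow.eventually_ge_atTop 16, eventually_ge_atTop (2 ^ (l₀ + 2))] with N hN1 hN2
    have hN0 : N ≠ 0 := by
      have : 1 ≤ 2 ^ (l₀ + 2) := Nat.one_le_two_pow
      omega
    have hlog : l₀ + 2 ≤ Nat.log 2 N := Nat.le_log_of_pow_le (by norm_num) hN2
    set l := Nat.log 2 N - 1 with hl
    have hl1 : 2 ^ (l + 1) ≤ N := by
      have : l + 1 = Nat.log 2 N := by omega
      rw [this]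
      exact Nat.pow_log_le_self 2 hN0
    have hl2 : N < 2 ^ (l + 2) := by
      have : l + 2 = Nat.log 2 N + 1 := by omega
      rw [this]
      exact Nat.lt_pow_succ_log_self (by norm_num) N
    have h1 := hA1 l N hl1
    have h2 : M l = ⌊x l⌋₊ := by simp only [hM, if_pos (show l₀ ≤ l by omega)]
    have h3 : x l / 2 ≤ M l := by
      rw [h2]
      have := Nat.lt_floor_add_one (x l)
      have h4 : (1 : ℝ) ≤ ⌊x l⌋₊ := by
        exact_mod_cast (Nat.one_le_floor_iff _).2 (hx1 l)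
      linarith
    have hNpos : (0 : ℝ) < N := by exact_mod_cast Nat.pos_of_ne_zero hN0
    have h4 : (N : ℝ) ^ α ≤ 4 * x l := by
      have h5 : (N : ℝ) ≤ (2 : ℝ) ^ ((l : ℝ) + 2) := by
        have : (N : ℝ) ≤ (2 : ℝ) ^ (l + 2) := by exact_mod_cast hl2.le
        rw [← Real.rpow_natCast] at this
        exact_mod_cast this
      calc (N : ℝ) ^ α ≤ ((2 : ℝ) ^ ((l : ℝ) + 2)) ^ α := by gcongr
        _ = (2 : ℝ) ^ (l * α + 2 * α : ℝ) := by
          rw [← Real.rpow_mul (by norm_num)]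
          congr 1
          ring
        _ = x l * (2 : ℝ) ^ (2 * α) := by rw [Real.rpow_add (by norm_num)]
        _ ≤ x l * 4 := by
          have : (2 : ℝ) ^ (2 * α) ≤ (2 : ℝ) ^ (2 : ℝ) :=
            Real.rpow_le_rpow_of_exponent_le (by norm_num) (by linarith)
          have h6 : (2 : ℝ) ^ (2 : ℝ) = 4 := by norm_num
          rw [h6] at this
          have := hx1 l
          gcongr
        _ = 4 * x l := by ring
    have h6 : (N : ℝ) ^ α = (N : ℝ) ^ (1 / h - ε) * (N : ℝ) ^ (ε / 2) := by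
      rw [← Real.rpow_add hNpos]
      congr 1
      rw [hα]
      ring
    have h7 : (0 : ℝ) < (N : ℝ) ^ (1 / h - ε) := by positivity
    have h8 : (N : ℝ) ^ (1 / h - ε) * 16 ≤ 4 * x l := by
      calc (N : ℝ) ^ (1 / h - ε) * 16 ≤ (N : ℝ) ^ (1 / h - ε) * (N : ℝ) ^ (ε / 2) := by gcongr
        _ = (N : ℝ) ^ α := h6.symm
        _ ≤ _ := h4
    have h9 : (M l : ℝ) ≤ num A N := by exact_mod_cast h1
    linarith
  · intro z hz j hj n
    have h1 := hA2 z (by
      intro a ha l hal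
      have h2 := hz a ha
      simp only [hV]
      refine Nat.le_floor (h2.trans ?_)
      have h3 : (a : ℝ) ≤ (2 : ℝ) ^ ((l : ℝ) + 1) := by
        have : (a : ℝ) ≤ (2 : ℝ) ^ (l + 1) := by exact_mod_cast hal.le
        rw [← Real.rpow_natCast] at this
        exact_mod_cast this
      calc (a : ℝ) ^ δ ≤ ((2 : ℝ) ^ ((l : ℝ) + 1)) ^ δ := by gcongr
        _ = (2 : ℝ) ^ (((l : ℝ) + 1) * δ) := by rw [← Real.rpow_mul (by norm_num)]) j hj n
    refine h1.trans ?_
    calc (8 * (g + 1) * U) ^ j ≤ (8 * (g + 1) * U + 1) ^ j := Nat.pow_le_pow_left (by omega) _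
      _ ≤ (8 * (g + 1) * U + 1) ^ (g + 1) := Nat.pow_le_pow_right (by omega) hj

/-- Below the threshold. -/
theorem sharp (h : ℕ) (hh : 1 ≤ h) (ε : ℝ) (hε : 0 < ε) :
    ∃ δ : ℝ, 0 < δ ∧ ∃ (A : Set ℕ) (K : ℕ),
      (∀ᶠ N : ℕ in atTop, (N : ℝ) ^ (1 / (h : ℝ) - ε) ≤ num A N) ∧
      ∀ z : ℕ → ℕ, (∀ a ∈ A, (z a : ℝ) ≤ (a : ℝ) ^ δ) → ∀ n, R (moved A z) h n ≤ K := by
  obtain ⟨g, rfl⟩ : ∃ g, h = g + 1 := ⟨h - 1, by omega⟩
  have hg : (0 : ℝ) < (g : ℝ) + 1 := by positivity
  set ε' := min ε (1 / (2 * ((g : ℝ) + 1))) with hε'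
  have h1 : 0 < ε' := lt_min hε (by positivity)
  have h2 : ε' * (g + 1) < 1 := by
    calc ε' * (g + 1) ≤ (1 / (2 * ((g : ℝ) + 1))) * (g + 1) := by
          gcongr
          exact min_le_right _ _
      _ = 1 / 2 := by field_simp
      _ < 1 := by norm_num
  obtain ⟨δ, hδ, A, K, hA, hK⟩ := sharp' g ε' h1 h2
  refine ⟨δ, hδ, A, K, ?_, fun z hz n => hK z hz (g + 1) le_rfl n⟩
  filter_upwards [hA, eventually_ge_atTop 1] with N hN hN1
  refine le_trans ?_ hN
  refine Real.rpow_le_rpow_of_exponent_le (by exact_mod_cast hN1) ?_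
  push_cast
  have := min_le_left ε (1 / (2 * ((g : ℝ) + 1)))
  linarith

end Pool.Agent.U204.PT
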