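import Pool.Agent.U204.PT.Comb
import Pool.Agent.U204.RFComb

/-!
# Patterns: prescribed perturbations which create `k` representations
-/

set_option autoImplicit false

open Finset

namespace Pool.Agent.U204.PT

open Pool.Agent.U204.RF (R Mu mem_Mu)

/-- the perturbed set -/
def moved (A : Set ℕ) (z : ℕ → ℕ) : Set ℕ := {x | ∃ a ∈ A, x = a + z a}

theorem pattern (k : ℕ) (hk : 1 ≤ k) (h : ℕ) (hh : 2 ≤ h) (S : Finset ℕ) (W N : ℕ)
    (hSN : ∀ a ∈ S, a ≤ N)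
    (hex : ∃ v, thr k h ≤ (fam S h v W).card) (hS : 2 * k * h + h ≤ S.card) :
    ∃ (J : Finset ℕ) (ζ : ℕ → ℕ) (n : ℕ), J ⊆ S ∧ J.card ≤ 2 * k * h + h ∧ J.Nonempty ∧
      ((∀ a ∈ J, a ≤ n) ∧ n ≤ 2 * h * N + 2 * W) ∧ (∀ a ∈ J, ζ a ≤ 2 * W) ∧
      ∀ (A : Set ℕ), (∀ a ∈ J, a ∈ A) → ∀ z : ℕ → ℕ, (∀ a ∈ J, z a = ζ a) →
        k ≤ R (moved A z) h n := by
  classical
  obtain ⟨j, v, P, hj2, hjh, hPcard, hP, hdis⟩ := exists_disjoint k hk S h W hh hex
  set U : Finset ℕ := P.biUnion id with hU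
  have hUS : U ⊆ S := by
    intro a ha
    obtain ⟨Q, hQ, haQ⟩ := mem_biUnion.1 ha
    exact (hP Q hQ).1 haQ
  have hUcard : U.card ≤ 2 * k * h := by
    calc U.card ≤ ∑ Q ∈ P, (id Q).card := card_biUnion_le
      _ = ∑ Q ∈ P, j := sum_congr rfl fun Q hQ => (hP Q hQ).2.1
      _ = 2 * k * j := by rw [sum_const, hPcard, smul_eq_mul]
      _ ≤ 2 * k * h := Nat.mul_le_mul_left _ hjh
  obtain ⟨F, hF1, hF2⟩ := exists_subset_card_eq (s := S \ U) (n := h - j) (by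
    have := le_card_sdiff U S
    omega)
  have hFU : ∀ Q ∈ P, Disjoint Q F := by
    intro Q hQ
    rw [disjoint_left]
    intro a ha haF
    exact (mem_sdiff.1 (hF1 haF)).2 (mem_biUnion.2 ⟨Q, hQ, ha⟩)
  have hne : ∀ Q ∈ P, Q.Nonempty := fun Q hQ => card_pos.1 (by rw [(hP Q hQ).2.1]; omega)
  set x : Finset ℕ → ℕ := fun Q => if hQ : Q.Nonempty then Q.min' hQ else 0 with hx
  have hxmem : ∀ Q ∈ P, x Q ∈ Q := by
    intro Q hQ
    simp only [hx, dif_pos (hne Q hQ)]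
    exact min'_mem _ _
  set δ : Finset ℕ → ℕ := fun Q => v + 2 * W - ∑ b ∈ Q, b with hδ
  set ζ : ℕ → ℕ := fun a => ∑ Q ∈ P, if x Q = a then δ Q else 0 with hζ
  have hζx : ∀ Q ∈ P, ∀ a ∈ Q, ζ a = if x Q = a then δ Q else 0 := by
    intro Q hQ a ha
    simp only [hζ]
    refine sum_eq_single_of_mem Q hQ ?_
    intro Q' hQ' hne'
    refine if_neg fun hc => ?_
    have h1 := hxmem Q' hQ'
    rw [hc] at h1
    exact disjoint_left.1 (hdis Q' hQ' Q hQ hne') h1 ha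
  have hζF : ∀ a ∈ F, ζ a = 0 := by
    intro a ha
    simp only [hζ]
    refine sum_eq_zero fun Q hQ => if_neg fun hc => ?_
    have h1 := hxmem Q hQ
    rw [hc] at h1
    exact disjoint_left.1 (hFU Q hQ) h1 ha
  have hδle : ∀ Q ∈ P, δ Q ≤ 2 * W := by
    intro Q hQ
    have := (hP Q hQ).2.2.1
    simp only [hδ]
    omega
  set n := v + 2 * W + ∑ b ∈ F, b with hn
  have hPne : P.Nonempty := card_pos.1 (by omega)
  refine ⟨U ∪ F, ζ, n, ?_, ?_, ?_, ⟨?_, ?_⟩, ?_, ?_⟩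
  · exact union_subset hUS (hF1.trans sdiff_subset)
  · refine (card_union_le _ _).trans ?_
    omega
  · obtain ⟨Q, hQ⟩ := hPne
    exact ⟨x Q, mem_union_left _ (mem_biUnion.2 ⟨Q, hQ, hxmem Q hQ⟩)⟩
  · intro a ha
    rcases mem_union.1 ha with ha | ha
    · obtain ⟨Q, hQ, haQ⟩ := mem_biUnion.1 ha
      have h1 : a ≤ ∑ b ∈ Q, b := single_le_sum (f := fun b : ℕ => b)
        (fun _ _ => Nat.zero_le _) haQ
      have h2 := (hP Q hQ).2.2.2
      omega
    · have h1 : a ≤ ∑ b ∈ F, b := single_le_sum (f := fun b : ℕ => b)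
        (fun _ _ => Nat.zero_le _) ha
      omega
  · obtain ⟨Q, hQ⟩ := hPne
    have h1 : v ≤ h * N := by
      calc v ≤ ∑ b ∈ Q, b := (hP Q hQ).2.2.1
        _ ≤ ∑ b ∈ Q, N := sum_le_sum fun b hb => hSN b ((hP Q hQ).1 hb)
        _ = j * N := by rw [sum_const, (hP Q hQ).2.1, smul_eq_mul]
        _ ≤ h * N := Nat.mul_le_mul_right _ hjh
    have h2 : ∑ b ∈ F, b ≤ h * N := by
      calc ∑ b ∈ F, b ≤ ∑ b ∈ F, N := sum_le_sum fun b hb => hSN b (mem_sdiff.1 (hF1 hb)).1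
        _ = (h - j) * N := by rw [sum_const, hF2, smul_eq_mul]
        _ ≤ h * N := Nat.mul_le_mul_right _ (by omega)
    have h3 : 2 * h * N = h * N + h * N := by ring
    omega
  · intro a ha
    rcases mem_union.1 ha with ha | ha
    · obtain ⟨Q, hQ, haQ⟩ := mem_biUnion.1 ha
      rw [hζx Q hQ a haQ]
      split_ifs
      · exact hδle Q hQ
      · exact Nat.zero_le _
    · rw [hζF a ha]
      exact Nat.zero_le _
  intro A hA z hz
  have hzQ : ∀ Q ∈ P, ∀ a ∈ Q, z a = if x Q = a then δ Q else 0 := fun Q hQ a ha => by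
    rw [hz a (mem_union_left _ (mem_biUnion.2 ⟨Q, hQ, ha⟩)), hζx Q hQ a ha]
  have hzF : ∀ a ∈ F, z a = 0 := fun a ha => by
    rw [hz a (mem_union_right _ ha), hζF a ha]
  set M : Finset ℕ → Multiset ℕ := fun Q => (Q.val.map fun a => a + z a) + F.val with hM
  have hMmem : ∀ Q ∈ P, M Q ∈ Mu (moved A z) h n := by
    intro Q hQ
    rw [mem_Mu]
    refine ⟨?_, ?_, ?_⟩
    · simp only [hM, Multiset.card_add, Multiset.card_map]
      have h1 : Multiset.card Q.val = j := (hP Q hQ).2.1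
      have h2 : Multiset.card F.val = h - j := hF2
      omega
    · intro a ha
      simp only [hM, Multiset.mem_add, Multiset.mem_map, mem_val] at ha
      rcases ha with ⟨b, hb, rfl⟩ | ha
      · exact ⟨b, hA b (mem_union_left _ (mem_biUnion.2 ⟨Q, hQ, hb⟩)), rfl⟩
      · exact ⟨a, hA a (mem_union_right _ ha), by rw [hzF a ha, add_zero]⟩
    · simp only [hM, Multiset.sum_add]
      have h1 : (Q.val.map fun a => a + z a).sum = ∑ a ∈ Q, (a + z a) := rfl
      have h2 : F.val.sum = ∑ b ∈ F, b := by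
        rw [Finset.sum_eq_multiset_sum, Multiset.map_id']
      have h3 : ∑ a ∈ Q, z a = δ Q := by
        rw [sum_congr rfl fun a ha => hzQ Q hQ a ha, sum_ite_eq, if_pos (hxmem Q hQ)]
      rw [h1, h2, sum_add_distrib, h3]
      have h4 := (hP Q hQ).2.2.2
      simp only [hδ]
      omega
  -- at most two of the multisets agree
  have hfib : ∀ s ∈ P.image M, (P.filter fun Q => M Q = s).card ≤ 2 := by
    intro s _
    by_contra hc
    rw [not_le, two_lt_card] at hc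
    obtain ⟨Q₁, h1, Q₂, h2, Q₃, h3, h12, h13, h23⟩ := hc
    rw [mem_filter] at h1 h2 h3
    have hun : ∀ Q ∈ P, ∃ u ∈ Q, z u = 0 := by
      intro Q hQ
      obtain ⟨u, hu, hux⟩ := exists_mem_ne (s := Q) (by rw [(hP Q hQ).2.1]; omega) (x Q)
      exact ⟨u, hu, by rw [hzQ Q hQ u hu, if_neg (Ne.symm hux)]⟩
    have hkey : ∀ Q ∈ P, M Q = s → ∀ Q' ∈ P, M Q' = s → Q ≠ Q' → ∀ u ∈ Q', z u = 0 →
        u = x Q + δ Q := by
      intro Q hQ hQs Q' hQ' hQs' hne' u hu huz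
      have h4 : u ∈ (Q'.val.map fun a => a + z a) := by
        rw [Multiset.mem_map]
        exact ⟨u, mem_def.1 hu, by rw [huz, add_zero]⟩
      have h5 : (Q'.val.map fun a => a + z a) = (Q.val.map fun a => a + z a) := by
        have : (Q'.val.map fun a => a + z a) + F.val = (Q.val.map fun a => a + z a) + F.val :=
          hQs'.trans hQs.symm
        exact add_right_cancel this
      rw [h5, Multiset.mem_map] at h4
      obtain ⟨a, ha, hau⟩ := h4
      rw [mem_val] at ha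
      rw [hzQ Q hQ a ha] at hau
      by_cases hxa : x Q = a
      · rw [if_pos hxa] at hau
        rw [hxa]
        exact hau.symm
      · rw [if_neg hxa, add_zero] at hau
        subst hau
        exact absurd hu (disjoint_left.1 (hdis Q hQ Q' hQ' hne') ha)
    obtain ⟨u₂, hu₂, hz₂⟩ := hun Q₂ h2.1
    obtain ⟨u₃, hu₃, hz₃⟩ := hun Q₃ h3.1
    have e2 := hkey Q₁ h1.1 h1.2 Q₂ h2.1 h2.2 h12 u₂ hu₂ hz₂
    have e3 := hkey Q₁ h1.1 h1.2 Q₃ h3.1 h3.2 h13 u₃ hu₃ hz₃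
    rw [e2] at hu₂
    rw [e3] at hu₃
    exact disjoint_left.1 (hdis Q₂ h2.1 Q₃ h3.1 h23) hu₂ hu₃
  have h1 := card_le_mul_card_image P 2 hfib
  have h2 : (P.image M).card ≤ (Mu (moved A z) h n).card := by
    refine card_le_card fun s hs => ?_
    obtain ⟨Q, hQ, rfl⟩ := mem_image.1 hs
    exact hMmem Q hQ
  have h3 : R (moved A z) h n = (Mu (moved A z) h n).card := rfl
  omega

/-- many disjoint patterns -/
theorem patterns (k : ℕ) (hk : 1 ≤ k) (h : ℕ) (hh : 2 ≤ h) (S : Finset ℕ) (W N : ℕ) (hW : 1 ≤ W)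
    (hSN : ∀ a ∈ S, a ≤ N)
    (hR : h.factorial * thr k h * (h * N / W + 1) ≤ (S.card / 2 + 1 - h) ^ h) (T : ℕ)
    (hT : (T + 1) * (2 * (2 * k * h + h)) ≤ S.card) :
    ∃ (J : ℕ → Finset ℕ) (ζ : ℕ → ℕ → ℕ) (n : ℕ → ℕ),
      (∀ t < T, J t ⊆ S ∧ (J t).card ≤ 2 * k * h + h ∧ (J t).Nonempty ∧
        ((∀ a ∈ J t, a ≤ n t) ∧ n t ≤ 2 * h * N + 2 * W) ∧
        (∀ a ∈ J t, ζ t a ≤ 2 * W) ∧
        ∀ (A : Set ℕ), (∀ a ∈ J t, a ∈ A) → ∀ z : ℕ → ℕ, (∀ a ∈ J t, z a = ζ t a) →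
          k ≤ R (moved A z) h (n t)) ∧
      ∀ s t, s < t → t < T → Disjoint (J s) (J t) := by
  classical
  have key : ∀ S' : Finset ℕ, ∃ (J : Finset ℕ) (ζ : ℕ → ℕ) (n : ℕ), S' ⊆ S → S.card ≤ 2 * S'.card →
      2 * k * h + h ≤ S'.card → J ⊆ S' ∧ J.card ≤ 2 * k * h + h ∧ J.Nonempty ∧
      ((∀ a ∈ J, a ≤ n) ∧ n ≤ 2 * h * N + 2 * W) ∧ (∀ a ∈ J, ζ a ≤ 2 * W) ∧
      ∀ (A : Set ℕ), (∀ a ∈ J, a ∈ A) → ∀ z : ℕ → ℕ, (∀ a ∈ J, z a = ζ a) →
        k ≤ R (moved A z) h n := by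
    intro S'
    by_cases h1 : S' ⊆ S
    · by_cases h2 : S.card ≤ 2 * S'.card
      · by_cases h3 : 2 * k * h + h ≤ S'.card
        · have hwin : ∃ v, thr k h ≤ (fam S' h v W).card := by
            refine exists_window S' h N W _ hW (fun a ha => hSN a (h1 ha)) ?_
            refine hR.trans (Nat.pow_le_pow_left ?_ _)
            omega
          obtain ⟨J, ζ, n, hJ⟩ := pattern k hk h hh S' W N (fun a ha => hSN a (h1 ha)) hwin h3
          exact ⟨J, ζ, n, fun _ _ _ => hJ⟩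
        · exact ⟨∅, fun _ => 0, 0, fun _ _ hc => absurd hc h3⟩
      · exact ⟨∅, fun _ => 0, 0, fun _ hc => absurd hc h2⟩
    · exact ⟨∅, fun _ => 0, 0, fun hc => absurd hc h1⟩
  choose Jf ζf nf hf using key
  set L := 2 * k * h + h with hL
  have hLpos : 1 ≤ L := by rw [hL]; omega
  set U : ℕ → Finset ℕ := fun t => Nat.rec ∅ (fun _ U => U ∪ Jf (S \ U)) t with hU
  have hU0 : U 0 = ∅ := rfl
  have hUs : ∀ t, U (t + 1) = U t ∪ Jf (S \ U t) := fun t => rfl
  have hmono : Monotone U := monotone_nat_of_le_succ fun t => by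
    rw [hUs]; exact subset_union_left
  have hbig : ∀ t, (U t).card ≤ L * t → t ≤ T → S.card ≤ 2 * (S \ U t).card ∧
      L ≤ (S \ U t).card := by
    intro t h1 h2
    have h3 := le_card_sdiff (U t) S
    have h4 : (t + 1) * (2 * L) ≤ S.card := (Nat.mul_le_mul_right _ (by omega)).trans hT
    have h5 : (t + 1) * (2 * L) = 2 * (L * t) + 2 * L := by ring
    omega
  have hcard : ∀ t, t ≤ T → (U t).card ≤ L * t := by
    intro t
    induction t with
    | zero => intro _; rw [hU0]; simp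
    | succ t ih =>
      intro ht
      have h1 := ih (by omega)
      obtain ⟨h2, h3⟩ := hbig t h1 (by omega)
      have h4 := (hf (S \ U t) sdiff_subset h2 h3).2.1
      rw [hUs]
      refine (card_union_le _ _).trans ?_
      have : L * (t + 1) = L * t + L := by ring
      omega
  refine ⟨fun t => Jf (S \ U t), fun t => ζf (S \ U t), fun t => nf (S \ U t), ?_, ?_⟩
  · intro t ht
    obtain ⟨h2, h3⟩ := hbig t (hcard t ht.le) ht.le
    obtain ⟨h4, h5⟩ := hf (S \ U t) sdiff_subset h2 h3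
    exact ⟨h4.trans sdiff_subset, h5⟩
  · intro s t hst ht
    obtain ⟨h2, h3⟩ := hbig t (hcard t ht.le) ht.le
    have h4 := (hf (S \ U t) sdiff_subset h2 h3).1
    rw [disjoint_left]
    intro a ha hb
    have h5 := (mem_sdiff.1 (h4 hb)).2
    have h6 : a ∈ U (s + 1) := by
      rw [hUs]; exact mem_union_right _ ha
    exact h5 (hmono (Nat.succ_le_of_lt hst) h6)

end Pool.Agent.U204.PT
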