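import Pool.Agent.U204.PT.Pattern
import Pool.Agent.Y940.NP.Prob

/-!
# Random perturbations: one scale
-/

set_option autoImplicit false

open Finset Filter MeasureTheory ProbabilityTheory

namespace Pool.Agent.U204.PT

open Pool.Agent.U204.RF (R Mu mem_Mu)

/-- the number of the elements of `A` in `[1, N]` -/
noncomputable def num (A : Set ℕ) (N : ℕ) : ℕ := by
  classical exact ((Icc 1 N).filter fun a => a ∈ A).card

/-- the constant -/
def cst (k h : ℕ) : ℕ := 2 * (2 * (h.factorial * thr k h) * h * 8 ^ h)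

/-- the length of a pattern -/
def len (k h : ℕ) : ℕ := 2 * k * h + h

/-- a lower bound for `m` -/
def low (k h : ℕ) : ℕ := 16 * (h.factorial * thr k h) + 8 * h + 8 * len k h

theorem scale (k h : ℕ) (hk : 1 ≤ k) (hh : 2 ≤ h) (A : Set ℕ) (N m : ℕ) (hm : low k h ≤ m)
    (hmN : m ≤ num A N) {Ω : Type} [MeasurableSpace Ω] (μ : Measure Ω) [IsProbabilityMeasure μ]
    (Z : ℕ → Ω → ℕ) (hZ : ∀ i, Measurable (Z i)) (hind : iIndepFun Z μ) (q : ℝ) (hq0 : 0 ≤ q)
    (hq1 : q ≤ 1)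
    (hq : ∀ a ∈ A, m / 2 < a → a ≤ N → ∀ z ≤ cst k h * (N / m ^ h + 1),
      q ≤ μ.real {ω | Z a ω = z}) :
    μ.real {ω | ¬ ∃ n ≥ m / 2, n ≤ 2 * h * N + cst k h * (N / m ^ h + 1) ∧
        k ≤ R (moved A fun a => Z a ω) h n} ≤
      Real.exp (-(q ^ len k h * (m / (16 * len k h)))) := by
  classical
  set θ := h.factorial * thr k h with hθ
  have hθ1 : 1 ≤ θ := Nat.one_le_iff_ne_zero.2 (by
    have := thr_pos k hk h
    have := Nat.factorial_pos h
    positivity)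
  set L := len k h with hL
  have hL' : L = 2 * k * h + h := rfl
  have hL1 : 1 ≤ L := by rw [hL']; omega
  have hm' : 16 * θ + 8 * h + 8 * L ≤ m := hm
  set c₁ := 2 * θ * h * 8 ^ h with hc₁
  have hcst : cst k h = 2 * c₁ := rfl
  have hc₁1 : 1 ≤ c₁ := Nat.one_le_iff_ne_zero.2 (by positivity)
  set W := c₁ * (N / m ^ h + 1) with hW
  have hW1 : 1 ≤ W := Nat.one_le_iff_ne_zero.2 (by positivity)
  have hmpos : 0 < m ^ h := by
    have : 0 < m := by omega
    positivity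
  have hWm : c₁ * N ≤ W * m ^ h := by
    have h1 : N < m ^ h * (N / m ^ h + 1) := Nat.lt_mul_div_succ N hmpos
    calc c₁ * N ≤ c₁ * (m ^ h * (N / m ^ h + 1)) := Nat.mul_le_mul_left _ h1.le
      _ = W * m ^ h := by rw [hW]; ring
  set S := ((Icc 1 N).filter fun a => a ∈ A).filter fun a => m / 2 < a with hS
  have hScard : m ≤ 2 * S.card := by
    have h1 := card_filter_add_card_filter_not (s := (Icc 1 N).filter fun a => a ∈ A)
      (fun a => m / 2 < a)
    have h2 : (((Icc 1 N).filter fun a => a ∈ A).filter fun a => ¬ m / 2 < a).card ≤ m / 2 := by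
      calc _ ≤ (Icc 1 (m / 2)).card := by
            refine card_le_card fun a ha => ?_
            rw [mem_filter, mem_filter, mem_Icc] at ha
            rw [mem_Icc]
            omega
        _ = m / 2 := by rw [Nat.card_Icc]; omega
    have h3 : m ≤ ((Icc 1 N).filter fun a => a ∈ A).card := by
      refine hmN.trans (le_of_eq ?_)
      unfold num
      congr
    have h4 : ((Icc 1 N).filter fun a => a ∈ A).card = S.card +
        (((Icc 1 N).filter fun a => a ∈ A).filter fun a => ¬ m / 2 < a).card := h1.symm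
    omega
  have hSmem : ∀ a ∈ S, a ∈ A ∧ m / 2 < a ∧ a ≤ N := by
    intro a ha
    rw [hS, mem_filter, mem_filter, mem_Icc] at ha
    exact ⟨ha.1.2, ha.2, ha.1.1.2⟩
  set e := S.card / 2 + 1 - h with he
  have he8 : m ≤ 8 * e := by omega
  have heh : 2 * θ ≤ e ^ h := by
    have h1 : 2 * θ ≤ e := by omega
    exact h1.trans (Nat.le_self_pow (by omega) e)
  have hR : h.factorial * thr k h * (h * N / W + 1) ≤ (S.card / 2 + 1 - h) ^ h := by
    rw [← hθ, ← he]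
    have h1 : 2 * θ * (h * N) * 8 ^ h ≤ W * e ^ h * 8 ^ h := by
      calc 2 * θ * (h * N) * 8 ^ h = c₁ * N := by rw [hc₁]; ring
        _ ≤ W * m ^ h := hWm
        _ ≤ W * (8 * e) ^ h := Nat.mul_le_mul_left _ (Nat.pow_le_pow_left he8 _)
        _ = W * e ^ h * 8 ^ h := by rw [mul_pow]; ring
    have h2 : 2 * θ * (h * N) ≤ W * e ^ h := Nat.le_of_mul_le_mul_right h1 (by positivity)
    have h3 : W * (2 * θ * (h * N / W)) ≤ W * e ^ h := by
      calc W * (2 * θ * (h * N / W)) = 2 * θ * (h * N / W * W) := by ring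
        _ ≤ 2 * θ * (h * N) := Nat.mul_le_mul_left _ (Nat.div_mul_le_self _ _)
        _ ≤ _ := h2
    have h4 : 2 * θ * (h * N / W) ≤ e ^ h := Nat.le_of_mul_le_mul_left h3 (by omega)
    have h5 : 2 * (θ * (h * N / W + 1)) = 2 * θ * (h * N / W) + 2 * θ := by ring
    omega
  set T := m / (8 * L) with hT
  have hTm : T * (8 * L) ≤ m := Nat.div_mul_le_self _ _
  have hTS : (T + 1) * (2 * (2 * k * h + h)) ≤ S.card := by
    rw [← hL']
    have h1 : 4 * ((T + 1) * (2 * L)) = T * (8 * L) + 8 * L := by ring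
    omega
  have hT1 : 1 ≤ T := by
    rw [hT, Nat.le_div_iff_mul_le (by omega)]
    omega
  have hTlow : (m : ℝ) / (16 * L) ≤ T := by
    have h1 : m < 8 * L * (T + 1) := Nat.lt_mul_div_succ m (by omega)
    have h2 : 8 * L * (T + 1) ≤ 8 * L * (2 * T) := Nat.mul_le_mul_left _ (by omega)
    have h3 : m ≤ T * (16 * L) := by
      have : 8 * L * (2 * T) = T * (16 * L) := by ring
      omega
    have h4 : (m : ℝ) ≤ T * (16 * L) := by exact_mod_cast h3
    have h5 : (0 : ℝ) < 16 * L := by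
      have : (1 : ℝ) ≤ L := by exact_mod_cast hL1
      linarith
    rw [div_le_iff₀ h5]
    exact h4
  obtain ⟨J, ζ, n, hJ1, hJ2⟩ := patterns k hk h hh S W N hW1 (fun a ha => (hSmem a ha).2.2) hR T hTS
  have hp : ∀ t < T, q ^ L ≤ ∏ i ∈ J t, μ.real (Z i ⁻¹' {ζ t i}) := by
    intro t ht
    obtain ⟨h1, h2, _, _, h3, _⟩ := hJ1 t ht
    calc q ^ L ≤ q ^ (J t).card := pow_le_pow_of_le_one hq0 hq1 h2
      _ = ∏ i ∈ J t, q := by rw [prod_const]
      _ ≤ ∏ i ∈ J t, μ.real (Z i ⁻¹' {ζ t i}) := by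
        refine prod_le_prod (fun _ _ => hq0) fun i hi => ?_
        obtain ⟨h4, h5, h6⟩ := hSmem i (h1 hi)
        have h7 : ζ t i ≤ cst k h * (N / m ^ h + 1) := by
          refine (h3 i hi).trans (le_of_eq ?_)
          rw [hcst, hW]; ring
        exact hq i h4 h5 h6 _ h7
  have hno := Pool.Agent.Y940.NP.no_pattern Z hZ hind T J ζ hJ2 (q ^ L) hp
  have hsub : {ω | ¬ ∃ n ≥ m / 2, n ≤ 2 * h * N + cst k h * (N / m ^ h + 1) ∧
        k ≤ R (moved A fun a => Z a ω) h n} ⊆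
      {ω | ∀ t < T, ¬ ∀ i ∈ J t, Z i ω = ζ t i} := by
    intro ω hω t ht hall
    refine hω ?_
    obtain ⟨h1, _, ⟨a, ha⟩, ⟨h4, h4'⟩, _, h6⟩ := hJ1 t ht
    refine ⟨n t, ?_, ?_, h6 A (fun a ha => (hSmem a (h1 ha)).1) _ hall⟩
    · have := h4 a ha
      have := (hSmem a (h1 ha)).2.1
      show m / 2 ≤ n t
      omega
    · refine h4'.trans (le_of_eq ?_)
      rw [hcst, hW]; ring
  refine (measureReal_mono hsub).trans (hno.trans ?_)
  refine Real.exp_le_exp.2 (neg_le_neg ?_)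
  exact mul_le_mul_of_nonneg_left hTlow (by positivity)

/-- infinitely many good scales -/
theorem ae_of_scales (h : ℕ) (hh : 2 ≤ h) (A : Set ℕ) (ψ : ℕ → ℝ)
    {Ω : Type} [MeasurableSpace Ω] (μ : Measure Ω) [IsProbabilityMeasure μ]
    (Z : ℕ → Ω → ℕ) (hZ : ∀ i, Measurable (Z i)) (hind : iIndepFun Z μ)
    (hsc : ∀ (B : ℝ) (m₁ : ℕ), ∃ (k N m : ℕ) (q : ℝ), 1 ≤ k ∧ low k h ≤ m ∧ m₁ ≤ m ∧
      m ≤ num A N ∧ 0 ≤ q ∧ q ≤ 1 ∧ B * len k h ≤ q ^ len k h * m ∧
      (∀ n, m / 2 ≤ n → n ≤ 2 * h * N + cst k h * (N / m ^ h + 1) → ψ n ≤ k) ∧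
      ∀ a ∈ A, m / 2 < a → a ≤ N → ∀ z ≤ cst k h * (N / m ^ h + 1),
        q ≤ μ.real {ω | Z a ω = z}) :
    ∀ᵐ ω ∂μ, ∀ n₀ : ℕ, ∃ n ≥ n₀, ψ n ≤ R (moved A fun a => Z a ω) h n := by
  rw [ae_all_iff]
  intro n₀
  rw [ae_iff]
  set bad := {ω | ¬ ∃ n ≥ n₀, ψ n ≤ R (moved A fun a => Z a ω) h n} with hbad
  by_contra hne
  have hpos : 0 < μ.real bad := by
    rw [measureReal_def]
    exact ENNReal.toReal_pos hne (measure_ne_top _ _)
  obtain ⟨x, hx⟩ : ∃ x : ℝ, Real.exp (-x) < μ.real bad := by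
    refine ⟨-Real.log (μ.real bad / 2), ?_⟩
    rw [neg_neg, Real.exp_log (by linarith)]
    linarith
  obtain ⟨k, N, m, q, hk, hlow, h1, h2, h3, h4, h5, hψ, h6⟩ := hsc (x * 16) (2 * n₀ + 2)
  have hL1 : (0 : ℝ) < 16 * (len k h : ℝ) := by
    have : 1 ≤ len k h := by unfold len; omega
    have : (1 : ℝ) ≤ (len k h : ℝ) := by exact_mod_cast this
    linarith
  have h7 := scale k h hk hh A N m hlow h2 μ Z hZ hind q h3 h4 h6
  have h8 : n₀ ≤ m / 2 := by omega
  have h9 : bad ⊆ {ω | ¬ ∃ n ≥ m / 2, n ≤ 2 * h * N + cst k h * (N / m ^ h + 1) ∧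
      k ≤ R (moved A fun a => Z a ω) h n} := by
    intro ω hω hc
    obtain ⟨n, hn1, hn2, hn3⟩ := hc
    exact hω ⟨n, h8.trans hn1, (hψ n hn1 hn2).trans (by exact_mod_cast hn3)⟩
  have h10 : μ.real bad ≤ Real.exp (-x) := by
    refine (measureReal_mono h9).trans (h7.trans ?_)
    refine Real.exp_le_exp.2 (neg_le_neg ?_)
    rw [← mul_div_assoc, le_div_iff₀ hL1]
    calc x * (16 * (len k h : ℝ)) = x * 16 * len k h := by ring
      _ ≤ _ := h5
  linarith

end Pool.Agent.U204.PT
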