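import Pool.Agent.U204.PT.Greedy
import Pool.Agent.U204.PT.Prob

/-!
# Below the threshold: all small perturbations have bounded representation functions
-/

set_option autoImplicit false

open Finset Filter Topology

namespace Pool.Agent.U204.PT

open Pool.Agent.U204.RF (R Mu mem_Mu)

theorem R_zero_le (A : Set ℕ) (n : ℕ) : R A 0 n ≤ 1 := by
  have : Mu A 0 n ⊆ {0} := by
    intro s hs
    rw [mem_Mu] at hs
    rw [mem_singleton]
    exact Multiset.card_eq_zero.1 hs.1
  exact (card_le_card this).trans (by simp)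

theorem R_empty (z : ℕ → ℕ) (j n : ℕ) : R (moved (↑(∅ : Finset ℕ) : Set ℕ) z) (j + 1) n = 0 := by
  refine card_eq_zero.2 (eq_empty_of_forall_notMem fun s hs => ?_)
  rw [mem_Mu] at hs
  have : ∃ x, x ∈ s := Multiset.card_pos_iff_exists_mem.1 (by omega)
  obtain ⟨x, hx⟩ := this
  obtain ⟨a, ha, _⟩ := hs.2.1 x hx
  simp at ha

theorem assemble (g U : ℕ) (V W M : ℕ → ℕ) (hVW : ∀ l, (g + 1) * V l ≤ W l)
    (hW : ∀ l, M l = 0 ∨ W l ≤ 2 ^ l)
    (hex : ∀ (l : ℕ) (F : Finset ℕ), F.card ≤ ∑ i ∈ range l, M i → ∃ L : List ℕ,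
      L.length = M l ∧ L.Nodup ∧ (∀ b ∈ L, 2 ^ l ≤ b ∧ b < 2 ^ (l + 1)) ∧
      ∀ n < 8 * (g + 1) * 2 ^ l, un g (W l) F n L ≤ U) :
    ∃ A : Set ℕ, (∀ (l N : ℕ), 2 ^ (l + 1) ≤ N → M l ≤ num A N) ∧
      ∀ z : ℕ → ℕ, (∀ a ∈ A, ∀ l, a < 2 ^ (l + 1) → z a ≤ V l) → ∀ j ≤ g + 1, ∀ n,
        R (moved A z) j n ≤ (8 * (g + 1) * U) ^ j := by
  classical
  have key : ∀ (l : ℕ) (F : Finset ℕ), ∃ L : List ℕ, F.card ≤ ∑ i ∈ range l, M i →
      L.length = M l ∧ L.Nodup ∧ (∀ b ∈ L, 2 ^ l ≤ b ∧ b < 2 ^ (l + 1)) ∧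
      ∀ n < 8 * (g + 1) * 2 ^ l, un g (W l) F n L ≤ U := by
    intro l F
    by_cases h : F.card ≤ ∑ i ∈ range l, M i
    · obtain ⟨L, hL⟩ := hex l F h
      exact ⟨L, fun _ => hL⟩
    · exact ⟨[], fun hc => absurd hc h⟩
  choose Lf hLf using key
  set Fs : ℕ → Finset ℕ := fun l => Nat.rec ∅ (fun l F => F ∪ (Lf l F).toFinset) l with hFs
  have hF0 : Fs 0 = ∅ := rfl
  have hFsucc : ∀ l, Fs (l + 1) = Fs l ∪ (Lf l (Fs l)).toFinset := fun l => rfl
  have hcard : ∀ l, (Fs l).card ≤ ∑ i ∈ range l, M i := by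
    intro l
    induction l with
    | zero => rw [hF0]; simp
    | succ l ih =>
      rw [hFsucc, sum_range_succ]
      refine (card_union_le _ _).trans (Nat.add_le_add ih ?_)
      rw [← (hLf l (Fs l) ih).1]
      exact List.toFinset_card_le _
  have hP := fun l => hLf l (Fs l) (hcard l)
  have hmono : Monotone Fs := monotone_nat_of_le_succ fun l => by
    rw [hFsucc]; exact subset_union_left
  have hlt : ∀ l, ∀ a ∈ Fs l, a < 2 ^ l := by
    intro l
    induction l with
    | zero => intro a ha; rw [hF0] at ha; simp at ha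
    | succ l ih =>
      intro a ha
      rw [hFsucc] at ha
      rcases mem_union.1 ha with ha | ha
      · have := ih a ha
        have h2 : 2 ^ (l + 1) = 2 ^ l + 2 ^ l := by ring
        omega
      · exact ((hP l).2.2.1 a (List.mem_toFinset.1 ha)).2
  set A : Set ℕ := {a | ∃ l, a ∈ Lf l (Fs l)} with hA
  have hAF : ∀ l, ∀ a ∈ A, a < 2 ^ l → a ∈ Fs l := by
    rintro l a ⟨i, hi⟩ hal
    have h1 := ((hP i).2.2.1 a hi).1
    have h2 : i < l := by
      by_contra hc
      have : 2 ^ l ≤ 2 ^ i := Nat.pow_le_pow_right (by norm_num) (by omega)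
      omega
    refine hmono (Nat.succ_le_of_lt h2) ?_
    rw [Nat.succ_eq_add_one, hFsucc]
    exact mem_union_right _ (List.mem_toFinset.2 hi)
  have hFA : ∀ l, ∀ a ∈ Fs l, a ∈ A := by
    intro l
    induction l with
    | zero => intro a ha; rw [hF0] at ha; simp at ha
    | succ l ih =>
      intro a ha
      rw [hFsucc] at ha
      rcases mem_union.1 ha with ha | ha
      · exact ih a ha
      · exact ⟨l, List.mem_toFinset.1 ha⟩
  refine ⟨A, ?_, ?_⟩
  · intro l N hN
    have h1 : (Lf l (Fs l)).toFinset.card = M l := by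
      rw [List.toFinset_card_of_nodup (hP l).2.1, (hP l).1]
    rw [← h1]
    refine card_le_card fun a ha => ?_
    have ha' := List.mem_toFinset.1 ha
    have h2 := (hP l).2.2.1 a ha'
    have h3 : 1 ≤ 2 ^ l := Nat.one_le_two_pow
    rw [mem_filter, mem_Icc]
    exact ⟨⟨by omega, by omega⟩, l, ha'⟩
  · intro z hz
    set K := 8 * (g + 1) * U with hK
    have hun : ∀ i n, un g (W i) (Fs i) n (Lf i (Fs i)) ≤
        if i ∈ Icc (Nat.log 2 n + 1 - 8 * (g + 1)) (Nat.log 2 n) then U else 0 := by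
      intro i n
      by_cases h0 : un g (W i) (Fs i) n (Lf i (Fs i)) = 0
      · rw [h0]; exact Nat.zero_le _
      have hM : M i ≠ 0 := by
        intro hM
        have : Lf i (Fs i) = [] := List.length_eq_zero_iff.1 ((hP i).1.trans hM)
        rw [this] at h0
        exact h0 rfl
      have hWi := (hW i).resolve_left hM
      have h1 : ¬ (n < 2 ^ i ∨ (2 * g + 1) * 2 ^ (i + 1) + W i < n) := by
        intro hc
        refine h0 (un_eq_zero g (W i) (Fs i) n (2 ^ i) (2 ^ (i + 1)) ?_ hc _ ?_)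
        · intro a ha
          have h2 : 2 ^ (i + 1) = 2 ^ i + 2 ^ i := by ring
          have := hlt i a ha
          omega
        · intro b hb
          have := (hP i).2.2.1 b hb
          exact ⟨this.1, this.2.le⟩
      rw [not_or, not_lt, not_lt] at h1
      obtain ⟨h1, h2⟩ := h1
      have h3 : n < 8 * (g + 1) * 2 ^ i := by
        have h4 : (2 * g + 1) * 2 ^ (i + 1) + 2 ^ i = (4 * g + 3) * 2 ^ i := by ring
        have h5 : (4 * g + 3) * 2 ^ i < 8 * (g + 1) * 2 ^ i :=
          Nat.mul_lt_mul_of_pos_right (by omega) (by positivity)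
        omega
      have h4 : n < 2 ^ (8 * (g + 1) + i) := by
        rw [pow_add]
        refine h3.trans_le (Nat.mul_le_mul_right _ ?_)
        exact Nat.lt_two_pow_self.le
      have h5 : Nat.log 2 n < 8 * (g + 1) + i := Nat.log_lt_of_lt_pow (by
        have : 1 ≤ 2 ^ i := Nat.one_le_two_pow
        omega) h4
      have h6 : i ≤ Nat.log 2 n := Nat.le_log_of_pow_le (by norm_num) h1
      rw [if_pos (mem_Icc.2 ⟨by omega, h6⟩)]
      exact (hP i).2.2.2 n h3
    have hsum : ∀ l n, ∑ i ∈ range l, un g (W i) (Fs i) n (Lf i (Fs i)) ≤ K := by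
      intro l n
      calc ∑ i ∈ range l, un g (W i) (Fs i) n (Lf i (Fs i))
          ≤ ∑ i ∈ range l, if i ∈ Icc (Nat.log 2 n + 1 - 8 * (g + 1)) (Nat.log 2 n) then U else 0 :=
            sum_le_sum fun i _ => hun i n
        _ = ∑ i ∈ (range l).filter fun i =>
              i ∈ Icc (Nat.log 2 n + 1 - 8 * (g + 1)) (Nat.log 2 n), U := by rw [sum_filter]
        _ = ((range l).filter fun i =>
              i ∈ Icc (Nat.log 2 n + 1 - 8 * (g + 1)) (Nat.log 2 n)).card * U := by
            rw [sum_const, smul_eq_mul]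
        _ ≤ (Icc (Nat.log 2 n + 1 - 8 * (g + 1)) (Nat.log 2 n)).card * U := by
            refine Nat.mul_le_mul_right _ (card_le_card fun i hi => (mem_filter.1 hi).2)
        _ ≤ 8 * (g + 1) * U := by
            refine Nat.mul_le_mul_right _ ?_
            rw [Nat.card_Icc]
            omega
    have hfin : ∀ j ≤ g + 1, ∀ l n, R (moved (↑(Fs l) : Set ℕ) z) j n ≤ K ^ j := by
      intro j
      induction j with
      | zero => intro _ l n; rw [pow_zero]; exact R_zero_le _ _
      | succ j ih =>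
        intro hj l n
        have ih' := ih (by omega)
        have hstep : ∀ l, R (moved (↑(Fs l) : Set ℕ) z) (j + 1) n ≤
            K ^ j * ∑ i ∈ range l, un g (W i) (Fs i) n (Lf i (Fs i)) := by
          intro l
          induction l with
          | zero =>
            rw [hF0, R_empty]
            exact Nat.zero_le _
          | succ l ihl =>
            have h1 := R_list g (W l) (V l) (Fs l) z (hVW l) j (by omega) (K ^ j) n (Lf l (Fs l))
              (by
                intro a ha
                rw [← hFsucc] at ha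
                exact hz a (hFA (l + 1) a ha) l (hlt (l + 1) a ha))
              (by
                intro m
                rw [← hFsucc]
                exact ih' (l + 1) m)
            rw [← hFsucc] at h1
            rw [sum_range_succ, mul_add]
            omega
        calc R (moved (↑(Fs l) : Set ℕ) z) (j + 1) n ≤ K ^ j * _ := hstep l
          _ ≤ K ^ j * K := Nat.mul_le_mul_left _ (hsum l n)
          _ = K ^ (j + 1) := (pow_succ K j).symm
    intro j hj n
    refine le_trans ?_ (hfin j hj (n + 1) n)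
    refine card_le_card fun s hs => ?_
    rw [mem_Mu] at hs ⊢
    refine ⟨hs.1, fun x hx => ?_, hs.2.2⟩
    obtain ⟨a, ha, hxa⟩ := hs.2.1 x hx
    refine ⟨a, ?_, hxa⟩
    have h1 : x ≤ s.sum := Multiset.le_sum_of_mem hx
    have h2 : n + 1 < 2 ^ (n + 1) := Nat.lt_two_pow_self
    exact mem_coe.2 (hAF (n + 1) a ha (by have := hs.2.2; omega))

end Pool.Agent.U204.PT
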