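import Pool.Agent.U204.PT.Laws

/-!
# Random perturbations above the threshold
-/

set_option autoImplicit false

open Finset Filter MeasureTheory ProbabilityTheory Topology

namespace Pool.Agent.U204.PT

open Pool.Agent.U204.RF (R Mu mem_Mu)

/-- the sequence of scales -/
theorem exists_scales (h : ℕ) (g : ℕ → ℝ)
    (hg' : ∀ ε : ℝ, 0 < ε → ∃ᶠ N : ℕ in atTop, g N ≤ (N : ℝ) ^ ε) :
    ∃ Nj : ℕ → ℕ, StrictMono Nj ∧ (∀ j, (Nj j) ^ (2 * h) ≤ Nj (j + 1)) ∧
      (∀ j, (j + 2) ^ (j + 2) ≤ Nj (j + 1)) ∧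
      ∀ j, g (Nj j) ≤ (Nj j : ℝ) ^ (1 / ((j : ℝ) + 1)) := by
  have key : ∀ j b : ℕ, ∃ N, b ≤ N ∧ g N ≤ (N : ℝ) ^ (1 / ((j : ℝ) + 1)) := by
    intro j b
    obtain ⟨N, h1, h2⟩ := ((hg' (1 / ((j : ℝ) + 1)) (by positivity)).and_eventually
      (eventually_ge_atTop b)).exists
    exact ⟨N, h2, h1⟩
  choose F hF1 hF2 using key
  set Nj : ℕ → ℕ := fun j => Nat.rec (F 0 2)
    (fun j N => F (j + 1) (N ^ (2 * h) + (j + 2) ^ (j + 2) + N + 1)) j with hNj
  have hs : ∀ j, Nj (j + 1) = F (j + 1) ((Nj j) ^ (2 * h) + (j + 2) ^ (j + 2) + Nj j + 1) :=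
    fun j => rfl
  have hb : ∀ j, (Nj j) ^ (2 * h) + (j + 2) ^ (j + 2) + Nj j + 1 ≤ Nj (j + 1) := by
    intro j
    rw [hs]
    exact hF1 _ _
  refine ⟨Nj, strictMono_nat_of_lt_succ fun j => ?_, fun j => ?_, fun j => ?_, fun j => ?_⟩
  · have := hb j
    omega
  · have := hb j
    omega
  · have := hb j
    generalize (Nj j) ^ (2 * h) = t at this
    omega
  · cases j with
    | zero => exact hF2 0 2
    | succ j =>
      rw [hs]
      exact hF2 (j + 1) _

theorem thresh (h : ℕ) (hh : 2 ≤ h) (g : ℕ → ℝ) (hg : ∀ N, 0 < g N)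
    (hg' : ∀ ε : ℝ, 0 < ε → ∃ᶠ N : ℕ in atTop, g N ≤ (N : ℝ) ^ ε) :
    ∃ w : ℕ → ℕ, (∀ ε : ℝ, 0 < ε → ∀ᶠ a : ℕ in atTop, (w a : ℝ) ≤ (a : ℝ) ^ ε) ∧
      ∀ (A : Set ℕ) (c : ℝ), 0 < c →
      (∀ᶠ N : ℕ in atTop, c * (N : ℝ) ^ (1 / (h : ℝ)) / g N ≤ num A N) →
      ∀ {Ω : Type} [MeasurableSpace Ω] (μ : Measure Ω) [IsProbabilityMeasure μ] (Z : ℕ → Ω → ℕ),
      (∀ i, Measurable (Z i)) → iIndepFun Z μ →
      (∀ a ∈ A, ∀ z ≤ w a, 1 / ((w a : ℝ) + 1) ≤ μ.real {ω | Z a ω = z}) →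
      ∀ᵐ ω ∂μ, ∀ K n₀ : ℕ, ∃ n ≥ n₀, K ≤ R (moved A fun a => Z a ω) h n := by
  classical
  have hh0 : (0 : ℝ) < h := by
    have : 0 < h := by omega
    exact_mod_cast this
  obtain ⟨Nj, hmono, hpow, hbig, hgN⟩ := exists_scales h g hg'
  have hex : ∀ a, ∃ j, a ≤ Nj j := fun a => ⟨a, hmono.le_apply⟩
  set J : ℕ → ℕ := fun a => Nat.find (hex a) with hJ
  have hJ1 : ∀ a j, a ≤ Nj j → J a ≤ j := fun a j haj => Nat.find_min' (hex a) haj
  have hJ2 : ∀ a j, Nj j < a → j < J a := by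
    intro a j haj
    by_contra hc
    have h1 : a ≤ Nj (J a) := Nat.find_spec (hex a)
    have h2 : Nj (J a) ≤ Nj j := hmono.monotone (by omega)
    omega
  set Θ : ℝ := 2 * h * (h + 1) with hΘ
  have hΘ0 : 0 < Θ := by positivity
  set w : ℕ → ℕ := fun a => ⌈(a : ℝ) ^ (Θ / ((J a : ℝ) + 1))⌉₊ with hw
  refine ⟨w, ?_, ?_⟩
  · intro ε hε
    obtain ⟨j₀, hj₀⟩ := exists_nat_gt (Θ / (ε / 2))
    have ht : Tendsto (fun a : ℕ => (a : ℝ) ^ (ε / 2)) atTop atTop :=
      (tendsto_rpow_atTop (by linarith)).comp tendsto_natCast_atTop_atTop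
    filter_upwards [eventually_gt_atTop (Nj j₀), ht.eventually_ge_atTop 2,
      eventually_ge_atTop 1] with a ha1 ha2 ha3
    have h1 := hJ2 a j₀ ha1
    have ha3' : (1 : ℝ) ≤ a := by exact_mod_cast ha3
    have h2 : Θ / ((J a : ℝ) + 1) ≤ ε / 2 := by
      rw [div_le_iff₀ (by positivity)]
      rw [div_lt_iff₀ (by linarith)] at hj₀
      have h3 : (j₀ : ℝ) ≤ J a := by exact_mod_cast h1.le
      nlinarith
    have h3 : (a : ℝ) ^ (Θ / ((J a : ℝ) + 1)) ≤ (a : ℝ) ^ (ε / 2) :=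
      Real.rpow_le_rpow_of_exponent_le ha3' h2
    have h4 : (w a : ℝ) ≤ (a : ℝ) ^ (ε / 2) + 1 := by
      have := Nat.ceil_lt_add_one (a := (a : ℝ) ^ (Θ / ((J a : ℝ) + 1))) (by positivity)
      simp only [hw]
      linarith
    have h5 : (a : ℝ) ^ ε = (a : ℝ) ^ (ε / 2) * (a : ℝ) ^ (ε / 2) := by
      rw [← Real.rpow_add (by linarith)]
      congr 1
      ring
    rw [h5]
    nlinarith
  intro A c hc hA Ω _ μ _ Z hZ hind hlaw
  have main : ∀ K : ℕ, ∀ᵐ ω ∂μ, ∀ n₀ : ℕ, ∃ n ≥ n₀, K ≤ R (moved A fun a => Z a ω) h n := by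
    intro K
    set k := K + 1 with hk
    have key := ae_of_scales h hh A (fun _ => (K : ℝ)) μ Z hZ hind ?_
    · filter_upwards [key] with ω hω n₀
      obtain ⟨n, hn, hn'⟩ := hω n₀
      exact ⟨n, hn, by exact_mod_cast hn'⟩
    intro B m₁
    set L := len k h with hL
    -- everything holds for large `j`
    have hNj : Tendsto Nj atTop atTop := hmono.tendsto_atTop
    have hxj : Tendsto (fun j => (Nj j : ℝ)) atTop atTop := tendsto_natCast_atTop_atTop.comp hNj
    have hs : Tendsto (fun j : ℕ => 1 / ((j : ℝ) + 1)) atTop (𝓝 0) :=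
      tendsto_one_div_add_atTop_nhds_zero_nat
    have e1 : ∀ᶠ j : ℕ in atTop, 1 / ((j : ℝ) + 1) ≤ 1 / (4 * h) :=
      hs.eventually_le_const (by positivity)
    have e2 : ∀ᶠ j : ℕ in atTop, Θ * L * (1 / ((j : ℝ) + 1)) ≤ 1 / (4 * h) := by
      have := hs.const_mul (Θ * L)
      rw [mul_zero] at this
      exact this.eventually_le_const (by positivity)
    have e3 : ∀ᶠ j : ℕ in atTop, 4 ≤ c * (Nj j : ℝ) ^ (1 / (4 * (h : ℝ))) :=
      (((tendsto_rpow_atTop (by positivity)).comp hxj).const_mul_atTop hc).eventually_ge_atTop 4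
    have e4 : ∀ᶠ j : ℕ in atTop, (low k h + m₁ : ℕ) ≤ (Nj j : ℝ) ^ (1 / (2 * (h : ℝ))) :=
      ((tendsto_rpow_atTop (by positivity)).comp hxj).eventually_ge_atTop _
    have e5 : ∀ᶠ j : ℕ in atTop, B * L * 3 ^ L ≤ c * (Nj j : ℝ) ^ (1 / (2 * (h : ℝ))) :=
      (((tendsto_rpow_atTop (by positivity)).comp hxj).const_mul_atTop hc).eventually_ge_atTop _
    have e6 : ∀ᶠ j : ℕ in atTop, cst k h * (1 / c ^ h + 1) ≤ (j : ℝ) + 1 :=
      (tendsto_natCast_atTop_atTop.atTop_add tendsto_const_nhds).eventually_ge_atTop _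
    have e7 := hNj.eventually hA
    obtain ⟨j, f1, f2, f3, f4, f5, f6, f7, hj1⟩ := (e1.and (e2.and (e3.and (e4.and (e5.and (e6.and
      (e7.and (eventually_ge_atTop 1)))))))).exists
    set N := Nj j with hN
    set s : ℝ := 1 / ((j : ℝ) + 1) with hsdef
    have hs0 : 0 < s := by positivity
    obtain ⟨i, hi⟩ : ∃ i, j = i + 1 := ⟨j - 1, by omega⟩
    have hNbig : (j + 1) ^ (j + 1) ≤ N := by
      rw [hN, hi]
      exact hbig i
    have hN1 : 1 ≤ N := (Nat.one_le_pow _ _ (by omega)).trans hNbig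
    set x : ℝ := (N : ℝ) with hx
    have hx1 : 1 ≤ x := by rw [hx]; exact_mod_cast hN1
    have hx0 : 0 < x := by linarith
    set m := num A N with hm
    have hm1 : c * x ^ (1 / (h : ℝ) - s) ≤ m := by
      refine le_trans ?_ f7
      rw [le_div_iff₀ (hg N)]
      have h1 := hgN j
      rw [← hN, ← hx, ← hsdef] at h1
      calc c * x ^ (1 / (h : ℝ) - s) * g N ≤ c * x ^ (1 / (h : ℝ) - s) * x ^ s := by gcongr
        _ = c * x ^ (1 / (h : ℝ)) := by
          rw [mul_assoc, ← Real.rpow_add hx0]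
          congr 2
          ring
    have hm2 : c * x ^ (3 / (4 * (h : ℝ))) ≤ m := by
      refine le_trans ?_ hm1
      have : 3 / (4 * (h : ℝ)) ≤ 1 / (h : ℝ) - s := by
        have h1 : 3 / (4 * (h : ℝ)) = 1 / h - 1 / (4 * h) := by field_simp; ring
        rw [h1]
        linarith
      gcongr
    have hm3 : 4 * x ^ (1 / (2 * (h : ℝ))) ≤ m := by
      refine le_trans ?_ hm2
      have h1 : x ^ (3 / (4 * (h : ℝ))) = x ^ (1 / (4 * (h : ℝ))) * x ^ (1 / (2 * (h : ℝ))) := by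
        rw [← Real.rpow_add hx0]
        congr 1
        field_simp
        norm_num
      rw [h1, ← mul_assoc]
      gcongr
    have hmpos : (0 : ℝ) < m := by
      refine lt_of_lt_of_le ?_ hm3
      positivity
    -- the window
    have hwin : ((cst k h * (N / m ^ h + 1) : ℕ) : ℝ) ≤ x ^ ((h + 1) * s : ℝ) := by
      set y := x ^ s with hy
      have hy1 : (j : ℝ) + 1 ≤ y := by
        have h1 : ((j : ℝ) + 1) ^ (j + 1) ≤ x := by
          rw [hx]
          exact_mod_cast hNbig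
        calc (j : ℝ) + 1 = (((j : ℝ) + 1) ^ (j + 1)) ^ s := by
              rw [← Real.rpow_natCast, ← Real.rpow_mul (by positivity), hsdef]
              push_cast
              rw [mul_one_div_cancel (by positivity), Real.rpow_one]
          _ ≤ y := by rw [hy]; gcongr
      have hy0 : 1 ≤ y := by
        have : (0 : ℝ) ≤ j := Nat.cast_nonneg j
        linarith
      have h2 : ((N / m ^ h : ℕ) : ℝ) ≤ 1 / c ^ h * y ^ h := by
        have h3 : c ^ h * x ≤ (m : ℝ) ^ h * y ^ h := by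
          calc c ^ h * x = (c * x ^ (1 / (h : ℝ) - s)) ^ h * y ^ h := by
                rw [mul_pow, mul_assoc, hy, ← mul_pow, ← Real.rpow_add hx0,
                  ← Real.rpow_natCast (x ^ (1 / (h : ℝ) - s + s)), ← Real.rpow_mul hx0.le,
                  sub_add_cancel, one_div_mul_cancel hh0.ne', Real.rpow_one]
            _ ≤ (m : ℝ) ^ h * y ^ h := by gcongr
        calc ((N / m ^ h : ℕ) : ℝ) ≤ (N : ℝ) / ((m ^ h : ℕ) : ℝ) := Nat.cast_div_le
          _ = x / (m : ℝ) ^ h := by push_cast; rfl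
          _ ≤ 1 / c ^ h * y ^ h := by
            rw [div_le_iff₀ (by positivity), one_div, ← div_eq_inv_mul, div_mul_eq_mul_div,
              le_div_iff₀ (by positivity)]
            linarith
      have h4 : (1 : ℝ) ≤ y ^ h := one_le_pow₀ hy0
      calc ((cst k h * (N / m ^ h + 1) : ℕ) : ℝ) = cst k h * (((N / m ^ h : ℕ) : ℝ) + 1) := by
            push_cast; rfl
        _ ≤ cst k h * (1 / c ^ h * y ^ h + y ^ h) := by gcongr
        _ = (cst k h * (1 / c ^ h + 1)) * y ^ h := by ring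
        _ ≤ y * y ^ h := by gcongr; exact f6.trans hy1
        _ = x ^ ((h + 1) * s : ℝ) := by
          rw [← pow_succ', hy, ← Real.rpow_natCast, ← Real.rpow_mul hx0.le]
          congr 1
          push_cast
          ring
    refine ⟨k, N, m, 1 / (x ^ (Θ * s) + 2), by omega, ?_, ?_, le_rfl, by positivity, ?_, ?_, ?_, ?_⟩
    · have h1 : ((low k h + m₁ : ℕ) : ℝ) ≤ m := by
        refine f4.trans (le_trans ?_ hm3)
        have : 0 ≤ x ^ (1 / (2 * (h : ℝ))) := by positivity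
        show x ^ (1 / (2 * (h : ℝ))) ≤ _
        linarith
      have h2 : low k h + m₁ ≤ m := by exact_mod_cast h1
      omega
    · have h1 : ((low k h + m₁ : ℕ) : ℝ) ≤ m := by
        refine f4.trans (le_trans ?_ hm3)
        have : 0 ≤ x ^ (1 / (2 * (h : ℝ))) := by positivity
        show x ^ (1 / (2 * (h : ℝ))) ≤ _
        linarith
      have h2 : low k h + m₁ ≤ m := by exact_mod_cast h1
      omega
    · rw [div_le_one (by positivity)]
      have : 0 < x ^ (Θ * s) := by positivity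
      linarith
    · have h1 : 1 ≤ x ^ (Θ * s) := Real.one_le_rpow hx1 (by positivity)
      have h2 : 1 / (3 * x ^ (Θ * s)) ≤ 1 / (x ^ (Θ * s) + 2) :=
        one_div_le_one_div_of_le (by positivity) (by linarith)
      have h3 : (1 / (3 * x ^ (Θ * s))) ^ L = 1 / (3 ^ L * x ^ (Θ * L * s)) := by
        rw [one_div_pow, mul_pow, ← Real.rpow_natCast (x ^ (Θ * s)), ← Real.rpow_mul hx0.le,
          show Θ * s * (L : ℝ) = Θ * L * s by ring]
      have h4 : x ^ (Θ * L * s) ≤ x ^ (1 / (4 * (h : ℝ))) :=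
        Real.rpow_le_rpow_of_exponent_le hx1 f2
      have h5 : x ^ (3 / (4 * (h : ℝ))) = x ^ (1 / (4 * (h : ℝ))) * x ^ (1 / (2 * (h : ℝ))) := by
        rw [← Real.rpow_add hx0]
        congr 1
        field_simp
        norm_num
      calc B * L ≤ c * x ^ (1 / (2 * (h : ℝ))) / 3 ^ L := by
            rw [le_div_iff₀ (by positivity)]
            exact f5
        _ = 1 / (3 ^ L * x ^ (1 / (4 * (h : ℝ)))) * (c * x ^ (3 / (4 * (h : ℝ)))) := by
            rw [h5]
            field_simp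
        _ ≤ 1 / (3 ^ L * x ^ (Θ * L * s)) * m := by gcongr
        _ = (1 / (3 * x ^ (Θ * s))) ^ L * m := by rw [h3]
        _ ≤ (1 / (x ^ (Θ * s) + 2)) ^ L * m := by gcongr
    · intro n _ _
      rw [hk]
      push_cast
      linarith
    · intro a haA ha1 ha2 z hz
      have h1 : (m : ℝ) ≤ 2 * a := by
        have : m ≤ 2 * a := by omega
        exact_mod_cast this
      have h2 : x ^ (1 / (2 * (h : ℝ))) < a := by
        have : 0 < x ^ (1 / (2 * (h : ℝ))) := by positivity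
        linarith
      have ha0 : (0 : ℝ) < a := lt_of_le_of_lt (by positivity) h2
      have h3 : (Nj i : ℝ) ≤ x ^ (1 / (2 * (h : ℝ))) := by
        have h4 : ((Nj i : ℝ)) ^ (2 * h) ≤ x := by
          rw [hx, hN, hi]
          exact_mod_cast hpow i
        calc (Nj i : ℝ) = ((Nj i : ℝ) ^ (2 * h)) ^ (1 / (2 * (h : ℝ))) := by
              rw [← Real.rpow_natCast, ← Real.rpow_mul (by positivity)]
              push_cast
              rw [mul_one_div_cancel (by positivity), Real.rpow_one]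
          _ ≤ _ := by gcongr
      have h4 : Nj i < a := by exact_mod_cast h3.trans_lt h2
      have h5 : J a = j := by
        have := hJ2 a i h4
        have := hJ1 a j ha2
        omega
      have h6 : (w a : ℝ) = ⌈(a : ℝ) ^ (Θ * s)⌉₊ := by
        simp only [hw, h5]
        rw [hsdef, mul_one_div]
      have h7 : z ≤ w a := by
        have h8 : (z : ℝ) ≤ w a := by
          have h9 : (z : ℝ) ≤ ((cst k h * (N / m ^ h + 1) : ℕ) : ℝ) := by exact_mod_cast hz
          refine h9.trans (hwin.trans ?_)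
          rw [h6]
          refine le_trans ?_ (Nat.le_ceil _)
          calc x ^ ((h + 1) * s : ℝ) = (x ^ (1 / (2 * (h : ℝ)))) ^ (Θ * s) := by
                rw [← Real.rpow_mul hx0.le]
                congr 1
                rw [hΘ]
                field_simp
            _ ≤ (a : ℝ) ^ (Θ * s) := by gcongr
        exact_mod_cast h8
      refine le_trans ?_ (hlaw a haA z h7)
      refine one_div_le_one_div_of_le (by positivity) ?_
      have h8 : (w a : ℝ) < (a : ℝ) ^ (Θ * s) + 1 := by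
        rw [h6]
        exact Nat.ceil_lt_add_one (by positivity)
      have h9 : (a : ℝ) ^ (Θ * s) ≤ x ^ (Θ * s) := by
        have : (a : ℝ) ≤ x := by rw [hx]; exact_mod_cast ha2
        gcongr
      linarith
  rw [ae_all_iff]
  exact main

end Pool.Agent.U204.PT
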