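import Pool.Agent.U204.PT.Thresh
import Pool.Agent.U204.PT.Params

/-!
# Uniform perturbations; the exact criterion
-/

set_option autoImplicit false

open Finset Filter MeasureTheory ProbabilityTheory Topology

namespace Pool.Agent.U204.PT

open Pool.Agent.U204.RF (R Mu mem_Mu)

/-- the product of the uniform probability measures on `{0, …, w n}` -/
noncomputable def unif (w : ℕ → ℕ) : Measure (∀ n, Fin (w n + 1)) :=
  Measure.infinitePi fun n => (PMF.uniformOfFintype (Fin (w n + 1))).toMeasure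

instance (w : ℕ → ℕ) : IsProbabilityMeasure (unif w) := by
  unfold unif
  infer_instance

theorem unif_indep (w : ℕ → ℕ) :
    iIndepFun (fun n (x : ∀ n, Fin (w n + 1)) => (x n : ℕ)) (unif w) :=
  iIndepFun_infinitePi (P := fun n => (PMF.uniformOfFintype (Fin (w n + 1))).toMeasure)
    (X := fun n (x : Fin (w n + 1)) => (x : ℕ)) (fun n => measurable_from_top)

theorem unif_meas (w : ℕ → ℕ) (n : ℕ) :
    Measurable (fun x : ∀ n, Fin (w n + 1) => (x n : ℕ)) :=
  (measurable_from_top (f := fun x : Fin (w n + 1) => (x : ℕ))).comp (measurable_pi_apply n)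

theorem unif_law (w : ℕ → ℕ) (n z : ℕ) (hz : z ≤ w n) :
    1 / ((w n : ℝ) + 1) ≤ (unif w).real {x : ∀ n, Fin (w n + 1) | (x n : ℕ) = z} := by
  have h1 : (unif w).map (fun x => x n) = (PMF.uniformOfFintype (Fin (w n + 1))).toMeasure :=
    (measurePreserving_eval_infinitePi _ n).map_eq
  have h2 : (unif w) {x : ∀ n, Fin (w n + 1) | (x n : ℕ) = z} =
      (PMF.uniformOfFintype (Fin (w n + 1))).toMeasure {y : Fin (w n + 1) | (y : ℕ) = z} := by
    rw [← h1, Measure.map_apply (measurable_pi_apply n) MeasurableSet.of_discrete]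
    rfl
  have h3 : ({⟨z, Nat.lt_succ_of_le hz⟩} : Set (Fin (w n + 1))) ⊆
      {y : Fin (w n + 1) | (y : ℕ) = z} := by
    intro y hy
    rw [Set.mem_singleton_iff] at hy
    rw [hy]
    rfl
  have h4 : ENNReal.ofReal (1 / ((w n : ℝ) + 1)) ≤
      (unif w) {x : ∀ n, Fin (w n + 1) | (x n : ℕ) = z} := by
    rw [h2]
    refine le_trans ?_ (measure_mono h3)
    rw [PMF.toMeasure_apply_singleton _ _ (measurableSet_singleton _),
      PMF.uniformOfFintype_apply, Fintype.card_fin, one_div,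
      ENNReal.ofReal_inv_of_pos (by positivity)]
    apply le_of_eq
    congr 1
    rw [← Nat.cast_succ, ENNReal.ofReal_natCast]
  rw [measureReal_def]
  exact (ENNReal.ofReal_le_iff_le_toReal (measure_ne_top _ _)).1 h4

theorem num_diff (A : Set ℕ) (a₀ N : ℕ) : num A N ≤ num (A \ Set.Iio a₀) N + a₀ := by
  classical
  have h1 : num A N = ((Icc 1 N).filter fun a => a ∈ A).card := by unfold num; congr
  have h2 : num (A \ Set.Iio a₀) N = ((Icc 1 N).filter fun a => a ∈ A \ Set.Iio a₀).card := by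
    unfold num; congr
  rw [h1, h2]
  have h3 : ((Icc 1 N).filter fun a => a ∈ A) ⊆
      ((Icc 1 N).filter fun a => a ∈ A \ Set.Iio a₀) ∪ range a₀ := by
    intro a ha
    rw [mem_filter] at ha
    rw [mem_union, mem_filter, mem_range, Set.mem_diff, Set.mem_Iio]
    by_cases h : a < a₀
    · exact Or.inr h
    · exact Or.inl ⟨ha.1, ha.2, h⟩
  calc _ ≤ _ := card_le_card h3
    _ ≤ _ := card_union_le _ _
    _ = _ := by rw [card_range]

/-- **The exact criterion.** -/
theorem criterion (h : ℕ) (hh : 2 ≤ h) (g : ℕ → ℝ) (hg : ∀ N, 0 < g N) :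
    (∀ ε : ℝ, 0 < ε → ∃ᶠ N : ℕ in atTop, g N ≤ (N : ℝ) ^ ε) ↔
      ∃ w : ℕ → ℕ, (∀ ε : ℝ, 0 < ε → ∀ᶠ a : ℕ in atTop, (w a : ℝ) ≤ (a : ℝ) ^ ε) ∧
        ∀ (A : Set ℕ) (c : ℝ), 0 < c →
          (∀ᶠ N : ℕ in atTop, c * (N : ℝ) ^ (1 / (h : ℝ)) / g N ≤ num A N) →
          ∀ᵐ x ∂(unif w), ∀ K n₀ : ℕ, ∃ n ≥ n₀, K ≤ R (moved A fun a => (x a : ℕ)) h n := by
  constructor
  · intro hP
    obtain ⟨w, hw, hA⟩ := thresh h hh g hg hP
    refine ⟨w, hw, fun A c hc hAc => ?_⟩
    exact hA A c hc hAc (unif w) (fun n (x : ∀ n, Fin (w n + 1)) => (x n : ℕ)) (unif_meas w)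
      (unif_indep w) (fun a _ z hz => unif_law w a z hz)
  · rintro ⟨w, hw, hA⟩
    by_contra hP
    push Not at hP
    obtain ⟨ε₀, hε₀, hε₁⟩ := hP
    have hh0 : (0 : ℝ) < h := by
      have : 0 < h := by omega
      exact_mod_cast this
    set ε := min ε₀ (1 / (2 * (h : ℝ))) with hε
    have hεpos : 0 < ε := lt_min hε₀ (by positivity)
    have hεle : ε ≤ 1 / (2 * (h : ℝ)) := min_le_right _ _
    obtain ⟨δ, hδ, A, K, hAcount, hAK⟩ := sharp h (by omega) ε hεpos
    obtain ⟨a₀, ha₀⟩ := eventually_atTop.1 (hw δ hδ)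
    have hgap : 0 < 1 / (h : ℝ) - ε := by
      have : 1 / (h : ℝ) = 2 * (1 / (2 * (h : ℝ))) := by field_simp
      have h1 : 0 < 1 / (2 * (h : ℝ)) := by positivity
      linarith
    have hpow : Tendsto (fun N : ℕ => (N : ℝ) ^ (1 / (h : ℝ) - ε)) atTop atTop :=
      (tendsto_rpow_atTop hgap).comp tendsto_natCast_atTop_atTop
    have hden : ∀ᶠ N : ℕ in atTop,
        1 / 2 * (N : ℝ) ^ (1 / (h : ℝ)) / g N ≤ num (A \ Set.Iio a₀) N := by
      filter_upwards [hAcount, hε₁, hpow.eventually_ge_atTop (2 * (a₀ : ℝ)),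
        eventually_ge_atTop 1] with N h1 h2 h3 h4
      have hN0 : (0 : ℝ) < N := by exact_mod_cast h4
      have hN1 : (1 : ℝ) ≤ N := by exact_mod_cast h4
      have h5 : (num A N : ℝ) ≤ num (A \ Set.Iio a₀) N + a₀ := by exact_mod_cast num_diff A a₀ N
      have h6 : (N : ℝ) ^ ε ≤ g N := by
        refine le_trans ?_ h2.le
        exact Real.rpow_le_rpow_of_exponent_le hN1 (min_le_left _ _)
      have h7 : (N : ℝ) ^ (1 / (h : ℝ)) / g N ≤ (N : ℝ) ^ (1 / (h : ℝ) - ε) := by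
        rw [div_le_iff₀ (hg N)]
        calc (N : ℝ) ^ (1 / (h : ℝ)) = (N : ℝ) ^ (1 / (h : ℝ) - ε) * (N : ℝ) ^ ε := by
              rw [← Real.rpow_add hN0, sub_add_cancel]
          _ ≤ _ := by gcongr
      calc 1 / 2 * (N : ℝ) ^ (1 / (h : ℝ)) / g N = 1 / 2 * ((N : ℝ) ^ (1 / (h : ℝ)) / g N) := by
            ring
        _ ≤ 1 / 2 * (N : ℝ) ^ (1 / (h : ℝ) - ε) := by gcongr
        _ ≤ num (A \ Set.Iio a₀) N := by linarith
    have hae := hA (A \ Set.Iio a₀) (1 / 2) (by norm_num) hden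
    have hall : ∀ x : ∀ n, Fin (w n + 1), ∀ n,
        R (moved (A \ Set.Iio a₀) fun a => (x a : ℕ)) h n ≤ K := by
      intro x n
      set z : ℕ → ℕ := fun a => if a < a₀ then 0 else (x a : ℕ) with hz
      refine le_trans (R_mono ?_ h n) (hAK z ?_ n)
      · rintro y ⟨a, ⟨haA, ha⟩, rfl⟩
        refine ⟨a, haA, ?_⟩
        simp only [hz, if_neg (show ¬ a < a₀ from ha)]
      · intro a haA
        by_cases ha : a < a₀
        · simp only [hz, if_pos ha, Nat.cast_zero]
          positivity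
        · simp only [hz, if_neg ha]
          refine le_trans ?_ (ha₀ a (by omega))
          exact_mod_cast Nat.lt_succ_iff.1 (x a).2
    have hfalse : ∀ᵐ _x ∂(unif w), False := by
      filter_upwards [hae] with x hx
      obtain ⟨n, _, hn⟩ := hx (K + 1) 0
      have := hall x n
      omega
    rw [ae_iff] at hfalse
    simp at hfalse

end Pool.Agent.U204.PT
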