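import Pool.Agent.U204.PT.Greedy2

/-!
# Sets all of whose small perturbations have representation functions of size `O(log n / L(n))`
-/

set_option autoImplicit false

open Finset Filter Topology

namespace Pool.Agent.U204.PT

open Pool.Agent.U204.RF (R Mu mem_Mu)

theorem geom_bound (ρ : ℝ) (h0 : 0 ≤ ρ) (h1 : ρ < 1) (l : ℕ) :
    ∑ i ∈ range (l + 1), ρ ^ (l - i) ≤ 1 / (1 - ρ) := by
  have e := sum_range_reflect (fun j => ρ ^ j) (l + 1)
  have e2 : ∑ i ∈ range (l + 1), ρ ^ (l - i) = ∑ j ∈ range (l + 1), ρ ^ j := by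
    rw [← e]
    refine sum_congr rfl fun i _ => ?_
    congr 1
  rw [e2, one_div, ← tsum_geometric_of_lt_one h0 h1]
  exact (summable_geometric_of_lt_one h0 h1).sum_le_tsum _ fun i _ => pow_nonneg h0 i

theorem upper (p : ℕ) (L : ℕ → ℝ) (B : ℝ) (hB : 2 ≤ B) (hmono : Monotone L)
    (hsq : ∀ᶠ n : ℕ in atTop, L (n ^ 2) ≤ B * L n) (hinf : Tendsto L atTop atTop)
    (hlog : ∀ᶠ n : ℕ in atTop, L n ≤ Real.log n / (2 * ((p : ℝ) + 2))) :
    ∃ C : ℝ, 0 < C ∧ ∃ (A : Set ℕ) (n₀ : ℕ),
      (∀ᶠ N : ℕ in atTop, (N : ℝ) ^ (1 / ((p : ℝ) + 2)) * Real.exp (-L N) ≤ num A N) ∧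
      ∀ z : ℕ → ℕ, (∀ a ∈ A, (z a : ℝ) ≤ Real.exp (1 / (2 * B * (1 + B)) * L a)) → ∀ n ≥ n₀,
        (R (moved A z) (p + 2) n : ℝ) ≤ C * (Real.log n / L n) := by
  set h : ℝ := (p : ℝ) + 2 with hh
  have hp0 : (0 : ℝ) ≤ p := Nat.cast_nonneg p
  have hh2 : 2 ≤ h := by linarith
  have hB0 : 0 < B := by linarith
  set t := Real.log 2 with ht
  have ht0 : 0 < t := Real.log_pos (by norm_num)
  have h2l : ∀ l : ℕ, (2 : ℝ) ^ l = Real.exp (l * t) := by
    intro l
    rw [Real.exp_nat_mul, ht, Real.exp_log (by norm_num)]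
  set Λ : ℕ → ℝ := fun l => L (2 ^ l) with hΛ
  set δ : ℝ := 1 / (2 * B * (1 + B)) with hδ
  have hδ0 : 0 < δ := by positivity
  have hδB : δ * (1 + B) = 1 / (2 * B) := by
    rw [hδ]
    field_simp
  set ρ : ℝ := Real.exp (-(t / (2 * h))) with hρ
  have hρ0 : 0 < ρ := Real.exp_pos _
  have hρ1 : ρ < 1 := by
    rw [hρ, ← Real.exp_zero, Real.exp_lt_exp, Left.neg_neg_iff]
    positivity
  set C₅ : ℝ := 5 / (1 - ρ) with hC₅
  have hC₅0 : 0 < C₅ := div_pos (by norm_num) (by linarith)
  set C₆ : ℝ := 2 * h * (h + 1) * C₅ ^ (p + 2) with hC₆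
  set C₇ : ℝ := 2 * h * (h + 1) * C₅ ^ (p + 1) with hC₇
  -- the thresholds
  have htwo : Tendsto (fun i : ℕ => 2 ^ i) atTop atTop :=
    tendsto_pow_atTop_atTop_of_one_lt (by norm_num)
  have hΛinf : Tendsto Λ atTop atTop := hinf.comp htwo
  have c1 : ∀ᶠ i : ℕ in atTop, Λ (2 * i) ≤ B * Λ i := by
    filter_upwards [htwo.eventually hsq] with i hi
    have e : 2 ^ (2 * i) = (2 ^ i) ^ 2 := by rw [← pow_mul, mul_comm]
    simp only [hΛ, e]
    exact hi
  have c2 : ∀ᶠ i : ℕ in atTop, Λ i ≤ i * t / (2 * h) := by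
    filter_upwards [htwo.eventually hlog] with i hi
    have e : Real.log ((2 ^ i : ℕ) : ℝ) = i * t := by
      push_cast
      rw [Real.log_pow]
    rw [e] at hi
    exact hi
  have c3 : ∀ᶠ i : ℕ in atTop, C₆ ≤ Real.exp (Λ i / B) :=
    (Real.tendsto_exp_atTop.comp (hΛinf.atTop_div_const hB0)).eventually_ge_atTop _
  have c4 : ∀ᶠ i : ℕ in atTop, C₇ ≤ Real.exp (i * t / (2 * h)) := by
    have : Tendsto (fun i : ℕ => (i : ℝ) * t / (2 * h)) atTop atTop :=
      (tendsto_natCast_atTop_atTop.atTop_mul_const ht0).atTop_div_const (by positivity)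
    exact (Real.tendsto_exp_atTop.comp this).eventually_ge_atTop _
  have c5 := hΛinf.eventually_ge_atTop 1
  obtain ⟨l₁, hl₁⟩ := eventually_atTop.1 (c1.and (c2.and (c3.and (c4.and c5))))
  set l₀ := max l₁ (48 * (p + 2)) with hl₀
  have d1 : ∀ i, l₀ ≤ i → Λ (2 * i) ≤ B * Λ i := fun i hi => (hl₁ i ((le_max_left _ _).trans hi)).1
  have d2 : ∀ i : ℕ, l₀ ≤ i → Λ i ≤ i * t / (2 * h) := fun i hi =>
    (hl₁ i ((le_max_left _ _).trans hi)).2.1
  have d3 : ∀ i : ℕ, l₀ ≤ i → C₆ ≤ Real.exp (Λ i / B) := fun i hi =>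
    (hl₁ i ((le_max_left _ _).trans hi)).2.2.1
  have d4 : ∀ i : ℕ, l₀ ≤ i → C₇ ≤ Real.exp (i * t / (2 * h)) := fun i hi =>
    (hl₁ i ((le_max_left _ _).trans hi)).2.2.2.1
  have d5 : ∀ i : ℕ, l₀ ≤ i → 1 ≤ Λ i := fun i hi =>
    (hl₁ i ((le_max_left _ _).trans hi)).2.2.2.2
  have hΛmono : ∀ i j, i ≤ j → Λ i ≤ Λ j := fun i j hij =>
    hmono (Nat.pow_le_pow_right (by norm_num) hij)
  -- the key inequality
  have hkey : ∀ i l : ℕ, l₀ ≤ i → i ≤ l → Λ l / B ≤ Λ i + ((l - i : ℕ) : ℝ) * (t / (2 * h)) := by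
    intro i l hi hil
    have hcast : ((l - i : ℕ) : ℝ) = (l : ℝ) - i := Nat.cast_sub hil
    have h0 : 0 ≤ ((l - i : ℕ) : ℝ) * (t / (2 * h)) := by positivity
    rcases Nat.lt_or_ge (2 * i) l with hlt | hge
    · have e1 := d2 l (hi.trans hil)
      have e2 := d5 i hi
      have e3 : (l : ℝ) / 2 ≤ ((l - i : ℕ) : ℝ) := by
        rw [hcast]
        have : (2 * i : ℝ) ≤ l := by exact_mod_cast hlt.le
        linarith
      have e4 : (l : ℝ) / 2 * (t / (2 * h)) ≤ ((l - i : ℕ) : ℝ) * (t / (2 * h)) := by gcongr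
      have e5 : Λ l / B ≤ Λ l / 2 := by
        have := d5 l (hi.trans hil)
        gcongr
      have e6 : (l : ℝ) * t / (2 * h) / 2 = (l : ℝ) / 2 * (t / (2 * h)) := by ring
      linarith
    · have e1 := d1 i hi
      have e2 := hΛmono l (2 * i) hge
      have e3 : Λ l / B ≤ Λ i := by
        rw [div_le_iff₀ hB0]
        linarith
      linarith
  set M : ℕ → ℕ := fun l => if l₀ ≤ l then ⌈4 * Real.exp (l * t / h - Λ l)⌉₊ else 0 with hM
  set Y : ℕ → ℝ := fun l => Real.exp (l * t / h - Λ l / B) with hY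
  have hM1 : ∀ i l : ℕ, i ≤ l → l₀ ≤ l → (M i : ℝ) ≤ 5 * Y l * ρ ^ (l - i) := by
    intro i l hil hl
    by_cases hi : l₀ ≤ i
    · have e1 : (M i : ℝ) ≤ 4 * Real.exp (i * t / h - Λ i) + 1 := by
        simp only [hM, if_pos hi]
        exact (Nat.ceil_lt_add_one (by positivity)).le
      have e2 : 1 ≤ Real.exp (i * t / h - Λ i) := by
        refine Real.one_le_exp ?_
        have := d2 i hi
        have e3 : (i : ℝ) * t / (2 * h) ≤ i * t / h := by
          gcongr
          linarith
        linarith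
      have e4 : Real.exp (i * t / h - Λ i) ≤ Y l * ρ ^ (l - i) := by
        simp only [hY]
        rw [hρ, ← Real.exp_nat_mul, ← Real.exp_add]
        refine Real.exp_le_exp.2 ?_
        have e5 := hkey i l hi hil
        have hcast : ((l - i : ℕ) : ℝ) = (l : ℝ) - i := Nat.cast_sub hil
        rw [hcast] at e5 ⊢
        have e6 : (l : ℝ) * t / h = i * t / h + 2 * (((l : ℝ) - i) * (t / (2 * h))) := by
          field_simp
          ring
        rw [e6]
        linarith
      nlinarith
    · simp only [hM, if_neg hi, Nat.cast_zero]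
      positivity
  have hFM : ∀ (l : ℕ) (F : Finset ℕ), F.card ≤ ∑ i ∈ range l, M i → l₀ ≤ l →
      ((F.card + M l : ℕ) : ℝ) ≤ C₅ * Y l := by
    intro l F hF hl
    have e1 : F.card + M l ≤ ∑ i ∈ range (l + 1), M i := by
      rw [sum_range_succ]
      omega
    have hYpos : 0 < Y l := Real.exp_pos _
    calc ((F.card + M l : ℕ) : ℝ) ≤ ((∑ i ∈ range (l + 1), M i : ℕ) : ℝ) := by exact_mod_cast e1
      _ = ∑ i ∈ range (l + 1), (M i : ℝ) := by push_cast; rfl
      _ ≤ ∑ i ∈ range (l + 1), 5 * Y l * ρ ^ (l - i) :=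
          sum_le_sum fun i hi => hM1 i l (by have := mem_range.1 hi; omega) hl
      _ = 5 * Y l * ∑ i ∈ range (l + 1), ρ ^ (l - i) := by rw [mul_sum]
      _ ≤ 5 * Y l * (1 / (1 - ρ)) :=
          mul_le_mul_of_nonneg_left (geom_bound ρ hρ0.le hρ1 l) (by positivity)
      _ = C₅ * Y l := by rw [hC₅]; ring
  set V : ℕ → ℕ := fun l => ⌊Real.exp (δ * Λ (l + 1))⌋₊ with hV
  set W : ℕ → ℕ := fun l => (p + 2) * V l with hW
  have hW1 : ∀ l : ℕ, l₀ ≤ l → (W l : ℝ) + 1 ≤ (h + 1) * Real.exp (δ * B * Λ l) := by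
    intro l hl
    have hl1 : 1 ≤ l := by
      have := (le_max_right l₁ (48 * (p + 2))).trans hl
      omega
    have e1 : (V l : ℝ) ≤ Real.exp (δ * Λ (l + 1)) := Nat.floor_le (Real.exp_pos _).le
    have e2 : Real.exp (δ * Λ (l + 1)) ≤ Real.exp (δ * B * Λ l) := by
      refine Real.exp_le_exp.2 ?_
      have e3 := hΛmono (l + 1) (2 * l) (by omega)
      have e4 := d1 l hl
      rw [mul_assoc]
      exact mul_le_mul_of_nonneg_left (by linarith) hδ0.le
    have e3 : 1 ≤ Real.exp (δ * B * Λ l) := by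
      have := d5 l hl
      exact Real.one_le_exp (by positivity)
    have e4 : (W l : ℝ) = h * V l := by
      simp only [hW]
      push_cast
      rfl
    rw [e4]
    nlinarith
  -- the two main inequalities
  have hMY : ∀ l : ℕ, l₀ ≤ l → (M l : ℝ) ≤ C₅ * Y l := by
    intro l hl
    have := hFM l ∅ (by simp) hl
    simpa using this
  have hmain1 : ∀ (l : ℕ) (F : Finset ℕ), F.card ≤ ∑ i ∈ range l, M i → l₀ ≤ l →
      2 * Real.exp (δ * Λ l) * ((p + 2) * (F.card + M l) ^ (p + 1) * (W l + 1) : ℕ) * M l ≤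
        (2 : ℝ) ^ l := by
    intro l F hF hl
    have e0 : (((p + 2) * (F.card + M l) ^ (p + 1) * (W l + 1) : ℕ) : ℝ) =
        h * ((F.card + M l : ℕ) : ℝ) ^ (p + 1) * ((W l : ℝ) + 1) := by
      push_cast
      rfl
    rw [e0]
    have e1 := hFM l F hF hl
    have e2 := hW1 l hl
    have e3 := hMY l hl
    have hYpos : 0 < Y l := Real.exp_pos _
    have hl1 := d5 l hl
    calc 2 * Real.exp (δ * Λ l) * (h * ((F.card + M l : ℕ) : ℝ) ^ (p + 1) * ((W l : ℝ) + 1)) * M l
        ≤ 2 * Real.exp (δ * Λ l) * (h * (C₅ * Y l) ^ (p + 1) *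
          ((h + 1) * Real.exp (δ * B * Λ l))) * (C₅ * Y l) := by gcongr
      _ = C₆ * (Y l ^ (p + 2) * (Real.exp (δ * Λ l) * Real.exp (δ * B * Λ l))) := by
          rw [hC₆, mul_pow]
          ring
      _ ≤ Real.exp (Λ l / B) * (Y l ^ (p + 2) * (Real.exp (δ * Λ l) * Real.exp (δ * B * Λ l))) := by
          have := d3 l hl
          gcongr
      _ ≤ (2 : ℝ) ^ l := by
          simp only [hY]
          rw [h2l, ← Real.exp_nat_mul, ← Real.exp_add, ← Real.exp_add, ← Real.exp_add]
          refine Real.exp_le_exp.2 ?_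
          have e4 : δ * Λ l + δ * B * Λ l = Λ l / B / 2 := by
            calc δ * Λ l + δ * B * Λ l = δ * (1 + B) * Λ l := by ring
              _ = Λ l / B / 2 := by
                rw [hδB]
                field_simp
          have e5 : ((p + 2 : ℕ) : ℝ) * (l * t / h - Λ l / B) = l * t - h * (Λ l / B) := by
            push_cast
            rw [← hh]
            field_simp
          rw [e4, e5]
          have e6 : 0 ≤ Λ l / B := by positivity
          nlinarith
  have hmain0 : ∀ (l : ℕ) (F : Finset ℕ), F.card ≤ ∑ i ∈ range l, M i → l₀ ≤ l →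
      2 * Real.exp (l * t / (4 * h)) * ((p + 1) * (F.card + M l) ^ p * (W l + 1) : ℕ) * M l ≤
        (2 : ℝ) ^ l := by
    intro l F hF hl
    have e0 : (((p + 1) * (F.card + M l) ^ p * (W l + 1) : ℕ) : ℝ) =
        ((p : ℝ) + 1) * ((F.card + M l : ℕ) : ℝ) ^ p * ((W l : ℝ) + 1) := by
      push_cast
      rfl
    rw [e0]
    have e1 := hFM l F hF hl
    have e2 := hW1 l hl
    have e3 := hMY l hl
    have hYpos : 0 < Y l := Real.exp_pos _
    have hl1 := d5 l hl
    have e4 : (p : ℝ) + 1 ≤ h := by linarith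
    calc 2 * Real.exp (l * t / (4 * h)) *
          (((p : ℝ) + 1) * ((F.card + M l : ℕ) : ℝ) ^ p * ((W l : ℝ) + 1)) * M l
        ≤ 2 * Real.exp (l * t / (4 * h)) * (h * (C₅ * Y l) ^ p *
          ((h + 1) * Real.exp (δ * B * Λ l))) * (C₅ * Y l) := by gcongr
      _ = C₇ * (Y l ^ (p + 1) * (Real.exp (l * t / (4 * h)) * Real.exp (δ * B * Λ l))) := by
          rw [hC₇, mul_pow]
          ring
      _ ≤ Real.exp (l * t / (2 * h)) *
          (Y l ^ (p + 1) * (Real.exp (l * t / (4 * h)) * Real.exp (δ * B * Λ l))) := by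
          have := d4 l hl
          gcongr
      _ ≤ (2 : ℝ) ^ l := by
          simp only [hY]
          rw [h2l, ← Real.exp_nat_mul, ← Real.exp_add, ← Real.exp_add, ← Real.exp_add]
          refine Real.exp_le_exp.2 ?_
          have e5 : δ * B ≤ 1 / 2 := by
            have e6 : δ * B ≤ δ * (1 + B) := mul_le_mul_of_nonneg_left (by linarith) hδ0.le
            have e7 : 1 / (2 * B) ≤ 1 / 2 := by
              apply one_div_le_one_div_of_le (by norm_num)
              linarith
            linarith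
          have e6 : δ * B * Λ l ≤ l * t / (4 * h) := by
            have e7 := d2 l hl
            calc δ * B * Λ l ≤ 1 / 2 * (l * t / (2 * h)) := by gcongr
              _ = l * t / (4 * h) := by ring
          have e7 : ((p + 1 : ℕ) : ℝ) * (l * t / h - Λ l / B) ≤ l * t - l * t / h := by
            have e8 : ((p + 1 : ℕ) : ℝ) = h - 1 := by
              push_cast
              rw [hh]
              ring
            rw [e8]
            have e9 : 0 ≤ Λ l / B := by positivity
            have e10 : (h - 1) * (l * t / h - Λ l / B) = (l * t - l * t / h) - (h - 1) * (Λ l / B) := by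
              field_simp
            rw [e10]
            have : 0 ≤ (h - 1) * (Λ l / B) := mul_nonneg (by linarith) e9
            linarith
          have e8 : l * t / (2 * h) = l * t / h - 2 * (l * t / (4 * h)) := by
            field_simp
            ring
          linarith
  set U := 8 * (p + 2) with hU
  set U' : ℕ → ℕ := fun l => ⌊2 * l * t / (δ * Λ l)⌋₊ with hU'
  obtain ⟨A, hA1, hA2⟩ := assemble2 p U U' V W M (fun l => le_rfl)
    (by
      intro l
      by_cases hl : l₀ ≤ l
      · by_cases hM0 : M l = 0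
        · exact Or.inl hM0
        · right
          have h1 := hmain0 l ∅ (by simp) hl
          have h2 : (W l : ℝ) ≤ (2 : ℝ) ^ l := by
            refine le_trans ?_ h1
            have h3 : (1 : ℝ) ≤ M l := by exact_mod_cast Nat.one_le_iff_ne_zero.2 hM0
            have h4 : 1 ≤ Real.exp (l * t / (4 * h)) := Real.one_le_exp (by positivity)
            have h5 : (W l : ℝ) ≤ ((p + 1) * ((∅ : Finset ℕ).card + M l) ^ p * (W l + 1) : ℕ) := by
              have : W l ≤ (p + 1) * ((∅ : Finset ℕ).card + M l) ^ p * (W l + 1) := by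
                have h6 : 1 ≤ (p + 1) * ((∅ : Finset ℕ).card + M l) ^ p := by
                  have : 0 < (∅ : Finset ℕ).card + M l := by omega
                  exact Nat.one_le_iff_ne_zero.2 (by positivity)
                calc W l ≤ 1 * (W l + 1) := by omega
                  _ ≤ _ := Nat.mul_le_mul_right _ h6
              exact_mod_cast this
            have h7 : (0 : ℝ) ≤ W l := Nat.cast_nonneg _
            calc (W l : ℝ) ≤ 1 * W l * 1 := by linarith
              _ ≤ (2 * Real.exp (l * t / (4 * h))) *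
                  ((p + 1) * ((∅ : Finset ℕ).card + M l) ^ p * (W l + 1) : ℕ) * M l := by
                gcongr
                linarith
          exact_mod_cast h2
      · left
        simp only [hM, if_neg hl])
    (by
      intro l F hF
      by_cases hl : l₀ ≤ l
      · have hD : ((Ico (2 ^ l) (2 ^ (l + 1))).card : ℝ) = (2 : ℝ) ^ l := by
          rw [Nat.card_Ico]
          have : 2 ^ (l + 1) - 2 ^ l = 2 ^ l := Nat.sub_eq_of_eq_add (by ring)
          rw [this]
          push_cast
          rfl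
        have hlΛ := d5 l hl
        obtain ⟨Ls, h1, h2, h3, h4⟩ := greedy2 p (W l) F (Ico (2 ^ l) (2 ^ (l + 1)))
          (8 * (p + 2) * 2 ^ l) (M l) (Real.exp (l * t / (4 * h))) (Real.exp (δ * Λ l))
          (Real.one_le_exp (by positivity)) (Real.one_le_exp (by positivity))
          (by rw [hD]; exact hmain0 l F hF hl) (by rw [hD]; exact hmain1 l F hF hl)
        refine ⟨Ls, h1, h2, fun b hb => mem_Ico.1 (h3 b hb), fun n hn => ?_⟩
        obtain ⟨h5, h6⟩ := h4 n hn
        have hl24 : 48 * (p + 2) ≤ l := (le_max_right _ _).trans hl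
        have h7 : (6 : ℝ) * ((8 * (p + 2) * 2 ^ l : ℕ) : ℝ) ≤ Real.exp (2 * l * t) := by
          have h8 : 6 * (8 * (p + 2) * 2 ^ l) ≤ 2 ^ (2 * l) := by
            have h9 : 48 * (p + 2) ≤ 2 ^ l := hl24.trans Nat.lt_two_pow_self.le
            calc 6 * (8 * (p + 2) * 2 ^ l) = 48 * (p + 2) * 2 ^ l := by ring
              _ ≤ 2 ^ l * 2 ^ l := Nat.mul_le_mul_right _ h9
              _ = 2 ^ (2 * l) := by rw [← pow_add]; congr 1; ring
          have h10 : (6 : ℝ) * ((8 * (p + 2) * 2 ^ l : ℕ) : ℝ) ≤ (2 : ℝ) ^ (2 * l) := by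
            exact_mod_cast h8
          rw [h2l] at h10
          refine h10.trans (le_of_eq ?_)
          push_cast
          ring_nf
        have hl0 : (0 : ℝ) < l := by
          have : 0 < l := by omega
          exact_mod_cast this
        constructor
        · have h8 := h5.trans h7
          rw [← Real.exp_nat_mul, Real.exp_le_exp] at h8
          have h9 : (un p (W l) F n Ls : ℝ) ≤ 8 * h := by
            have h10 : (l * t / (4 * h)) * (un p (W l) F n Ls : ℝ) ≤
                (l * t / (4 * h)) * (8 * h) := by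
              calc (l * t / (4 * h)) * (un p (W l) F n Ls : ℝ) =
                  un p (W l) F n Ls * (l * t / (4 * h)) := by ring
                _ ≤ 2 * l * t := h8
                _ = (l * t / (4 * h)) * (8 * h) := by
                  field_simp
                  norm_num
            exact le_of_mul_le_mul_left h10 (by positivity)
          have h10 : (un p (W l) F n Ls : ℝ) ≤ ((8 * (p + 2) : ℕ) : ℝ) := by
            push_cast
            rw [← hh]
            exact h9
          rw [hU]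
          exact_mod_cast h10
        · have h8 := h6.trans h7
          rw [← Real.exp_nat_mul, Real.exp_le_exp] at h8
          simp only [hU']
          refine Nat.le_floor ?_
          rw [le_div_iff₀ (by positivity)]
          exact h8
      · refine ⟨[], ?_, List.nodup_nil, by simp, ?_⟩
        · simp only [hM, if_neg hl, List.length_nil]
        · intro n _
          simp [un])
  set C : ℝ := ((8 * (p + 2) * U : ℕ) : ℝ) ^ (p + 1) * (8 * h * (2 * B / δ)) with hC
  have hU0 : 0 < 8 * (p + 2) * U := by rw [hU]; positivity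
  refine ⟨C, ?_, A, 2 ^ (16 * (p + 2) + l₀), ?_, ?_⟩
  · have : (0 : ℝ) < ((8 * (p + 2) * U : ℕ) : ℝ) := by exact_mod_cast hU0
    positivity
  · filter_upwards [eventually_ge_atTop (2 ^ (l₀ + 2))] with N hN2
    have hN0 : N ≠ 0 := by
      have : 1 ≤ 2 ^ (l₀ + 2) := Nat.one_le_two_pow
      omega
    have hlog' : l₀ + 2 ≤ Nat.log 2 N := Nat.le_log_of_pow_le (by norm_num) hN2
    set l := Nat.log 2 N - 1 with hl
    have hl1 : 2 ^ (l + 1) ≤ N := by
      have : l + 1 = Nat.log 2 N := by omega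
      rw [this]
      exact Nat.pow_log_le_self 2 hN0
    have hl2 : N < 2 ^ (l + 2) := by
      have : l + 2 = Nat.log 2 N + 1 := by omega
      rw [this]
      exact Nat.lt_pow_succ_log_self (by norm_num) N
    have h1 := hA1 l N hl1
    have hll : l₀ ≤ l := by omega
    have h2 : 4 * Real.exp (l * t / h - Λ l) ≤ M l := by
      simp only [hM, if_pos hll]
      exact Nat.le_ceil _
    have h3 : (N : ℝ) ^ (1 / h) ≤ 4 * Real.exp (l * t / h) := by
      have h5 : (N : ℝ) ≤ Real.exp ((l + 2) * t) := by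
        have h6 : (N : ℝ) ≤ (2 : ℝ) ^ (l + 2) := by exact_mod_cast hl2.le
        rw [h2l] at h6
        push_cast at h6
        exact h6
      calc (N : ℝ) ^ (1 / h) ≤ (Real.exp ((l + 2) * t)) ^ (1 / h) := by gcongr
        _ = Real.exp (l * t / h) * Real.exp (2 * t / h) := by
          rw [← Real.exp_mul, ← Real.exp_add]
          congr 1
          field_simp
        _ ≤ Real.exp (l * t / h) * 4 := by
          gcongr
          have h6 : 2 * t / h ≤ 2 * t := div_le_self (by positivity) (by linarith)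
          calc Real.exp (2 * t / h) ≤ Real.exp (2 * t) := Real.exp_le_exp.2 h6
            _ = 4 := by
              have := h2l 2
              push_cast at this
              rw [← this]
              norm_num
        _ = 4 * Real.exp (l * t / h) := by ring
    have h4 : Real.exp (-L N) ≤ Real.exp (-Λ l) := by
      refine Real.exp_le_exp.2 (neg_le_neg (hmono ?_))
      have : 2 ^ l ≤ 2 ^ (l + 1) := Nat.pow_le_pow_right (by norm_num) (by omega)
      omega
    have h5 : (M l : ℝ) ≤ num A N := by exact_mod_cast h1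
    calc (N : ℝ) ^ (1 / h) * Real.exp (-L N) ≤ 4 * Real.exp (l * t / h) * Real.exp (-Λ l) := by
          gcongr
      _ = 4 * Real.exp (l * t / h - Λ l) := by
          rw [mul_assoc, ← Real.exp_add]
          rfl
      _ ≤ M l := h2
      _ ≤ _ := h5
  · intro z hz n hn
    have h1 := hA2 z (by
      intro a ha l hal
      have h2 := hz a ha
      simp only [hV]
      refine Nat.le_floor (h2.trans (Real.exp_le_exp.2 (mul_le_mul_of_nonneg_left ?_ hδ0.le)))
      exact hmono hal.le) n
    have hn0 : n ≠ 0 := by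
      have : 1 ≤ 2 ^ (16 * (p + 2) + l₀) := Nat.one_le_two_pow
      omega
    have hlogn : 16 * (p + 2) + l₀ ≤ Nat.log 2 n := Nat.le_log_of_pow_le (by norm_num) hn
    have hlogn' : (Nat.log 2 n : ℝ) * t ≤ Real.log n := by
      have h2 : ((2 : ℝ) ^ Nat.log 2 n) ≤ n := by exact_mod_cast Nat.pow_log_le_self 2 hn0
      have h3 := Real.log_le_log (by positivity) h2
      rwa [Real.log_pow] at h3
    have hterm : ∀ l ∈ Icc (Nat.log 2 n + 1 - 8 * (p + 2)) (Nat.log 2 n),
        (U' l : ℝ) ≤ 2 * B / δ * (Real.log n / L n) := by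
      intro l hl
      obtain ⟨hl1, hl2⟩ := mem_Icc.1 hl
      have hll : l₀ ≤ l := by omega
      have e1 : L n ≤ B * Λ l := by
        refine le_trans (hmono ?_) (d1 l hll)
        have e2 : n < 2 ^ (Nat.log 2 n + 1) := Nat.lt_pow_succ_log_self (by norm_num) n
        have e3 : 2 ^ (Nat.log 2 n + 1) ≤ 2 ^ (2 * l) := Nat.pow_le_pow_right (by norm_num) (by omega)
        omega
      have e2 : 1 ≤ L n := (d5 l hll).trans (hmono (by
        have e3 : 2 ^ l ≤ 2 ^ Nat.log 2 n := Nat.pow_le_pow_right (by norm_num) hl2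
        exact e3.trans (Nat.pow_log_le_self 2 hn0)))
      have e3 := d5 l hll
      have e4 : (l : ℝ) * t ≤ Real.log n := by
        have : (l : ℝ) ≤ Nat.log 2 n := by exact_mod_cast hl2
        nlinarith
      calc (U' l : ℝ) ≤ 2 * l * t / (δ * Λ l) := Nat.floor_le (by positivity)
        _ = 2 / δ * (l * t) * (1 / Λ l) := by field_simp
        _ ≤ 2 / δ * Real.log n * (B / L n) := by
          have e5 : 1 / Λ l ≤ B / L n := by
            rw [div_le_div_iff₀ (by linarith) (by linarith)]
            linarith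
          have e6 : 0 ≤ Real.log n := le_trans (by positivity) e4
          gcongr
        _ = 2 * B / δ * (Real.log n / L n) := by ring
    have h2 : ((∑ l ∈ Icc (Nat.log 2 n + 1 - 8 * (p + 2)) (Nat.log 2 n), U' l : ℕ) : ℝ) ≤
        8 * h * (2 * B / δ * (Real.log n / L n)) := by
      push_cast
      calc ∑ l ∈ Icc (Nat.log 2 n + 1 - 8 * (p + 2)) (Nat.log 2 n), (U' l : ℝ)
          ≤ ∑ l ∈ Icc (Nat.log 2 n + 1 - 8 * (p + 2)) (Nat.log 2 n),
            2 * B / δ * (Real.log n / L n) := sum_le_sum hterm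
        _ = ((Icc (Nat.log 2 n + 1 - 8 * (p + 2)) (Nat.log 2 n)).card : ℝ) *
            (2 * B / δ * (Real.log n / L n)) := by rw [sum_const, nsmul_eq_mul]
        _ = 8 * h * (2 * B / δ * (Real.log n / L n)) := by
          congr 1
          rw [Nat.card_Icc]
          have : Nat.log 2 n + 1 - (Nat.log 2 n + 1 - 8 * (p + 2)) = 8 * (p + 2) := by omega
          rw [this]
          push_cast
          rfl
    calc (R (moved A z) (p + 2) n : ℝ) ≤ (((8 * (p + 2) * U) ^ (p + 1) *
          ∑ l ∈ Icc (Nat.log 2 n + 1 - 8 * (p + 2)) (Nat.log 2 n), U' l : ℕ) : ℝ) := by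
          exact_mod_cast h1
      _ = ((8 * (p + 2) * U : ℕ) : ℝ) ^ (p + 1) *
          ((∑ l ∈ Icc (Nat.log 2 n + 1 - 8 * (p + 2)) (Nat.log 2 n), U' l : ℕ) : ℝ) := by
          push_cast
          rfl
      _ ≤ ((8 * (p + 2) * U : ℕ) : ℝ) ^ (p + 1) *
          (8 * h * (2 * B / δ * (Real.log n / L n))) := by gcongr
      _ = C * (Real.log n / L n) := by rw [hC]; ring

end Pool.Agent.U204.PT
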